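import Mathlib

set_option autoImplicit false

/-! The time profile `ρ`, the derivative of the smooth transition. -/

namespace Pool.Agent.Helper69.EI

open Set Filter Topology
open scoped ContDiff

/-- the time profile: a nonnegative smooth function with support in `[0,1]` and integral one -/
noncomputable def rho (t : ℝ) : ℝ := deriv Real.smoothTransition t

theorem contDiff_T : ContDiff ℝ ∞ Real.smoothTransition := Real.smoothTransition.contDiff

theorem contDiff_rho : ContDiff ℝ ∞ rho := by
  have h : ContDiff ℝ ∞ (deriv Real.smoothTransition) :=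
    (contDiff_infty_iff_deriv.1 contDiff_T).2
  exact h

theorem continuous_rho : Continuous rho := contDiff_rho.continuous

theorem hasDerivAt_T (t : ℝ) : HasDerivAt Real.smoothTransition (rho t) t :=
  (contDiff_T.differentiable (by simp) t).hasDerivAt

theorem T_zero {t : ℝ} (ht : t ≤ 0) : Real.smoothTransition t = 0 :=
  Real.smoothTransition.zero_of_nonpos ht

theorem T_one {t : ℝ} (ht : 1 ≤ t) : Real.smoothTransition t = 1 :=
  Real.smoothTransition.one_of_one_le ht

theorem rho_nonneg (t : ℝ) : 0 ≤ rho t := by
  have : Monotone Real.smoothTransition := by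
    exact Real.smoothTransition.monotone
  exact this.deriv_nonneg

theorem rho_of_nonpos {t : ℝ} (ht : t ≤ 0) : rho t = 0 := by
  have h1 : ∀ s < 0, rho s = 0 := by
    intro s hs
    have : Real.smoothTransition =ᶠ[𝓝 s] fun _ => 0 := by
      filter_upwards [Iio_mem_nhds hs] with x hx
      exact T_zero hx.le
    rw [rho, this.deriv_eq, deriv_const]
  rcases ht.lt_or_eq with h | h
  · exact h1 t h
  · rw [h]
    have h2 : Tendsto rho (𝓝[<] 0) (𝓝 (rho 0)) := continuous_rho.continuousAt.mono_left nhdsWithin_le_nhds
    have h3 : Tendsto rho (𝓝[<] 0) (𝓝 0) := by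
      refine Tendsto.congr' ?_ tendsto_const_nhds
      filter_upwards [self_mem_nhdsWithin] with x hx
      exact (h1 x hx).symm
    exact tendsto_nhds_unique h2 h3

theorem rho_of_one_le {t : ℝ} (ht : 1 ≤ t) : rho t = 0 := by
  have h1 : ∀ s > 1, rho s = 0 := by
    intro s hs
    have : Real.smoothTransition =ᶠ[𝓝 s] fun _ => 1 := by
      filter_upwards [Ioi_mem_nhds hs] with x hx
      exact T_one (le_of_lt hx)
    rw [rho, this.deriv_eq, deriv_const]
  rcases ht.lt_or_eq with h | h
  · exact h1 t h
  · rw [← h]
    have h2 : Tendsto rho (𝓝[>] 1) (𝓝 (rho 1)) := continuous_rho.continuousAt.mono_left nhdsWithin_le_nhds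
    have h3 : Tendsto rho (𝓝[>] 1) (𝓝 0) := by
      refine Tendsto.congr' ?_ tendsto_const_nhds
      filter_upwards [self_mem_nhdsWithin] with x hx
      exact (h1 x hx).symm
    exact tendsto_nhds_unique h2 h3

theorem exists_rho_bound : ∃ R : ℝ, 1 ≤ R ∧ ∀ t, rho t ≤ R := by
  obtain ⟨C, hC⟩ := (isCompact_Icc (a := (0:ℝ)) (b := 1)).exists_bound_of_continuousOn
    continuous_rho.continuousOn
  refine ⟨max C 1, le_max_right _ _, fun t => ?_⟩
  rcases le_total t 0 with h | h
  · rw [rho_of_nonpos h]; exact le_trans zero_le_one (le_max_right _ _)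
  rcases le_total 1 t with h' | h'
  · rw [rho_of_one_le h']; exact le_trans zero_le_one (le_max_right _ _)
  · exact (le_abs_self _).trans ((hC t ⟨h, h'⟩).trans (le_max_left _ _))

/-- the bound of the profile -/
noncomputable def R0 : ℝ := exists_rho_bound.choose

theorem one_le_R0 : 1 ≤ R0 := exists_rho_bound.choose_spec.1

theorem R0_pos : 0 < R0 := lt_of_lt_of_le one_pos one_le_R0

theorem rho_le (t : ℝ) : rho t ≤ R0 := exists_rho_bound.choose_spec.2 t

end Pool.Agent.Helper69.EI
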