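import Pool.Agent.Helper69.EI.Flow
import Pool.Agent.Helper69.EI.Rho

set_option autoImplicit false

/-! The clock: a particle on a line in a periodic potential, with gates. Single orbits. -/

namespace Pool.Agent.Helper69.EI

open Set Filter Topology
open scoped NNReal

/-- the data of the clock: the equation is `y'' = H'(y)` -/
structure Clock where
  H : ℝ → ℝ
  H' : ℝ → ℝ
  hH : ∀ y, HasDerivAt H (H' y) y
  K : ℝ≥0
  hK : LipschitzWith K H'
  per : ∀ y, H (y + 1) = H y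
  m : ℝ
  hm : ∀ y, m ≤ H y
  ys : ℝ
  hys : H ys = m
  O : ℝ
  hO0 : 0 ≤ O
  hO : ∀ y, H y ≤ m + O
  M : ℝ
  hM : ∀ y, |H' y| ≤ M
  yg : ℝ
  δ : ℝ
  v₁ : ℝ
  δ_pos : 0 < δ
  v₁_pos : 0 < v₁
  hI : ∀ y, yg - δ ≤ y → y ≤ yg + δ → m + 2 * v₁ ^ 2 ≤ H y
  hδ : 2 * δ < v₁
  hL : ys < yg - δ
  hR : yg + δ < ys + 1
  v₂ : ℝ
  v₂_pos : 0 < v₂
  hv₂ : v₂ ^ 2 = 2 * (1 + O)

namespace Clock

variable (C : Clock)

/-- scale of the gate `k` -/
noncomputable def r (k : ℕ) : ℝ := C.δ / 2 ^ k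
/-- centre of the gate `k` -/
noncomputable def c (k : ℕ) : ℝ := C.yg + C.r k / 2
/-- half width of the gate `k` -/
noncomputable def w (k : ℕ) : ℝ := C.r k / 16

lemma r_pos (k : ℕ) : 0 < C.r k := div_pos C.δ_pos (by positivity)
lemma w_pos (k : ℕ) : 0 < C.w k := div_pos (C.r_pos k) (by norm_num)

lemma r_le (k : ℕ) : C.r k ≤ C.δ := by
  rw [r]
  exact div_le_self C.δ_pos.le (one_le_pow₀ (by norm_num))

lemma r_lt {k l : ℕ} (h : k < l) : C.r l ≤ C.r k / 2 := by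
  rw [r, r, div_div, ← pow_succ]
  exact div_le_div_of_nonneg_left C.δ_pos.le (by positivity)
    (pow_le_pow_right₀ (by norm_num) h)

lemma H'_ys : C.H' C.ys = 0 := by
  have h1 : IsLocalMin C.H C.ys := by
    refine Filter.Eventually.of_forall fun y => ?_
    rw [C.hys]; exact C.hm y
  exact h1.hasDerivAt_eq_zero (C.hH C.ys)

lemma H_ys1 : C.H (C.ys + 1) = C.m := by rw [C.per, C.hys]

lemma H'_ys1 : C.H' (C.ys + 1) = 0 := by
  have h1 : IsLocalMin C.H (C.ys + 1) := by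
    refine Filter.Eventually.of_forall fun y => ?_
    rw [C.H_ys1]; exact C.hm y
  exact h1.hasDerivAt_eq_zero (C.hH _)

lemma M_nonneg : 0 ≤ C.M := (abs_nonneg _).trans (C.hM 0)

end Clock

/-- the gates -/
structure Gates (C : Clock) where
  d : ℕ → ℝ
  a : ℕ → ℝ
  Ψ : ℕ → ℝ → ℝ
  K' : ℕ → ℝ≥0
  hK' : ∀ k, LipschitzWith (K' k) (Ψ k)
  d_pos : ∀ k, 0 < d k
  d_le : ∀ k, d k ≤ 1 / 8
  d_v : ∀ k, d k * (C.M + 1) ≤ C.v₁
  d_w : ∀ k, d k * (C.v₂ + C.v₁) ≤ C.w k / 64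
  a_pos : ∀ k, 0 < a k
  hΨ1 : ∀ k y, R0 * |Ψ k y| ≤ 1
  hΨ : ∀ k y, |y - C.c k| ≤ C.w k / 2 → Ψ k y = a k * (y - C.c k)

/-- an orbit with the gate `k` -/
structure Orb {C : Clock} (Gt : Gates C) (k : ℕ) (Y V : ℝ → ℝ) : Prop where
  hY : ∀ t, HasDerivAt Y (V t) t
  hV : ∀ t, HasDerivAt V (C.H' (Y t) + rho (t / Gt.d k) * Gt.Ψ k (Y t)) t

/-- good initial conditions -/
structure Good {C : Clock} (_Gt : Gates C) (k : ℕ) (y v : ℝ) : Prop where
  h1 : |y - C.c k| ≤ C.w k / 8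
  h2 : 0 < v
  h3 : -C.m ≤ v ^ 2 / 2 - C.H y
  h4 : v ^ 2 / 2 - C.H y ≤ -C.m + 1

/-- the energy gained or lost in the gate `k` -/
noncomputable def Gates.ν {C : Clock} (Gt : Gates C) (k : ℕ) : ℝ :=
  Gt.a k * (C.w k / 16) * C.v₁ * Gt.d k

lemma Gates.ν_pos {C : Clock} (Gt : Gates C) (k : ℕ) : 0 < Gt.ν k :=
  mul_pos (mul_pos (mul_pos (Gt.a_pos k) (div_pos (C.w_pos k) (by norm_num))) C.v₁_pos)
    (Gt.d_pos k)

section orbit
variable {C : Clock} {Gt : Gates C} {k : ℕ} {Y V : ℝ → ℝ}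

lemma Good.mem (h : Good Gt k (Y 0) (V 0)) : C.yg - C.δ ≤ Y 0 ∧ Y 0 ≤ C.yg + C.δ := by
  have h1 := abs_le.1 h.h1
  have h2 := C.r_le k
  have h3 := C.r_pos k
  simp only [Clock.c, Clock.w] at h1
  constructor <;> linarith [h1.1, h1.2]

lemma Good.v_ge (h : Good Gt k (Y 0) (V 0)) : 2 * C.v₁ ≤ V 0 := by
  have h1 := C.hI (Y 0) h.mem.1 h.mem.2
  have h2 := h.h3
  have h3 : (2 * C.v₁) ^ 2 ≤ V 0 ^ 2 := by nlinarith
  exact (pow_le_pow_iff_left₀ (by linarith [C.v₁_pos]) h.h2.le (by norm_num)).1 h3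

lemma Good.v_le (h : Good Gt k (Y 0) (V 0)) : V 0 ≤ C.v₂ := by
  have h1 := C.hO (Y 0)
  have h2 := h.h4
  have h3 : V 0 ^ 2 ≤ C.v₂ ^ 2 := by rw [C.hv₂]; nlinarith
  exact (pow_le_pow_iff_left₀ h.h2.le C.v₂_pos.le (by norm_num)).1 h3

lemma Orb.force_le (_h : Orb Gt k Y V) (t : ℝ) :
    |C.H' (Y t) + rho (t / Gt.d k) * Gt.Ψ k (Y t)| ≤ C.M + 1 := by
  refine (abs_add_le _ _).trans (add_le_add (C.hM _) ?_)
  rw [abs_mul, abs_of_nonneg (rho_nonneg _)]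
  exact (mul_le_mul_of_nonneg_right (rho_le _) (abs_nonneg _)).trans (Gt.hΨ1 k _)

/-- the velocity changes slowly -/
lemma Orb.v_sub (h : Orb Gt k Y V) {t : ℝ} (ht : 0 ≤ t) : |V t - V 0| ≤ (C.M + 1) * t := by
  have h1 := (convex_univ).norm_image_sub_le_of_norm_hasDerivWithin_le (f := V)
    (f' := fun t => C.H' (Y t) + rho (t / Gt.d k) * Gt.Ψ k (Y t)) (C := C.M + 1) (s := univ)
    (x := 0) (y := t)
    (fun x _ => (h.hV x).hasDerivWithinAt) (fun x _ => h.force_le x) (mem_univ _) (mem_univ _)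
  rw [sub_zero, Real.norm_eq_abs, Real.norm_eq_abs, abs_of_nonneg ht] at h1
  exact h1

lemma Orb.v_gate (h : Orb Gt k Y V) (hg : Good Gt k (Y 0) (V 0)) {t : ℝ} (ht : 0 ≤ t)
    (ht' : t ≤ Gt.d k) : C.v₁ ≤ V t ∧ V t ≤ C.v₂ + C.v₁ := by
  have h1 := abs_le.1 (h.v_sub ht)
  have h2 : (C.M + 1) * t ≤ C.v₁ := by
    calc (C.M + 1) * t ≤ (C.M + 1) * Gt.d k :=
          mul_le_mul_of_nonneg_left ht' (by linarith [C.M_nonneg])
      _ = Gt.d k * (C.M + 1) := mul_comm _ _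
      _ ≤ _ := Gt.d_v k
  have h3 := hg.v_ge
  have h4 := hg.v_le
  constructor <;> linarith [h1.1, h1.2]

/-- growth of the position from bounds for the velocity -/
lemma pos_le {Y V : ℝ → ℝ} (hY : ∀ t, HasDerivAt Y (V t) t) {s t a : ℝ} (hst : s ≤ t)
    (h : ∀ x ∈ Icc s t, V x ≤ a) : Y t - Y s ≤ a * (t - s) := by
  have h1 := (convex_Icc s t).image_sub_le_mul_sub_of_deriv_le (f := Y) (C := a)
    (fun x _ => (hY x).continuousAt.continuousWithinAt)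
    (fun x _ => (hY x).differentiableAt.differentiableWithinAt)
    (fun x hx => by rw [(hY x).deriv]; exact h x (interior_subset hx)) s ⟨le_rfl, hst⟩ t
    ⟨hst, le_rfl⟩ hst
  exact h1

lemma pos_ge {Y V : ℝ → ℝ} (hY : ∀ t, HasDerivAt Y (V t) t) {s t a : ℝ} (hst : s ≤ t)
    (h : ∀ x ∈ Icc s t, a ≤ V x) : a * (t - s) ≤ Y t - Y s := by
  have h1 := (convex_Icc s t).mul_sub_le_image_sub_of_le_deriv (f := Y) (C := a)
    (fun x _ => (hY x).continuousAt.continuousWithinAt)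
    (fun x _ => (hY x).differentiableAt.differentiableWithinAt)
    (fun x hx => by rw [(hY x).deriv]; exact h x (interior_subset hx)) s ⟨le_rfl, hst⟩ t
    ⟨hst, le_rfl⟩ hst
  exact h1

lemma Orb.y_gate (h : Orb Gt k Y V) (hg : Good Gt k (Y 0) (V 0)) {t : ℝ} (ht : 0 ≤ t)
    (ht' : t ≤ Gt.d k) : C.v₁ * t ≤ Y t - Y 0 ∧ Y t - Y 0 ≤ (C.v₂ + C.v₁) * t := by
  constructor
  · have := pos_ge h.hY ht (a := C.v₁)
      (fun x hx => (h.v_gate hg hx.1 (hx.2.trans ht')).1)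
    rwa [sub_zero] at this
  · have := pos_le h.hY ht (a := C.v₂ + C.v₁)
      (fun x hx => (h.v_gate hg hx.1 (hx.2.trans ht')).2)
    rwa [sub_zero] at this

lemma Orb.y_gate' (h : Orb Gt k Y V) (hg : Good Gt k (Y 0) (V 0)) {t : ℝ} (ht : 0 ≤ t)
    (ht' : t ≤ Gt.d k) : Y 0 ≤ Y t ∧ Y t ≤ Y 0 + C.w k / 64 := by
  have h1 := h.y_gate hg ht ht'
  have h2 : 0 ≤ C.v₁ * t := mul_nonneg C.v₁_pos.le ht
  have h3 : (C.v₂ + C.v₁) * t ≤ C.w k / 64 := by
    calc (C.v₂ + C.v₁) * t ≤ (C.v₂ + C.v₁) * Gt.d k :=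
          mul_le_mul_of_nonneg_left ht' (by linarith [C.v₁_pos, C.v₂_pos])
      _ = Gt.d k * (C.v₂ + C.v₁) := mul_comm _ _
      _ ≤ _ := Gt.d_w k
  constructor <;> linarith [h1.1, h1.2]

/-- the orbit stays in the inner part of the gate -/
lemma Orb.in_gate (h : Orb Gt k Y V) (hg : Good Gt k (Y 0) (V 0)) {t : ℝ} (ht : 0 ≤ t)
    (ht' : t ≤ Gt.d k) : |Y t - C.c k| ≤ C.w k / 4 := by
  have h1 := h.y_gate' hg ht ht'
  have h2 := abs_le.1 hg.h1
  have h3 := C.w_pos k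
  rw [abs_le]
  constructor <;> linarith [h1.1, h1.2, h2.1, h2.2]

/-- the derivative of the energy -/
lemma Orb.hE (h : Orb Gt k Y V) (t : ℝ) :
    HasDerivAt (fun t => V t ^ 2 / 2 - C.H (Y t)) (rho (t / Gt.d k) * Gt.Ψ k (Y t) * V t) t := by
  have h1 := ((h.hV t).pow 2).div_const 2
  have h2 := (C.hH (Y t)).comp t (h.hY t)
  have h3 := h1.sub h2
  refine h3.congr_deriv ?_
  simp only [Nat.cast_ofNat, Nat.add_one_sub_one, pow_one]
  ring

lemma hasDerivAt_dT {d : ℝ} (hd : 0 < d) (t : ℝ) :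
    HasDerivAt (fun t => d * Real.smoothTransition (t / d)) (rho (t / d)) t := by
  have h1 : HasDerivAt (fun t : ℝ => t / d) (1 / d) t := (hasDerivAt_id t).div_const d
  have h2 := ((hasDerivAt_T (t / d)).comp t h1).const_mul d
  refine h2.congr_deriv ?_
  field_simp

/-- comparison of the energy with the integral of the profile -/
lemma energy_ge {E E' : ℝ → ℝ} {d b : ℝ} (hd : 0 < d) (hE : ∀ t, HasDerivAt E (E' t) t)
    (h : ∀ t ∈ Icc 0 d, b * rho (t / d) ≤ E' t) : E 0 + b * d ≤ E d := by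
  have h1 : ∀ t, HasDerivAt (fun t => E t - b * (d * Real.smoothTransition (t / d)))
      (E' t - b * rho (t / d)) t := fun t => (hE t).sub ((hasDerivAt_dT hd t).const_mul b)
  have h2 := pos_ge h1 hd.le (a := 0) (fun x hx => by linarith [h x hx])
  simp only [zero_div, T_zero le_rfl, div_self hd.ne', T_one le_rfl] at h2
  linarith

lemma energy_le {E E' : ℝ → ℝ} {d b : ℝ} (hd : 0 < d) (hE : ∀ t, HasDerivAt E (E' t) t)
    (h : ∀ t ∈ Icc 0 d, E' t ≤ b * rho (t / d)) : E d ≤ E 0 + b * d := by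
  have h1 : ∀ t, HasDerivAt (fun t => E t - b * (d * Real.smoothTransition (t / d)))
      (E' t - b * rho (t / d)) t := fun t => (hE t).sub ((hasDerivAt_dT hd t).const_mul b)
  have h2 := pos_le h1 hd.le (a := 0) (fun x hx => by linarith [h x hx])
  simp only [zero_div, T_zero le_rfl, div_self hd.ne', T_one le_rfl] at h2
  linarith

/-- the energy grows when the gate is passed on the right -/
lemma Orb.gain (h : Orb Gt k Y V) (hg : Good Gt k (Y 0) (V 0)) (h0 : Y 0 = C.c k + C.w k / 8) :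
    V 0 ^ 2 / 2 - C.H (Y 0) + Gt.ν k ≤ V (Gt.d k) ^ 2 / 2 - C.H (Y (Gt.d k)) := by
  refine energy_ge (Gt.d_pos k) h.hE fun t ht => ?_
  have h1 := h.y_gate' hg ht.1 ht.2
  have h2 := h.v_gate hg ht.1 ht.2
  have h3 := C.w_pos k
  have ha := Gt.a_pos k
  have h4 : Gt.Ψ k (Y t) = Gt.a k * (Y t - C.c k) := by
    refine Gt.hΨ k _ ((h.in_gate hg ht.1 ht.2).trans (by linarith))
  rw [h4]
  have h5 : C.w k / 16 ≤ Y t - C.c k := by linarith [h1.1]
  have h6 : Gt.a k * (C.w k / 16) * C.v₁ ≤ Gt.a k * (Y t - C.c k) * V t := by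
    refine mul_le_mul (mul_le_mul_of_nonneg_left h5 ha.le) h2.1 C.v₁_pos.le ?_
    exact mul_nonneg ha.le (by linarith)
  calc Gt.a k * (C.w k / 16) * C.v₁ * rho (t / Gt.d k)
      ≤ Gt.a k * (Y t - C.c k) * V t * rho (t / Gt.d k) :=
        mul_le_mul_of_nonneg_right h6 (rho_nonneg _)
    _ = _ := by ring

/-- the energy decreases when the gate is passed on the left -/
lemma Orb.loss (h : Orb Gt k Y V) (hg : Good Gt k (Y 0) (V 0)) (h0 : Y 0 = C.c k - C.w k / 8) :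
    V (Gt.d k) ^ 2 / 2 - C.H (Y (Gt.d k)) ≤ V 0 ^ 2 / 2 - C.H (Y 0) - Gt.ν k := by
  have := energy_le (Gt.d_pos k) h.hE (b := -(Gt.a k * (C.w k / 16) * C.v₁)) fun t ht => by
    have h1 := h.y_gate' hg ht.1 ht.2
    have h2 := h.v_gate hg ht.1 ht.2
    have h3 := C.w_pos k
    have ha := Gt.a_pos k
    have h4 : Gt.Ψ k (Y t) = Gt.a k * (Y t - C.c k) := by
      refine Gt.hΨ k _ ((h.in_gate hg ht.1 ht.2).trans (by linarith))
    rw [h4]
    have h5 : C.w k / 16 ≤ -(Y t - C.c k) := by linarith [h1.2]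
    have h6 : Gt.a k * (C.w k / 16) * C.v₁ ≤ Gt.a k * (-(Y t - C.c k)) * V t := by
      refine mul_le_mul (mul_le_mul_of_nonneg_left h5 ha.le) h2.1 C.v₁_pos.le ?_
      exact mul_nonneg ha.le (by linarith)
    have h7 := mul_le_mul_of_nonneg_right h6 (rho_nonneg (t / Gt.d k))
    linarith
  rw [Gates.ν]
  linarith

/-- conservation of energy after the gate -/
lemma Orb.cons (h : Orb Gt k Y V) {s t : ℝ} (hs : Gt.d k ≤ s) (hst : s ≤ t) :
    V t ^ 2 / 2 - C.H (Y t) = V s ^ 2 / 2 - C.H (Y s) := by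
  have h0 : ∀ x ∈ Icc s t, rho (x / Gt.d k) * Gt.Ψ k (Y x) * V x = 0 := by
    intro x hx
    rw [rho_of_one_le ((one_le_div (Gt.d_pos k)).2 (hs.trans hx.1)), zero_mul, zero_mul]
  have h1 := pos_le h.hE hst (a := 0) (fun x hx => (h0 x hx).le)
  have h2 := pos_ge h.hE hst (a := 0) (fun x hx => (h0 x hx).ge)
  linarith

/-- above the critical energy the particle always moves to the right -/
lemma Orb.v_pos (h : Orb Gt k Y V) (hg : Good Gt k (Y 0) (V 0))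
    (he : -C.m < V (Gt.d k) ^ 2 / 2 - C.H (Y (Gt.d k))) {t : ℝ} (ht : 0 ≤ t) : 0 < V t := by
  rcases le_total t (Gt.d k) with h1 | h1
  · exact lt_of_lt_of_le C.v₁_pos (h.v_gate hg ht h1).1
  · by_contra hc
    push Not at hc
    have h2 : 0 < V (Gt.d k) := lt_of_lt_of_le C.v₁_pos (h.v_gate hg (Gt.d_pos k).le le_rfl).1
    have hcont : ContinuousOn V (Icc (Gt.d k) t) :=
      fun x _ => (h.hV x).continuousAt.continuousWithinAt
    obtain ⟨x, hx, hx0⟩ := intermediate_value_Icc' h1 hcont ⟨hc, h2.le⟩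
    have h3 := h.cons le_rfl hx.1
    rw [hx0] at h3
    have h4 := C.hm (Y x)
    nlinarith

lemma Orb.v_ge_sqrt (h : Orb Gt k Y V) (hg : Good Gt k (Y 0) (V 0)) {e : ℝ} (he0 : 0 < e)
    (he : -C.m + e ≤ V (Gt.d k) ^ 2 / 2 - C.H (Y (Gt.d k))) {t : ℝ} (ht : Gt.d k ≤ t) :
    Real.sqrt (2 * e) ≤ V t := by
  have h1 := h.v_pos hg (by linarith) ((Gt.d_pos k).le.trans ht)
  have h2 := h.cons le_rfl ht
  have h3 := C.hm (Y t)
  refine Real.sqrt_le_iff.2 ⟨h1.le, ?_⟩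
  nlinarith

/-- at the critical energy the particle does not pass the top -/
lemma Orb.stuck (h : Orb Gt k Y V) (he : V (Gt.d k) ^ 2 / 2 - C.H (Y (Gt.d k)) = -C.m)
    (h0 : Y (Gt.d k) < C.ys + 1) {t : ℝ} (ht : Gt.d k ≤ t) : Y t < C.ys + 1 := by
  by_contra hc
  push Not at hc
  have hcont : ContinuousOn Y (Icc (Gt.d k) t) :=
    fun x _ => (h.hY x).continuousAt.continuousWithinAt
  obtain ⟨x, hx, hx0⟩ := intermediate_value_Icc ht hcont ⟨h0.le, hc⟩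
  have h3 := h.cons le_rfl hx.1
  rw [hx0, he, C.H_ys1] at h3
  have hv : V x = 0 := by
    have : V x ^ 2 = 0 := by linarith
    exact pow_eq_zero_iff (by norm_num) |>.1 this
  -- the reversed orbit
  have hrev : ∀ s ∈ Icc (0:ℝ) (x - Gt.d k), HasDerivAt (fun s => (Y (x - s), V (x - s)))
      ((fun (_ : ℝ) (z : ℝ × ℝ) => (-z.2, -C.H' z.1)) s (Y (x - s), V (x - s))) s := by
    intro s hs
    have h1 : HasDerivAt (fun s : ℝ => x - s) (-1) s := by
      simpa using (hasDerivAt_id s).const_sub x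
    have h4 := (h.hY (x - s)).comp s h1
    have h5 := (h.hV (x - s)).comp s h1
    refine (h4.prodMk h5).congr_deriv ?_
    have h6 : rho ((x - s) / Gt.d k) = 0 :=
      rho_of_one_le ((one_le_div (Gt.d_pos k)).2 (by linarith [hs.2]))
    simp [h6]
  have hlip : ∀ s : ℝ, LipschitzWith (max 1 C.K) ((fun (_ : ℝ) (z : ℝ × ℝ) => (-z.2, -C.H' z.1)) s) := by
    intro s
    have h1 : LipschitzWith 1 (fun z : ℝ × ℝ => -z.2) := LipschitzWith.prod_snd.neg
    have h2 : LipschitzWith C.K (fun z : ℝ × ℝ => -C.H' z.1) := by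
      have h3 := (C.hK.comp (LipschitzWith.prod_fst (α := ℝ) (β := ℝ))).neg
      rw [mul_one] at h3
      exact h3
    exact h1.prodMk h2
  have heq : EqOn (fun s => (Y (x - s), V (x - s))) (fun _ => (C.ys + 1, (0:ℝ)))
      (Icc (0:ℝ) (x - Gt.d k)) := by
    refine ODE_solution_unique (v := fun (_ : ℝ) (z : ℝ × ℝ) => (-z.2, -C.H' z.1))
      (K := max 1 C.K) hlip ?_ ?_ ?_ ?_ ?_
    · exact fun s hs => (hrev s hs).continuousAt.continuousWithinAt
    · exact fun s hs => (hrev s (Ico_subset_Icc_self hs)).hasDerivWithinAt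
    · exact continuousOn_const
    · intro s _
      simp only [neg_zero, C.H'_ys1]
      exact hasDerivWithinAt_const _ _ _
    · simp [hx0, hv]
  have h7 := heq (x := x - Gt.d k) ⟨by linarith [hx.1], le_rfl⟩
  simp only [sub_sub_cancel, Prod.mk.injEq] at h7
  linarith [h7.1]

end orbit

end Pool.Agent.Helper69.EI
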