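import Pool.Agent.Helper69.EI.ClockA

set_option autoImplicit false

/-! The clock: avoidance of the gates, and nested intervals of initial conditions. -/

namespace Pool.Agent.Helper69.EI

open Set Filter Topology
open scoped NNReal

/-- an orbit which passes from the gate `k` to the gate `k'` in time `W` -/
structure Pass {C : Clock} (Gt : Gates C) (k k' W : ℕ) (Y V : ℝ → ℝ) : Prop where
  orb : Orb Gt k Y V
  good : Good Gt k (Y 0) (V 0)
  he : -C.m < V (Gt.d k) ^ 2 / 2 - C.H (Y (Gt.d k))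
  he' : V (Gt.d k) ^ 2 / 2 - C.H (Y (Gt.d k)) ≤ -C.m + 1
  hW : 2 ≤ W
  hYW : |Y W - 1 - C.c k'| ≤ C.w k' / 8

namespace Pass

variable {C : Clock} {Gt : Gates C} {k k' W : ℕ} {Y V : ℝ → ℝ}

lemma v_pos (p : Pass Gt k k' W Y V) {t : ℝ} (ht : 0 ≤ t) : 0 < V t := p.orb.v_pos p.good p.he ht

lemma v_le (p : Pass Gt k k' W Y V) {t : ℝ} (ht : 0 ≤ t) : V t ≤ C.v₂ + C.v₁ := by
  rcases le_total t (Gt.d k) with h1 | h1
  · exact (p.orb.v_gate p.good ht h1).2
  · have h2 := p.orb.cons le_rfl h1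
    have h3 := p.he'
    have h4 := C.hO (Y t)
    have h5 : V t ^ 2 ≤ C.v₂ ^ 2 := by rw [C.hv₂]; nlinarith
    have h6 := (pow_le_pow_iff_left₀ (p.v_pos ht).le C.v₂_pos.le (by norm_num)).1 h5
    linarith [C.v₁_pos]

lemma v_ge (p : Pass Gt k k' W Y V) {t : ℝ} (ht : 0 ≤ t)
    (h : C.m + 2 * C.v₁ ^ 2 ≤ C.H (Y t)) : C.v₁ ≤ V t := by
  rcases le_total t (Gt.d k) with h1 | h1
  · exact (p.orb.v_gate p.good ht h1).1
  · have h2 := p.orb.cons le_rfl h1
    have h3 := p.he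
    have h5 : C.v₁ ^ 2 ≤ V t ^ 2 := by nlinarith [sq_nonneg C.v₁]
    exact (pow_le_pow_iff_left₀ C.v₁_pos.le (p.v_pos ht).le (by norm_num)).1 h5

lemma mono (p : Pass Gt k k' W Y V) {s t : ℝ} (hs : 0 ≤ s) (hst : s ≤ t) : Y s ≤ Y t := by
  have := pos_ge p.orb.hY hst (a := 0) (fun x hx => (p.v_pos (hs.trans hx.1)).le)
  linarith

lemma upper (p : Pass Gt k k' W Y V) {t : ℝ} (ht : 0 ≤ t) :
    Y t ≤ Y 0 + (C.v₂ + C.v₁) * t := by
  have := pos_le p.orb.hY ht (a := C.v₂ + C.v₁) (fun x hx => p.v_le hx.1)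
  linarith

lemma cen (C : Clock) (l : ℕ) : C.yg < C.c l - C.w l ∧ C.c l + C.w l < C.yg + C.δ := by
  have h1 := C.r_pos l
  have h2 := C.r_le l
  rw [Clock.c, Clock.w]
  constructor <;> linarith

/-- the other gates are not met in the first time window -/
lemma avoid_zero (p : Pass Gt k k' W Y V) {l : ℕ} (hl : l ≠ k) {t : ℝ} (ht : 0 ≤ t)
    (ht' : t ≤ Gt.d l) (J : ℤ) : Y t ∉ Icc (C.c l + J - C.w l) (C.c l + J + C.w l) := by
  have h1 := p.upper ht
  have h2 := p.mono le_rfl ht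
  have h3 : (C.v₂ + C.v₁) * t ≤ C.w l / 64 := by
    calc (C.v₂ + C.v₁) * t ≤ (C.v₂ + C.v₁) * Gt.d l :=
          mul_le_mul_of_nonneg_left ht' (by linarith [C.v₁_pos, C.v₂_pos])
      _ = Gt.d l * (C.v₂ + C.v₁) := mul_comm _ _
      _ ≤ _ := Gt.d_w l
  have h4 := abs_le.1 p.good.h1
  have h5 := p.good.mem
  have h6 := cen C l
  have h7 := C.w_pos l
  have h8 := C.δ_pos
  have h9 := C.hL
  have h10 := C.hR
  have hk := C.r_pos k
  have hk2 := C.r_le k
  have hl1 := C.r_pos l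
  have hl2 := C.r_le l
  have hup : Y t < C.yg + C.δ := by
    simp only [Clock.c, Clock.w] at h4 h3
    linarith [h4.2]
  rintro ⟨h11, h12⟩
  rcases lt_trichotomy J 0 with hJ | hJ | hJ
  · have : (J : ℝ) ≤ -1 := by
      have : J ≤ -1 := by omega
      exact_mod_cast this
    linarith [h5.1, h6.2]
  · rw [hJ, Int.cast_zero] at h11 h12
    simp only [Clock.c, Clock.w] at h4 h3 h11 h12
    rcases lt_or_gt_of_ne hl with h | h
    · have := C.r_lt h
      linarith [h4.2]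
    · have := C.r_lt h
      linarith [h4.1]
  · have : (1 : ℝ) ≤ J := by
      have : 1 ≤ J := by omega
      exact_mod_cast this
    linarith [h6.1]

/-- in the later time windows the particle is far from the gates -/
lemma avoid_pos (p : Pass Gt k k' W Y V) {n : ℕ} (hn : 1 ≤ n) (hnW : n < W) {t : ℝ}
    (ht : (n : ℝ) ≤ t) (ht' : t ≤ n + 1 / 8) : C.yg + C.δ < Y t ∧ Y t < C.yg - C.δ + 1 := by
  have hn1 : (1 : ℝ) ≤ n := by exact_mod_cast hn
  have hW1 : (n : ℝ) + 1 ≤ W := by exact_mod_cast hnW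
  have h1 : (1 : ℝ) ≤ t := hn1.trans ht
  have h5 := p.good.mem
  constructor
  · by_contra hc
    push Not at hc
    have h2 := pos_ge p.orb.hY (s := 0) (t := t) (by linarith) (a := C.v₁) (fun x hx => by
      refine p.v_ge hx.1 (C.hI _ ?_ ?_)
      · exact h5.1.trans (p.mono le_rfl hx.1)
      · exact (p.mono hx.1 hx.2).trans hc)
    have h3 := C.hδ
    nlinarith [C.v₁_pos]
  · by_contra hc
    push Not at hc
    have h6 := abs_le.1 p.hYW
    have h7 := cen C k'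
    have h8 := C.w_pos k'
    have h2 := pos_ge p.orb.hY (s := t) (t := W) (by linarith) (a := C.v₁) (fun x hx => by
      refine p.v_ge (by linarith [hx.1]) ?_
      have h9 : C.H (Y x) = C.H (Y x - 1) := by
        rw [← C.per (Y x - 1), sub_add_cancel]
      rw [h9]
      refine C.hI _ ?_ ?_
      · linarith [p.mono (by linarith) hx.1]
      · have := p.mono (s := x) (t := W) (by linarith [hx.1]) hx.2
        linarith [h6.2])
    have h3 := C.hδ
    have h4 := C.v₁_pos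
    have h10 : C.v₁ * (7 / 8) ≤ C.v₁ * (W - t) := mul_le_mul_of_nonneg_left (by linarith) h4.le
    -- use the stronger speed bound
    have h11 := pos_ge p.orb.hY (s := t) (t := W) (by linarith) (a := 2 * C.v₁) (fun x hx => by
      have h9 : C.H (Y x) = C.H (Y x - 1) := by
        rw [← C.per (Y x - 1), sub_add_cancel]
      have h12 : C.m + 2 * C.v₁ ^ 2 ≤ C.H (Y x) := by
        rw [h9]
        refine C.hI _ ?_ ?_
        · linarith [p.mono (by linarith) hx.1]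
        · have := p.mono (s := x) (t := W) (by linarith [hx.1]) hx.2
          linarith [h6.2]
      have h13 : 0 ≤ x := by linarith [hx.1]
      have h14 : Gt.d k ≤ x := (Gt.d_le k).trans (by linarith [hx.1])
      have h15 := p.orb.cons le_rfl h14
      have h16 := p.he
      have h17 : (2 * C.v₁) ^ 2 ≤ V x ^ 2 := by nlinarith
      exact (pow_le_pow_iff_left₀ (by linarith) (p.v_pos h13).le (by norm_num)).1 h17)
    have h12 : 2 * C.v₁ * (7 / 8) ≤ 2 * C.v₁ * (W - t) :=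
      mul_le_mul_of_nonneg_left (by linarith) (by linarith)
    linarith [h6.2]

lemma avoid (p : Pass Gt k k' W Y V) {n l : ℕ} (hnW : n < W) (hnl : ¬ (n = 0 ∧ l = k)) {t : ℝ}
    (ht : (n : ℝ) ≤ t) (ht' : t ≤ n + Gt.d l) (J : ℤ) :
    Y t ∉ Icc (C.c l + J - C.w l) (C.c l + J + C.w l) := by
  rcases Nat.eq_zero_or_pos n with h | h
  · subst h
    rw [Nat.cast_zero] at ht ht'
    exact p.avoid_zero (fun h => hnl ⟨rfl, h⟩) ht (by linarith) J
  · have h1 := p.avoid_pos h hnW ht (ht'.trans (by linarith [Gt.d_le l]))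
    have h2 := cen C l
    rintro ⟨h3, h4⟩
    rcases le_or_gt J 0 with hJ | hJ
    · have : (J : ℝ) ≤ 0 := by exact_mod_cast hJ
      linarith [h1.1, h2.2]
    · have : (1 : ℝ) ≤ J := by
        have : 1 ≤ J := by omega
        exact_mod_cast this
      linarith [h1.2, h2.1, C.δ_pos]

end Pass

/-- the energy interval -/
noncomputable def Gates.nu1 {C : Clock} (Gt : Gates C) (k : ℕ) : ℝ := min (Gt.ν k) 1

lemma Gates.nu1_pos {C : Clock} (Gt : Gates C) (k : ℕ) : 0 < Gt.nu1 k :=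
  lt_min (Gt.ν_pos k) one_pos

/-- a curve of initial conditions which crosses the gate `k` -/
structure Stage {C : Clock} (Gt : Gates C) (k : ℕ) (z : ℝ → ℝ × ℝ) (α β : ℝ) : Prop where
  lt : α < β
  cont : ContinuousOn z (Icc α β)
  pos : ∀ s ∈ Icc α β, 0 < (z s).2
  e1 : ∀ s ∈ Icc α β, -C.m ≤ (z s).2 ^ 2 / 2 - C.H (z s).1
  e2 : ∀ s ∈ Icc α β, (z s).2 ^ 2 / 2 - C.H (z s).1 ≤ -C.m + Gt.nu1 k
  y : ∀ s ∈ Icc α β, |(z s).1 - C.c k| ≤ C.w k / 8
  ya : (z α).1 = C.c k - C.w k / 8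
  yb : (z β).1 = C.c k + C.w k / 8

lemma Stage.good {C : Clock} {Gt : Gates C} {k : ℕ} {z : ℝ → ℝ × ℝ} {α β : ℝ}
    (h : Stage Gt k z α β) {s : ℝ} (hs : s ∈ Icc α β) : Good Gt k (z s).1 (z s).2 := by
  refine ⟨h.y s hs, h.pos s hs, h.e1 s hs, (h.e2 s hs).trans ?_⟩
  have : Gt.nu1 k ≤ 1 := min_le_right _ _
  linarith

/-- flows of the clock -/
structure ClockFlow {C : Clock} (Gt : Gates C) (φ : ℕ → ℝ → ℝ × ℝ → ℝ × ℝ) : Prop where
  zero : ∀ k z, φ k 0 z = z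
  orb : ∀ k z, Orb Gt k (fun t => (φ k t z).1) (fun t => (φ k t z).2)
  cont : ∀ k t, Continuous (φ k t)

theorem exists_clockFlow {C : Clock} (Gt : Gates C) : ∃ φ, ClockFlow Gt φ := by
  have : ∀ k : ℕ, ∃ φ : ℝ → ℝ × ℝ → ℝ × ℝ, (∀ z, φ 0 z = z) ∧
      (∀ z t, HasDerivAt (fun s => φ s z)
        ((fun (t : ℝ) (z : ℝ × ℝ) => (z.2, C.H' z.1 + rho (t / Gt.d k) * Gt.Ψ k z.1)) t (φ t z)) t) ∧
      ∀ t, Continuous (φ t) := by
    intro k
    have hR : ∀ t, |rho t| ≤ R0 := fun t => by rw [abs_of_nonneg (rho_nonneg t)]; exact rho_le t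
    refine exists_flow
      (fun (t : ℝ) (z : ℝ × ℝ) => (z.2, C.H' z.1 + rho (t / Gt.d k) * Gt.Ψ k z.1))
      (max 1 (C.K + ⟨R0, R0_pos.le⟩ * Gt.K' k)) ?_ ?_
    · intro t
      have h1 : LipschitzWith 1 (fun z : ℝ × ℝ => z.2) := LipschitzWith.prod_snd
      have h2 : LipschitzWith (C.K + ⟨R0, R0_pos.le⟩ * Gt.K' k)
          (fun z : ℝ × ℝ => C.H' z.1 + rho (t / Gt.d k) * Gt.Ψ k z.1) := by
        refine LipschitzWith.of_dist_le_mul fun z z' => ?_
        have e1 := C.hK.dist_le_mul z.1 z'.1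
        have e2 := (Gt.hK' k).dist_le_mul z.1 z'.1
        have e3 : dist z.1 z'.1 ≤ dist z z' := le_max_left _ _
        have e4 : (0:ℝ) ≤ C.K := C.K.2
        have e5 : (0:ℝ) ≤ Gt.K' k := (Gt.K' k).2
        rw [Real.dist_eq] at e1 e2 ⊢
        have e6 : C.H' z.1 + rho (t / Gt.d k) * Gt.Ψ k z.1 -
            (C.H' z'.1 + rho (t / Gt.d k) * Gt.Ψ k z'.1) =
            (C.H' z.1 - C.H' z'.1) + rho (t / Gt.d k) * (Gt.Ψ k z.1 - Gt.Ψ k z'.1) := by ring
        rw [e6]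
        refine (abs_add_le _ _).trans ?_
        rw [abs_mul]
        have e7 : |rho (t / Gt.d k)| * |Gt.Ψ k z.1 - Gt.Ψ k z'.1| ≤
            R0 * (Gt.K' k * dist z z') :=
          mul_le_mul (hR _) (e2.trans (mul_le_mul_of_nonneg_left e3 e5)) (abs_nonneg _) R0_pos.le
        have e8 : |C.H' z.1 - C.H' z'.1| ≤ C.K * dist z z' :=
          e1.trans (mul_le_mul_of_nonneg_left e3 e4)
        have e9 : ((C.K + ⟨R0, R0_pos.le⟩ * Gt.K' k : ℝ≥0) : ℝ) = C.K + R0 * Gt.K' k := rfl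
        rw [e9]
        linarith
      exact h1.prodMk h2
    · have hH' : Continuous C.H' := C.hK.continuous
      have hΨ' : Continuous (Gt.Ψ k) := (Gt.hK' k).continuous
      exact (continuous_snd.comp continuous_snd).prodMk
        ((hH'.comp (continuous_fst.comp continuous_snd)).add
          ((continuous_rho.comp (continuous_fst.div_const _)).mul
            (hΨ'.comp (continuous_fst.comp continuous_snd))))
  choose φ h0 h1 h2 using this
  exact ⟨φ, h0, fun k z => ⟨fun t => (h1 k z t).fst, fun t => (h1 k z t).snd⟩, h2⟩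

/-- the condition for the time between two gates -/
def Gates.Wait {C : Clock} (Gt : Gates C) (k W : ℕ) : Prop :=
  2 ≤ W ∧ 2 ≤ Real.sqrt (2 * Gt.nu1 k) * (W - 1)

lemma Gates.exists_wait {C : Clock} (Gt : Gates C) (k : ℕ) : ∃ N : ℕ, ∀ W, N ≤ W → Gt.Wait k W := by
  have h1 : 0 < Real.sqrt (2 * Gt.nu1 k) := Real.sqrt_pos.2 (by linarith [Gt.nu1_pos k])
  obtain ⟨N, hN⟩ := exists_nat_ge (2 / Real.sqrt (2 * Gt.nu1 k) + 1)
  refine ⟨max N 2, fun W hW => ⟨(le_max_right _ _).trans hW, ?_⟩⟩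
  have h2 : (N : ℝ) ≤ W := by exact_mod_cast (le_max_left _ _).trans hW
  have h3 : 2 / Real.sqrt (2 * Gt.nu1 k) ≤ W - 1 := by linarith
  rw [div_le_iff₀ h1] at h3
  linarith

theorem Stage.step {C : Clock} {Gt : Gates C} {φ : ℕ → ℝ → ℝ × ℝ → ℝ × ℝ} (hφ : ClockFlow Gt φ)
    {k : ℕ} {z : ℝ → ℝ × ℝ} {α β : ℝ} (h : Stage Gt k z α β) (k' W : ℕ) (hk : Gt.Wait k W)
    (hk' : Gt.Wait k' W) :
    ∃ α' β', α ≤ α' ∧ β' ≤ β ∧ Stage Gt k' (fun s => φ k W (z s) - (1, 0)) α' β' ∧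
      ∀ s ∈ Icc α' β', Pass Gt k k' W (fun t => (φ k t (z s)).1) (fun t => (φ k t (z s)).2) := by
  have horb : ∀ s, Orb Gt k (fun t => (φ k t (z s)).1) (fun t => (φ k t (z s)).2) :=
    fun s => hφ.orb k (z s)
  have hgood : ∀ s ∈ Icc α β, Good Gt k (φ k 0 (z s)).1 (φ k 0 (z s)).2 := by
    intro s hs
    rw [hφ.zero]
    exact h.good hs
  have hcφ : ∀ t, ContinuousOn (fun s => φ k t (z s)) (Icc α β) :=
    fun t => (hφ.cont k t).comp_continuousOn h.cont
  have hH : Continuous C.H := continuous_iff_continuousAt.2 fun y => (C.hH y).continuousAt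
  have hW2 : (2 : ℝ) ≤ W := by exact_mod_cast hk.1
  obtain ⟨e, he⟩ : ∃ e : ℝ → ℝ, e = fun s => (φ k (Gt.d k) (z s)).2 ^ 2 / 2 -
      C.H (φ k (Gt.d k) (z s)).1 := ⟨_, rfl⟩
  have hec : ContinuousOn e (Icc α β) := by
    rw [he]
    exact (((hcφ _).snd.pow 2).div_const 2).sub (hH.comp_continuousOn (hcφ _).fst)
  have hαm : α ∈ Icc α β := ⟨le_rfl, h.lt.le⟩
  have hβm : β ∈ Icc α β := ⟨h.lt.le, le_rfl⟩
  have heα : e α ≤ -C.m := by
    have h1 := (horb α).loss (hgood α hαm) (by simp only [hφ.zero]; exact h.ya)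
    simp only [hφ.zero] at h1
    have h2 := h.e2 α hαm
    have h3 : Gt.nu1 k ≤ Gt.ν k := min_le_left _ _
    rw [he]
    linarith
  obtain ⟨ν', hν'⟩ : ∃ ν', ν' = min (Gt.nu1 k) (Gt.nu1 k') := ⟨_, rfl⟩
  have hν'0 : 0 < ν' := by rw [hν']; exact lt_min (Gt.nu1_pos k) (Gt.nu1_pos k')
  have hν'1 : ν' ≤ Gt.nu1 k := by rw [hν']; exact min_le_left _ _
  have hν'2 : ν' ≤ Gt.nu1 k' := by rw [hν']; exact min_le_right _ _
  have hk1 : Gt.nu1 k ≤ 1 := min_le_right _ _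
  have heβ : -C.m + ν' ≤ e β := by
    have h1 := (horb β).gain (hgood β hβm) (by simp only [hφ.zero]; exact h.yb)
    simp only [hφ.zero] at h1
    have h2 := h.e1 β hβm
    have h3 : Gt.nu1 k ≤ Gt.ν k := min_le_left _ _
    rw [he]
    linarith
  obtain ⟨α₁, β₁, a1, a2, a3, a4, a5, a6⟩ := exists_subinterval h.lt.le hec heα
    (by linarith : -C.m < -C.m + ν') heβ
  have hsub1 : Icc α₁ β₁ ⊆ Icc α β := Icc_subset_Icc a1 a3
  have hdW : Gt.d k ≤ W := (Gt.d_le k).trans (by linarith)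
  have hI' : ∀ s ∈ Icc α β, C.yg - C.δ ≤ (φ k (Gt.d k) (z s)).1 ∧
      (φ k (Gt.d k) (z s)).1 ≤ C.yg + C.δ := by
    intro s hs
    have h1 := abs_le.1 ((horb s).in_gate (hgood s hs) (Gt.d_pos k).le le_rfl)
    have h2 := Pass.cen C k
    have h3 := C.w_pos k
    have h4 := C.δ_pos
    constructor <;> linarith [h1.1, h1.2]
  have hstuck : ∀ s ∈ Icc α β, e s = -C.m → (φ k W (z s)).1 < C.ys + 1 := by
    intro s hs hes
    rw [he] at hes
    exact (horb s).stuck hes (by linarith [(hI' s hs).2, C.hR]) hdW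
  have hk'c := Pass.cen C k'
  have hk'w := C.w_pos k'
  have hsq : 2 ≤ Real.sqrt (2 * ν') * (W - 1) := by
    rw [hν']
    rcases min_choice (Gt.nu1 k) (Gt.nu1 k') with h1 | h1
    · rw [h1]; exact hk.2
    · rw [h1]; exact hk'.2
  have hfβ : C.c k' + 1 + C.w k' / 8 ≤ (φ k W (z β₁)).1 := by
    have hm := hsub1 ⟨a2.le, le_rfl⟩
    have h1 := pos_ge (horb β₁).hY hdW (a := Real.sqrt (2 * ν')) (fun x hx => by
      refine (horb β₁).v_ge_sqrt (hgood β₁ hm) hν'0 ?_ hx.1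
      rw [he] at a5
      exact a5.ge)
    have h2 : Real.sqrt (2 * ν') * (W - 1) ≤ Real.sqrt (2 * ν') * (W - Gt.d k) :=
      mul_le_mul_of_nonneg_left (by linarith [Gt.d_le k]) (Real.sqrt_nonneg _)
    have h3 := (hI' β₁ hm).1
    linarith [C.hL, C.hR, hk'c.2]
  have hfα : (φ k W (z α₁)).1 ≤ C.c k' + 1 - C.w k' / 8 := by
    have h1 := hstuck α₁ (hsub1 ⟨le_rfl, a2.le⟩) a4
    linarith [C.hL, C.δ_pos, hk'c.1]
  obtain ⟨α₂, β₂, b1, b2, b3, b4, b5, b6⟩ := exists_subinterval (f := fun s => (φ k W (z s)).1)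
    a2.le ((hcφ W).fst.mono hsub1) hfα
    (by linarith : C.c k' + 1 - C.w k' / 8 < C.c k' + 1 + C.w k' / 8) hfβ
  have hsub2 : Icc α₂ β₂ ⊆ Icc α₁ β₁ := Icc_subset_Icc b1 b3
  have hsub : Icc α₂ β₂ ⊆ Icc α β := hsub2.trans hsub1
  have hpass : ∀ s ∈ Icc α₂ β₂,
      Pass Gt k k' W (fun t => (φ k t (z s)).1) (fun t => (φ k t (z s)).2) := by
    intro s hs
    have hes := a6 s (hsub2 hs)
    have hne : e s ≠ -C.m := by
      intro h1
      have h2 := hstuck s (hsub hs) h1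
      have h3 := (b6 s hs).1
      linarith [C.hL, C.δ_pos, hk'c.1]
    have hlt : -C.m < e s := lt_of_le_of_ne hes.1 (Ne.symm hne)
    have hle : e s ≤ -C.m + 1 := by linarith [hes.2]
    rw [he] at hlt hle
    refine ⟨horb s, hgood s (hsub hs), hlt, hle, hk.1, ?_⟩
    have h3 := b6 s hs
    rw [abs_le]
    constructor <;> linarith [h3.1, h3.2]
  refine ⟨α₂, β₂, a1.trans b1, b3.trans a3, ?_, hpass⟩
  have hper : ∀ y, C.H (y - 1) = C.H y := fun y => by rw [← C.per (y - 1), sub_add_cancel]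
  have hen : ∀ s ∈ Icc α₂ β₂, (φ k W (z s)).2 ^ 2 / 2 - C.H (φ k W (z s)).1 = e s := by
    intro s hs
    rw [he]
    exact (hpass s hs).orb.cons le_rfl hdW
  refine ⟨b2, ((hcφ W).mono hsub).sub continuousOn_const, ?_, ?_, ?_, ?_, ?_, ?_⟩
  · intro s hs
    simp only [Prod.snd_sub, sub_zero]
    exact (hpass s hs).v_pos (by linarith)
  · intro s hs
    simp only [Prod.snd_sub, sub_zero, Prod.fst_sub, hper]
    rw [hen s hs]
    exact (a6 s (hsub2 hs)).1
  · intro s hs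
    simp only [Prod.snd_sub, sub_zero, Prod.fst_sub, hper]
    rw [hen s hs]
    exact (a6 s (hsub2 hs)).2.trans (by linarith)
  · intro s hs
    exact (hpass s hs).hYW
  · simp only [Prod.fst_sub]
    linarith
  · simp only [Prod.fst_sub]
    linarith

/-- the first stage -/
theorem Stage.init {C : Clock} (Gt : Gates C) (k : ℕ) :
    ∃ z α β, Stage Gt k z α β := by
  have hH : Continuous C.H := continuous_iff_continuousAt.2 fun y => (C.hH y).continuousAt
  refine ⟨fun s => (s, Real.sqrt (2 * (C.H s - C.m))), C.c k - C.w k / 8, C.c k + C.w k / 8, ?_⟩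
  have hw := C.w_pos k
  have hc := Pass.cen C k
  have hsq : ∀ s, Real.sqrt (2 * (C.H s - C.m)) ^ 2 = 2 * (C.H s - C.m) :=
    fun s => Real.sq_sqrt (by linarith [C.hm s])
  refine ⟨by linarith, ?_, ?_, ?_, ?_, ?_, rfl, rfl⟩
  · exact (continuous_id.prodMk
      ((continuous_const.mul (hH.sub continuous_const)).sqrt)).continuousOn
  · intro s hs
    refine Real.sqrt_pos.2 ?_
    have h1 := C.hI s (by linarith [hs.1, C.δ_pos]) (by linarith [hs.2])
    have h2 : 0 < C.v₁ ^ 2 := pow_pos C.v₁_pos 2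
    linarith
  · intro s _
    simp only [hsq]
    linarith
  · intro s _
    simp only [hsq]
    linarith [Gt.nu1_pos k]
  · intro s hs
    simp only
    rw [abs_le]
    constructor <;> linarith [hs.1, hs.2]

/-- **The clock.** For every sequence of gates `k j` and of waiting times `W j` there is an orbit
which passes the gates in this order at the prescribed times. -/
theorem clock {C : Clock} (Gt : Gates C) (k W : ℕ → ℕ) (hW : ∀ j, Gt.Wait (k j) (W j))
    (hW' : ∀ j, Gt.Wait (k (j + 1)) (W j)) :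
    ∃ Y V : ℕ → ℝ → ℝ, (∀ j, Pass Gt (k j) (k (j + 1)) (W j) (Y j) (V j)) ∧
      ∀ j, Y (j + 1) 0 = Y j (W j) - 1 ∧ V (j + 1) 0 = V j (W j) := by
  obtain ⟨φ, hφ⟩ := exists_clockFlow Gt
  obtain ⟨z₀, α₀, β₀, h₀⟩ := Stage.init Gt (k 0)
  let z : ℕ → ℝ → ℝ × ℝ := fun j => Nat.rec z₀ (fun j zj s => φ (k j) (W j) (zj s) - (1, 0)) j
  have hz0 : z 0 = z₀ := rfl
  have hz1 : ∀ j, z (j + 1) = fun s => φ (k j) (W j) (z j s) - (1, 0) := fun j => rfl
  have hstep : ∀ j (p : {p : ℝ × ℝ // Stage Gt (k j) (z j) p.1 p.2}),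
      ∃ q : {q : ℝ × ℝ // Stage Gt (k (j + 1)) (z (j + 1)) q.1 q.2},
        p.1.1 ≤ q.1.1 ∧ q.1.2 ≤ p.1.2 ∧ ∀ s ∈ Icc q.1.1 q.1.2,
          Pass Gt (k j) (k (j + 1)) (W j) (fun t => (φ (k j) t (z j s)).1)
            (fun t => (φ (k j) t (z j s)).2) := by
    intro j p
    obtain ⟨α', β', h1, h2, h3, h4⟩ := p.2.step hφ (k (j + 1)) (W j) (hW j) (hW' j)
    exact ⟨⟨(α', β'), h3⟩, h1, h2, h4⟩
  choose q hq1 hq2 hq3 using hstep
  let I : ∀ j, {p : ℝ × ℝ // Stage Gt (k j) (z j) p.1 p.2} :=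
    fun j => Nat.rec ⟨(α₀, β₀), h₀⟩ (fun j p => q j p) j
  have hI1 : ∀ j, I (j + 1) = q j (I j) := fun j => rfl
  have hmono : Monotone fun j => (I j).1.1 :=
    monotone_nat_of_le_succ fun j => by rw [hI1]; exact hq1 j (I j)
  have hanti : Antitone fun j => (I j).1.2 :=
    antitone_nat_of_succ_le fun j => by rw [hI1]; exact hq2 j (I j)
  obtain ⟨s, hs⟩ : ∃ s, ∀ j, s ∈ Icc (I j).1.1 (I j).1.2 := by
    have h1 := hmono.ciSup_mem_iInter_Icc_of_antitone hanti (fun j => (I j).2.lt.le)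
    exact ⟨_, fun j => mem_iInter.1 h1 j⟩
  refine ⟨fun j t => (φ (k j) t (z j s)).1, fun j t => (φ (k j) t (z j s)).2, fun j => ?_,
    fun j => ?_⟩
  · have h1 := hs (j + 1)
    rw [hI1] at h1
    exact hq3 j (I j) s h1
  · simp only [hφ.zero]
    rw [hz1]
    simp

end Pool.Agent.Helper69.EI
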