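import Pool.Agent.Helper69.EI.GlobalOde

set_option autoImplicit false

/-! Flows of Lipschitz vector fields and gluing of solutions. -/

namespace Pool.Agent.Helper69.EI

open Set Filter Topology
open scoped NNReal

section
variable {Z : Type*} [NormedAddCommGroup Z] [NormedSpace ℝ Z]

/-- dependence on the initial data -/
theorem gron {v : ℝ → Z → Z} {K : ℝ≥0} (hv : ∀ t, LipschitzWith K (v t)) {f g : ℝ → Z}
    (hf : ∀ t, HasDerivAt f (v t (f t)) t) (hg : ∀ t, HasDerivAt g (v t (g t)) t) {t : ℝ}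
    (ht : 0 ≤ t) : dist (f t) (g t) ≤ dist (f 0) (g 0) * Real.exp (K * t) := by
  have h := dist_le_of_trajectories_ODE (v := v) (K := K) (f := f) (g := g) (a := 0) (b := t)
    (δ := dist (f 0) (g 0)) hv (fun t _ => (hf t).continuousAt.continuousWithinAt)
    (fun t _ => (hf t).hasDerivWithinAt) (fun t _ => (hg t).continuousAt.continuousWithinAt)
    (fun t _ => (hg t).hasDerivWithinAt) le_rfl t ⟨ht, le_rfl⟩
  simpa using h

theorem gron' {v : ℝ → Z → Z} {K : ℝ≥0} (hv : ∀ t, LipschitzWith K (v t)) {f g : ℝ → Z}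
    (hf : ∀ t, HasDerivAt f (v t (f t)) t) (hg : ∀ t, HasDerivAt g (v t (g t)) t) (t : ℝ) :
    dist (f t) (g t) ≤ dist (f 0) (g 0) * Real.exp (K * |t|) := by
  rcases le_total 0 t with h | h
  · rw [abs_of_nonneg h]; exact gron hv hf hg h
  · rw [abs_of_nonpos h]
    have hr : ∀ {f : ℝ → Z}, (∀ t, HasDerivAt f (v t (f t)) t) →
        ∀ t, HasDerivAt (fun s => f (-s)) ((fun t y => -v (-t) y) t ((fun s => f (-s)) t)) t := by
      intro f hf t
      have h1 := (hf (-t)).scomp t (hasDerivAt_neg t)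
      rw [neg_smul, one_smul] at h1
      exact h1
    have h2 := gron (v := fun t y => -v (-t) y) (K := K) (fun t => (hv (-t)).neg) (hr hf) (hr hg)
      (t := -t) (by linarith)
    simpa using h2

/-- the flow of a Lipschitz vector field -/
theorem exists_flow [CompleteSpace Z] (F : ℝ → Z → Z) (K : ℝ≥0) (hK : ∀ t, LipschitzWith K (F t))
    (hc : Continuous (Function.uncurry F)) :
    ∃ φ : ℝ → Z → Z, (∀ z, φ 0 z = z) ∧ (∀ z t, HasDerivAt (fun s => φ s z) (F t (φ t z)) t) ∧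
      ∀ t, Continuous (φ t) := by
  choose ξ h0 h1 using fun z => global_ode F K hK hc z
  refine ⟨fun t z => ξ z t, h0, h1, fun t => ?_⟩
  rw [continuous_iff_continuousAt]
  intro z₀
  rw [ContinuousAt, tendsto_iff_dist_tendsto_zero]
  have h2 : Tendsto (fun z => dist (ξ z 0) (ξ z₀ 0) * Real.exp (K * |t|)) (𝓝 z₀) (𝓝 0) := by
    have h3 : Tendsto (fun z => dist (ξ z 0) (ξ z₀ 0)) (𝓝 z₀) (𝓝 0) := by
      simp only [h0]
      exact tendsto_iff_dist_tendsto_zero.1 tendsto_id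
    simpa using h3.mul_const (Real.exp (K * |t|))
  exact squeeze_zero (fun _ => dist_nonneg) (fun s => gron' hK (h1 s) (h1 z₀) t) h2

/-- a solution which consists of pieces -/
theorem glue {v : ℝ → Z → Z} {K : ℝ≥0} (hv : ∀ t, LipschitzWith K (v t)) (ξ : ℝ → Z)
    (hξ : ∀ t, HasDerivAt ξ (v t (ξ t)) t) (ζ : ℕ → ℝ → Z) (T : ℕ → ℝ) (hT0 : T 0 = 0)
    (hT : ∀ j, T j ≤ T (j + 1)) (h0 : ξ 0 = ζ 0 0)
    (hζ : ∀ j, ∀ t ∈ Icc (T j) (T (j + 1)), HasDerivAt (ζ j) (v t (ζ j t)) t)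
    (hg : ∀ j, ζ j (T (j + 1)) = ζ (j + 1) (T (j + 1))) (j : ℕ) :
    EqOn ξ (ζ j) (Icc (T j) (T (j + 1))) := by
  have key : ∀ j, ξ (T j) = ζ j (T j) → EqOn ξ (ζ j) (Icc (T j) (T (j + 1))) := by
    intro j hj
    exact ODE_solution_unique (v := v) (K := K) hv
      (fun t _ => (hξ t).continuousAt.continuousWithinAt)
      (fun t _ => (hξ t).hasDerivWithinAt)
      (fun t ht => (hζ j t ht).continuousAt.continuousWithinAt)
      (fun t ht => (hζ j t (Ico_subset_Icc_self ht)).hasDerivWithinAt) hj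
  have h2 : ∀ j, ξ (T j) = ζ j (T j) := by
    intro j
    induction j with
    | zero => rw [hT0]; exact h0
    | succ n ih =>
      rw [key n ih ⟨hT n, le_rfl⟩, hg n]
  exact key j (h2 j)

end

/-- a subinterval on which a function runs from `A` to `B` -/
theorem exists_subinterval {f : ℝ → ℝ} {a b A B : ℝ} (hab : a ≤ b) (hf : ContinuousOn f (Icc a b))
    (hA : f a ≤ A) (hAB : A < B) (hB : B ≤ f b) :
    ∃ a' b', a ≤ a' ∧ a' < b' ∧ b' ≤ b ∧ f a' = A ∧ f b' = B ∧ ∀ s ∈ Icc a' b', f s ∈ Icc A B := by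
  -- the last point with value `≤ A`
  obtain ⟨a', ha', hmax⟩ : ∃ a' ∈ {s ∈ Icc a b | f s ≤ A}, ∀ s ∈ {s ∈ Icc a b | f s ≤ A}, s ≤ a' := by
    have hcpt : IsCompact {s ∈ Icc a b | f s ≤ A} := by
      have : IsClosed {s ∈ Icc a b | f s ≤ A} := by
        have := hf.preimage_isClosed_of_isClosed isClosed_Icc (isClosed_Iic (a := A))
        exact this
      exact isCompact_Icc.of_isClosed_subset this (fun s hs => hs.1)
    exact hcpt.exists_isGreatest ⟨a, ⟨le_rfl, hab⟩, hA⟩ |>.imp fun x hx => ⟨hx.1, hx.2⟩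
  have hfa' : f a' = A := by
    by_contra hne
    have hlt : f a' < A := lt_of_le_of_ne ha'.2 hne
    obtain ⟨s, hs, hs2⟩ := intermediate_value_Icc ha'.1.2 (hf.mono (Icc_subset_Icc_left ha'.1.1))
      (show A ∈ Icc (f a') (f b) from ⟨hlt.le, hAB.le.trans hB⟩)
    have h1 := hmax s ⟨⟨ha'.1.1.trans hs.1, hs.2⟩, hs2.le⟩
    have h2 : s = a' := le_antisymm h1 hs.1
    rw [h2] at hs2
    exact hne hs2
  obtain ⟨b', hb', hmin⟩ : ∃ b' ∈ {s ∈ Icc a' b | B ≤ f s}, ∀ s ∈ {s ∈ Icc a' b | B ≤ f s}, b' ≤ s := by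
    have hcpt : IsCompact {s ∈ Icc a' b | B ≤ f s} := by
      have : IsClosed {s ∈ Icc a' b | B ≤ f s} :=
        (hf.mono (Icc_subset_Icc_left ha'.1.1)).preimage_isClosed_of_isClosed isClosed_Icc
          (isClosed_Ici (a := B))
      exact isCompact_Icc.of_isClosed_subset this (fun s hs => hs.1)
    exact hcpt.exists_isLeast ⟨b, ⟨ha'.1.2, le_rfl⟩, hB⟩ |>.imp fun x hx => ⟨hx.1, hx.2⟩
  have hfb' : f b' = B := by
    by_contra hne
    have hlt : B < f b' := lt_of_le_of_ne hb'.2 (Ne.symm hne)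
    obtain ⟨s, hs, hs2⟩ := intermediate_value_Icc hb'.1.1
      (hf.mono (Icc_subset_Icc ha'.1.1 hb'.1.2))
      (show B ∈ Icc (f a') (f b') from ⟨by rw [hfa']; exact hAB.le, hlt.le⟩)
    have h1 := hmin s ⟨⟨hs.1, hs.2.trans hb'.1.2⟩, hs2.ge⟩
    have h2 : s = b' := le_antisymm hs.2 h1
    rw [h2] at hs2
    exact hne hs2
  have hlt : a' < b' := by
    refine lt_of_le_of_ne hb'.1.1 ?_
    intro h
    rw [h, hfb'] at hfa'
    linarith
  refine ⟨a', b', ha'.1.1, hlt, hb'.1.2, hfa', hfb', fun s hs => ⟨?_, ?_⟩⟩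
  · by_contra hc
    push Not at hc
    have h1 := hmax s ⟨⟨ha'.1.1.trans hs.1, hs.2.trans hb'.1.2⟩, hc.le⟩
    have h2 : s = a' := le_antisymm h1 hs.1
    rw [h2, hfa'] at hc
    exact lt_irrefl _ hc
  · by_contra hc
    push Not at hc
    have h1 := hmin s ⟨⟨hs.1, hs.2.trans hb'.1.2⟩, hc.le⟩
    have h2 : s = b' := le_antisymm hs.2 h1
    rw [h2, hfb'] at hc
    exact lt_irrefl _ hc

end Pool.Agent.Helper69.EI
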