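import Mathlib

set_option autoImplicit false

/-! Periodic functions have bounded derivatives; sums of small smooth periodic functions. -/

namespace Pool.Agent.Helper69.EI

open Set Filter Topology
open scoped ContDiff NNReal

section
variable {V : Type*} [NormedAddCommGroup V] [NormedSpace ℝ V] {n : ℕ}

/-- `f` is periodic with respect to the lattice spanned by `β`, and `1`-periodic in time -/
def Per (β : Module.Basis (Fin n) ℝ V) {F : Type*} (f : V × ℝ → F) : Prop :=
  (∀ i p, f (p.1 + β i, p.2) = f p) ∧ ∀ p, f (p.1, p.2 + 1) = f p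

variable {β : Module.Basis (Fin n) ℝ V} {F : Type*}

lemma Per.p1 {f : V × ℝ → F} (h : Per β f) (i : Fin n) : Function.Periodic f (β i, 0) := by
  intro p
  have := h.1 i p
  rw [← this]
  congr 1
  ext <;> simp

lemma Per.p2 {f : V × ℝ → F} (h : Per β f) : Function.Periodic f (0, 1) := by
  intro p
  have := h.2 p
  rw [← this]
  congr 1
  ext <;> simp

lemma per_of {f : V × ℝ → F} (h1 : ∀ i, Function.Periodic f (β i, 0))
    (h2 : Function.Periodic f (0, 1)) : Per β f := by
  refine ⟨fun i p => ?_, fun p => ?_⟩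
  · rw [← h1 i p]
    congr 1
    ext <;> simp
  · rw [← h2 p]
    congr 1
    ext <;> simp

lemma Per.sum {f : V × ℝ → F} (h : Per β f) (z : Fin n → ℤ) (s : Finset (Fin n)) :
    Function.Periodic f (∑ i ∈ s, z i • ((β i, 0) : V × ℝ)) := by
  classical
  induction s using Finset.induction_on with
  | empty => intro p; simp
  | insert a s ha ih =>
    rw [Finset.sum_insert ha]
    exact ((h.p1 a).zsmul (z a)).add_period ih

/-- continuous periodic functions are bounded -/
theorem Per.bounded {F : Type*} [SeminormedAddCommGroup F] {f : V × ℝ → F} (h : Per β f)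
    (hf : Continuous f) : ∃ C : ℝ, ∀ p, ‖f p‖ ≤ C := by
  classical
  obtain ⟨T, hT⟩ : ∃ T : (Fin n → ℝ) × ℝ → V × ℝ, T = fun c => (∑ i, c.1 i • β i, c.2) := ⟨_, rfl⟩
  have hTc : Continuous T := by
    rw [hT]
    refine Continuous.prodMk ?_ continuous_snd
    refine continuous_finsetSum _ fun i _ => ?_
    exact ((continuous_apply i).comp continuous_fst).smul continuous_const
  have hK : IsCompact ((Set.pi univ fun _ : Fin n => Icc (0 : ℝ) 1) ×ˢ Icc (0 : ℝ) 1) :=
    (isCompact_univ_pi fun _ => isCompact_Icc).prod isCompact_Icc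
  obtain ⟨C, hC⟩ := hK.exists_bound_of_continuousOn (hf.comp hTc).continuousOn
  refine ⟨C, fun p => ?_⟩
  have h1 := (h.sum (fun i => -⌊β.repr p.1 i⌋) Finset.univ).add_period (h.p2.zsmul (-⌊p.2⌋))
  have h2 := h1 p
  have h3 : p + (∑ i, (fun i => -⌊β.repr p.1 i⌋) i • ((β i, 0) : V × ℝ) +
      (-⌊p.2⌋) • ((0, 1) : V × ℝ)) =
      T (fun i => Int.fract (β.repr p.1 i), Int.fract p.2) := by
    rw [hT]
    refine Prod.ext ?_ ?_
    · simp only [Prod.fst_add, Prod.fst_sum, Prod.smul_mk, smul_zero, add_zero]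
      conv_lhs => rw [← β.sum_repr p.1]
      rw [← Finset.sum_add_distrib]
      refine Finset.sum_congr rfl fun i _ => ?_
      rw [← Int.self_sub_floor, sub_smul, neg_smul, sub_eq_add_neg, Int.cast_smul_eq_zsmul]
      congr 3
      simp [β.sum_repr]
    · simp only [Prod.snd_add, Prod.snd_sum, Prod.smul_mk, smul_zero, Finset.sum_const_zero,
        zero_add]
      rw [← Int.self_sub_floor]
      simp [sub_eq_add_neg]
  rw [← h2, h3]
  refine hC _ ⟨fun i _ => ?_, ?_⟩
  · exact ⟨Int.fract_nonneg _, (Int.fract_lt_one _).le⟩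
  · exact ⟨Int.fract_nonneg _, (Int.fract_lt_one _).le⟩

lemma periodic_iteratedFDeriv {W F : Type*} [NormedAddCommGroup W] [NormedSpace ℝ W]
    [NormedAddCommGroup F] [NormedSpace ℝ F] {f : W → F} {c : W} (h : Function.Periodic f c)
    (j : ℕ) : Function.Periodic (iteratedFDeriv ℝ j f) c := by
  intro p
  have h1 := iteratedFDeriv_comp_add_right (𝕜 := ℝ) (f := f) j c p
  have h2 : (fun z => f (z + c)) = f := funext h
  rw [h2] at h1
  exact h1.symm

lemma periodic_fderiv {W F : Type*} [NormedAddCommGroup W] [NormedSpace ℝ W]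
    [NormedAddCommGroup F] [NormedSpace ℝ F] {f : W → F} {c : W} (h : Function.Periodic f c) :
    Function.Periodic (fderiv ℝ f) c := by
  intro p
  have h1 := fderiv_comp_add_right (𝕜 := ℝ) (f := f) (x := p) c
  have h2 : (fun z => f (z + c)) = f := funext h
  rw [h2] at h1
  exact h1.symm

/-- all derivatives of a smooth periodic function are bounded -/
theorem Per.bounded_iteratedFDeriv {F : Type*} [NormedAddCommGroup F] [NormedSpace ℝ F]
    {f : V × ℝ → F} (h : Per β f) (hf : ContDiff ℝ ∞ f) (j : ℕ) :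
    ∃ C : ℝ, ∀ p, ‖iteratedFDeriv ℝ j f p‖ ≤ C := by
  refine Per.bounded (β := β) (per_of (fun i => periodic_iteratedFDeriv (h.p1 i) j)
    (periodic_iteratedFDeriv h.p2 j)) ?_
  exact hf.continuous_iteratedFDeriv (by exact_mod_cast le_top)

theorem Per.fderiv {F : Type*} [NormedAddCommGroup F] [NormedSpace ℝ F]
    {f : V × ℝ → F} (h : Per β f) : Per β (_root_.fderiv ℝ f) :=
  per_of (fun i => periodic_fderiv (h.p1 i)) (periodic_fderiv h.p2)

/-- the derivative of a smooth periodic function is Lipschitz -/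
theorem Per.lipschitz_fderiv {F : Type*} [NormedAddCommGroup F] [NormedSpace ℝ F]
    {f : V × ℝ → F} (h : Per β f) (hf : ContDiff ℝ ∞ f) :
    ∃ K : ℝ≥0, LipschitzWith K (_root_.fderiv ℝ f) := by
  have h1 : ContDiff ℝ ∞ (_root_.fderiv ℝ f) := hf.fderiv_right (by simp)
  obtain ⟨C, hC⟩ := Per.bounded (β := β) h.fderiv.fderiv (h1.continuous_fderiv (by simp))
  have hC0 : 0 ≤ C := (norm_nonneg _).trans (hC 0)
  exact ⟨⟨C, hC0⟩, lipschitzWith_of_nnnorm_fderiv_le (h1.differentiable (by simp)) fun p => hC p⟩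

end

section sums
variable {E F : Type*} [NormedAddCommGroup E] [NormedSpace ℝ E]

/-- the sum of smooth functions with small coefficients -/
theorem smooth_sum (φ : ℕ → E → ℝ) (hφ : ∀ k, ContDiff ℝ ∞ (φ k))
    (C : ℕ → ℕ → ℝ) (hC : ∀ j k x, ‖iteratedFDeriv ℝ j (φ k) x‖ ≤ C j k) (K : ℕ) (η : ℝ)
    (ε : ℕ → ℝ) (hε0 : ∀ k, 0 ≤ ε k)
    (hε : ∀ j k, j ≤ K + k → ε k * C j k ≤ η / 2 / 2 ^ k) :
    ContDiff ℝ ∞ (fun x => ∑' k, ε k * φ k x) ∧
      (∀ j ≤ K, ∀ x, ‖iteratedFDeriv ℝ j (fun x => ∑' k, ε k * φ k x) x‖ ≤ η) ∧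
      (∀ x, fderiv ℝ (fun x => ∑' k, ε k * φ k x) x = ∑' k, ε k • fderiv ℝ (φ k) x) ∧
      ∀ x, Summable fun k => ε k • fderiv ℝ (φ k) x := by
  have hsm : ∀ k, ContDiff ℝ ∞ (fun x => ε k * φ k x) := fun k => contDiff_const.mul (hφ k)
  have hb : ∀ j k x, ‖iteratedFDeriv ℝ j (fun x => ε k * φ k x) x‖ ≤ ε k * C j k := by
    intro j k x
    have h1 : iteratedFDeriv ℝ j (fun x => ε k * φ k x) x = ε k • iteratedFDeriv ℝ j (φ k) x := by
      have := iteratedFDeriv_const_smul_apply (𝕜 := ℝ) (a := ε k) (i := j) (f := φ k) (x := x)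
        ((hφ k).contDiffAt.of_le (by exact_mod_cast le_top))
      simpa [Pi.smul_def] using this
    rw [h1, norm_smul, Real.norm_of_nonneg (hε0 k)]
    exact mul_le_mul_of_nonneg_left (hC j k x) (hε0 k)
  have hC0 : ∀ j k, 0 ≤ ε k * C j k := fun j k => (norm_nonneg _).trans (hb j k 0)
  have hgeo : Summable fun k : ℕ => η / 2 / 2 ^ k := by
    have := (summable_geometric_two).mul_left (η / 2)
    simpa [div_eq_mul_inv] using this
  have hsum : ∀ j : ℕ, Summable fun k => ε k * C j k := by
    intro j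
    refine Summable.of_norm_bounded_eventually_nat hgeo ?_
    filter_upwards [eventually_ge_atTop j] with k hk
    rw [Real.norm_of_nonneg (hC0 j k)]
    exact hε j k (by omega)
  have hsmooth : ContDiff ℝ ∞ (fun x => ∑' k, ε k * φ k x) := by
    refine contDiff_tsum (N := ⊤) (v := fun j k => ε k * C j k) hsm (fun j _ => hsum j) ?_
    intro j k x _
    exact hb j k x
  refine ⟨hsmooth, ?_, ?_, ?_⟩
  · intro j hj x
    have h1 := iteratedFDeriv_tsum_apply (𝕜 := ℝ) (N := ⊤) (f := fun k x => ε k * φ k x)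
      (v := fun j k => ε k * C j k) hsm (fun j _ => hsum j) (fun j k x _ => hb j k x) (k := j)
      le_top x
    rw [h1]
    refine (tsum_of_norm_bounded (a := η) ?_ fun k => (hb j k x).trans (hε j k (by omega)))
    have h2 := (hasSum_geometric_two).mul_left (η / 2)
    rw [div_mul_cancel₀ η (by norm_num)] at h2
    simpa [div_eq_mul_inv] using h2
  · intro x
    have h0 : Summable fun k => (fun k x => ε k * φ k x) k x := by
      refine Summable.of_norm_bounded (hsum 0) fun k => ?_
      have := hb 0 k x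
      rwa [norm_iteratedFDeriv_zero] at this
    have h1 := fderiv_tsum_apply (𝕜 := ℝ) (f := fun k x => ε k * φ k x)
      (u := fun k => ε k * C 1 k) (hsum 1) (fun k => (hsm k).differentiable (by simp))
      (fun k x => by
        have := hb 1 k x
        rwa [norm_iteratedFDeriv_one] at this) h0 x
    rw [h1]
    refine tsum_congr fun k => ?_
    exact fderiv_const_mul ((hφ k).differentiable (by simp) x) (ε k)
  · intro x
    refine Summable.of_norm_bounded (hsum 1) fun k => ?_
    have h1 := hb 1 k x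
    rw [norm_iteratedFDeriv_one] at h1
    rwa [fderiv_const_mul ((hφ k).differentiable (by simp) x) (ε k)] at h1

end sums

end Pool.Agent.Helper69.EI
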