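import Pool.Agent.Helper69.EI.Perz
import Pool.Agent.Helper69.EI.Periodic

set_option autoImplicit false

/-! The potentials of the gates. -/

namespace Pool.Agent.Helper69.EI

open Set Filter Topology
open scoped ContDiff

variable {V : Type*} [NormedAddCommGroup V] [NormedSpace ℝ V]

/-- the potential of a gate -/
noncomputable def gpot (ℓ₀ ℓ : V →L[ℝ] ℝ) (b θ c w d : ℝ) (p : V × ℝ) : ℝ :=
  tp d p.2 * (gf c w (fun s => s ^ 2 / 2) (ℓ₀ p.1) +
    gf c w (fun s => Real.cos (2 * Real.pi * b * s)) (ℓ₀ p.1) *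
      Real.cos (2 * Real.pi * ℓ p.1 + θ) +
    gf c w (fun s => Real.sin (2 * Real.pi * b * s)) (ℓ₀ p.1) *
      Real.sin (2 * Real.pi * ℓ p.1 + θ))

section
variable {ℓ₀ ℓ : V →L[ℝ] ℝ} {b θ c w d : ℝ}

lemma contDiff_gpot (hw : 0 < w) (hw' : w < 1 / 2) (hd : 0 < d) (hd' : d ≤ 1 / 8) :
    ContDiff ℝ ∞ (gpot ℓ₀ ℓ b θ c w d) := by
  have h1 : ContDiff ℝ ∞ (fun p : V × ℝ => ℓ₀ p.1) := ℓ₀.contDiff.comp contDiff_fst
  have h2 : ContDiff ℝ ∞ (fun p : V × ℝ => 2 * Real.pi * ℓ p.1 + θ) :=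
    (contDiff_const.mul (ℓ.contDiff.comp contDiff_fst)).add contDiff_const
  refine ((contDiff_tp hd hd').comp contDiff_snd).mul (((?_ : ContDiff ℝ ∞ _).add
    ((?_ : ContDiff ℝ ∞ _).mul (Real.contDiff_cos.comp h2))).add
    ((?_ : ContDiff ℝ ∞ _).mul (Real.contDiff_sin.comp h2)))
  · exact (contDiff_gf hw hw' ((contDiff_id.pow 2).div_const 2)).comp h1
  · exact (contDiff_gf hw hw' (Real.contDiff_cos.comp (contDiff_const.mul contDiff_id))).comp h1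
  · exact (contDiff_gf hw hw' (Real.contDiff_sin.comp (contDiff_const.mul contDiff_id))).comp h1

lemma gpot_shift {v : V} (h0 : ℓ₀ v = 0 ∨ ℓ₀ v = 1) (h1 : ℓ v = 0 ∨ ℓ v = 1) (p : V × ℝ) :
    gpot ℓ₀ ℓ b θ c w d (p.1 + v, p.2) = gpot ℓ₀ ℓ b θ c w d p := by
  have e1 : ∀ χ, gf c w χ (ℓ₀ (p.1 + v)) = gf c w χ (ℓ₀ p.1) := by
    intro χ
    rw [map_add]
    rcases h0 with h | h
    · rw [h, add_zero]
    · rw [h, gf_per]
  have e2 : Real.cos (2 * Real.pi * ℓ (p.1 + v) + θ) = Real.cos (2 * Real.pi * ℓ p.1 + θ) := by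
    rw [map_add]
    rcases h1 with h | h
    · rw [h, add_zero]
    · rw [h]
      have : 2 * Real.pi * (ℓ p.1 + 1) + θ = 2 * Real.pi * ℓ p.1 + θ + 2 * Real.pi := by ring
      rw [this, Real.cos_add_two_pi]
  have e3 : Real.sin (2 * Real.pi * ℓ (p.1 + v) + θ) = Real.sin (2 * Real.pi * ℓ p.1 + θ) := by
    rw [map_add]
    rcases h1 with h | h
    · rw [h, add_zero]
    · rw [h]
      have : 2 * Real.pi * (ℓ p.1 + 1) + θ = 2 * Real.pi * ℓ p.1 + θ + 2 * Real.pi := by ring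
      rw [this, Real.sin_add_two_pi]
  simp only [gpot, e1, e2, e3]

lemma gpot_time (p : V × ℝ) : gpot ℓ₀ ℓ b θ c w d (p.1, p.2 + 1) = gpot ℓ₀ ℓ b θ c w d p := by
  simp only [gpot, tp_per]

/-- the derivative in the gate -/
lemma gpot_in (hw : 0 < w) (hw' : w < 1 / 2) (J : ℤ) {q : V} (t : ℝ)
    (h : |ℓ₀ q - J - c| < w / 2) :
    HasFDerivAt (fun q => gpot ℓ₀ ℓ b θ c w d (q, t))
      (tp d t • ((ℓ₀ q - J - c) • ℓ₀ -
        (2 * Real.pi * Real.sin (2 * Real.pi * (ℓ q - (ℓ₀ q - J - c) * b) + θ)) •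
          (ℓ - b • ℓ₀))) q := by
  have d0 : HasFDerivAt (fun q : V => ℓ₀ q) ℓ₀ q := ℓ₀.hasFDerivAt
  have d1 : HasFDerivAt (fun q : V => 2 * Real.pi * ℓ q + θ) ((2 * Real.pi) • ℓ) q :=
    (ℓ.hasFDerivAt.const_mul _).add_const _
  -- the profiles
  have g1 : HasDerivAt (gf c w (fun s => s ^ 2 / 2)) (ℓ₀ q - J - c) (ℓ₀ q) := by
    refine gf_in_deriv hw hw' J h ?_
    have := ((hasDerivAt_id (ℓ₀ q - J - c)).pow 2).div_const 2
    refine this.congr_deriv ?_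
    simp
  have g2 : HasDerivAt (gf c w (fun s => Real.cos (2 * Real.pi * b * s)))
      (-Real.sin (2 * Real.pi * b * (ℓ₀ q - J - c)) * (2 * Real.pi * b)) (ℓ₀ q) := by
    refine gf_in_deriv hw hw' J h ?_
    have := ((hasDerivAt_id (ℓ₀ q - J - c)).const_mul (2 * Real.pi * b)).cos
    refine this.congr_deriv ?_
    simp
  have g3 : HasDerivAt (gf c w (fun s => Real.sin (2 * Real.pi * b * s)))
      (Real.cos (2 * Real.pi * b * (ℓ₀ q - J - c)) * (2 * Real.pi * b)) (ℓ₀ q) := by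
    refine gf_in_deriv hw hw' J h ?_
    have := ((hasDerivAt_id (ℓ₀ q - J - c)).const_mul (2 * Real.pi * b)).sin
    refine this.congr_deriv ?_
    simp
  have v2 : gf c w (fun s => Real.cos (2 * Real.pi * b * s)) (ℓ₀ q) =
      Real.cos (2 * Real.pi * b * (ℓ₀ q - J - c)) := (gf_in hw hw' J h).eq_of_nhds
  have v3 : gf c w (fun s => Real.sin (2 * Real.pi * b * s)) (ℓ₀ q) =
      Real.sin (2 * Real.pi * b * (ℓ₀ q - J - c)) := (gf_in hw hw' J h).eq_of_nhds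
  have k1 := g1.comp_hasFDerivAt q d0
  have k2 := (g2.comp_hasFDerivAt q d0).mul d1.cos
  have k3 := (g3.comp_hasFDerivAt q d0).mul d1.sin
  have k4 := ((k1.add k2).add k3).const_mul (tp d t)
  refine k4.congr_fderiv ?_
  ext v
  simp only [Function.comp_apply, v2, v3, _root_.smul_apply, _root_.add_apply, _root_.sub_apply,
    smul_eq_mul]
  have e1 : 2 * Real.pi * (ℓ q - (ℓ₀ q - J - c) * b) + θ =
      (2 * Real.pi * ℓ q + θ) - 2 * Real.pi * b * (ℓ₀ q - J - c) := by ring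
  rw [e1, Real.sin_sub]
  ring

lemma gpot_out (hw : 0 < w) (hw' : w < 1 / 2) {q : V} (t : ℝ)
    (h : ∀ J : ℤ, ℓ₀ q ∉ Icc (c + J - w) (c + J + w)) :
    HasFDerivAt (fun q => gpot ℓ₀ ℓ b θ c w d (q, t)) (0 : V →L[ℝ] ℝ) q := by
  have h1 : ∀ χ, ∀ᶠ x in 𝓝 q, gf c w χ (ℓ₀ x) = 0 := fun χ =>
    (ℓ₀.continuous.tendsto q).eventually (gf_out (χ := χ) hw hw' h)
  have h2 : (fun q => gpot ℓ₀ ℓ b θ c w d (q, t)) =ᶠ[𝓝 q] fun _ => 0 := by
    filter_upwards [h1 (fun s => s ^ 2 / 2), h1 (fun s => Real.cos (2 * Real.pi * b * s)),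
      h1 (fun s => Real.sin (2 * Real.pi * b * s))] with x e1 e2 e3
    simp only [gpot, e1, e2, e3]
    ring
  exact (hasFDerivAt_const (0 : ℝ) q).congr_of_eventuallyEq h2

lemma gpot_zero {q : V} {t : ℝ} (h : tp d t = 0) :
    HasFDerivAt (fun q => gpot ℓ₀ ℓ b θ c w d (q, t)) (0 : V →L[ℝ] ℝ) q := by
  have : (fun q => gpot ℓ₀ ℓ b θ c w d (q, t)) = fun _ => 0 := by
    funext x
    simp only [gpot, h, zero_mul]
  rw [this]
  exact hasFDerivAt_const (0 : ℝ) q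

end

end Pool.Agent.Helper69.EI
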