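import Pool.Agent.Helper69.EI.Setup

set_option autoImplicit false

/-! The gradient of the potential along the orbit. -/

namespace Pool.Agent.Helper69.EI

open Set Filter Topology
open scoped ContDiff NNReal

namespace Sys

variable {V : Type*} [NormedAddCommGroup V] [InnerProductSpace ℝ V] {m : ℕ} (D : Sys V m)

lemma contDiff_gf' (k : ℕ) : ContDiff ℝ ∞ (gf (D.C.c k) (D.C.w k) fun s => s ^ 2 / 2) :=
  contDiff_gf (D.C.w_pos k) (D.w_lt k) ((contDiff_id.pow 2).div_const 2)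

lemma lip (k : ℕ) : ∃ K : ℝ≥0, LipschitzWith K
    (fun y => D.κ * D.ε k * deriv (gf (D.C.c k) (D.C.w k) fun s => s ^ 2 / 2) y) := by
  refine per_lipschitz ?_ ?_
  · exact contDiff_const.mul (contDiff_infty_iff_deriv.1 (D.contDiff_gf' k)).2
  · intro y
    rw [per_deriv (gf_per _ _ _)]

/-- the derivative of the gate potentials along the orbit -/
lemma deriv_gate (j n : ℕ) {k k' W : ℕ} {Y U : ℝ → ℝ} (P : Pass (D.Gt D.lip) k k' W Y U) (x : V)
    (hx : inner ℝ (D.g 0) x = 0) {τ : ℝ} (hτ : τ ∈ Icc (0 : ℝ) W) (l : ℕ) :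
    HasFDerivAt (fun q => D.φ l (q, n + τ))
      (if l = k then rho (τ / D.d k) • ((Y τ - D.C.c k) • D.ℓ 0 -
        (2 * Real.pi * Real.sin (2 * Real.pi * D.ℓ (D.idx k).succ x + D.ph j k)) •
          (D.ℓ (D.idx k).succ - D.bk k • D.ℓ 0)) else 0) (((j : ℝ) + Y τ) • D.b + x) := by
  have hℓ0 : D.ℓ 0 (((j : ℝ) + Y τ) • D.b + x) = j + Y τ := by
    rw [map_add, map_smul, D.ℓ0b, ← D.hg 0 x, hx]
    simp
  have hW2 : 2 ≤ W := P.hW
  have hW2' : (2 : ℝ) ≤ W := by exact_mod_cast hW2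
  obtain ⟨N, hN⟩ : ∃ N : ℕ, N = ⌊τ⌋₊ := ⟨_, rfl⟩
  have hN1 : (N : ℝ) ≤ τ := by rw [hN]; exact Nat.floor_le hτ.1
  have hN2 : τ < N + 1 := by rw [hN]; exact Nat.lt_floor_add_one τ
  have htp : tp (D.d l) (n + τ) = rho ((τ - N) / D.d l) := by
    have h1 := tp_eq (D.d_pos l) (D.d1 l) ((n : ℤ) + N) (t := n + τ) (by push_cast; linarith)
      (by push_cast; linarith)
    rw [h1]
    congr 2
    push_cast
    ring
  -- the vanishing of the profile for the active gate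
  have hrho : D.d k < τ → rho (τ / D.d k) = 0 := fun h =>
    rho_of_one_le ((one_le_div (D.d_pos k)).2 h.le)
  have hzero : tp (D.d l) (n + τ) = 0 → (l = k → rho (τ / D.d k) = 0) →
      HasFDerivAt (fun q => D.φ l (q, n + τ))
      (if l = k then rho (τ / D.d k) • ((Y τ - D.C.c k) • D.ℓ 0 -
        (2 * Real.pi * Real.sin (2 * Real.pi * D.ℓ (D.idx k).succ x + D.ph j k)) •
          (D.ℓ (D.idx k).succ - D.bk k • D.ℓ 0)) else 0) (((j : ℝ) + Y τ) • D.b + x) := by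
    intro h0 h1
    have e : (if l = k then rho (τ / D.d k) • ((Y τ - D.C.c k) • D.ℓ 0 -
        (2 * Real.pi * Real.sin (2 * Real.pi * D.ℓ (D.idx k).succ x + D.ph j k)) •
          (D.ℓ (D.idx k).succ - D.bk k • D.ℓ 0)) else (0 : V →L[ℝ] ℝ)) = 0 := by
      split_ifs with h
      · rw [h1 h, zero_smul]
      · rfl
    rw [e]
    exact gpot_zero h0
  rcases lt_or_ge N W with hNW | hNW
  swap
  · have h1 : τ = W := by
      have h2 : (W : ℝ) ≤ N := by exact_mod_cast hNW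
      linarith [hτ.2]
    have h3 : N = W := by
      rw [hN, h1, Nat.floor_natCast]
    refine hzero ?_ fun _ => hrho ?_
    · rw [htp, h3, h1, sub_self, zero_div, rho_of_nonpos le_rfl]
    · have := D.d1 k
      rw [h1]
      linarith
  rcases lt_or_ge (D.d l) (τ - N) with h1 | h1
  · refine hzero ?_ fun h => hrho ?_
    · rw [htp]
      exact rho_of_one_le ((one_le_div (D.d_pos l)).2 h1.le)
    · rw [← h]
      have : (0 : ℝ) ≤ N := Nat.cast_nonneg N
      linarith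
  by_cases hc : N = 0 ∧ l = k
  · obtain ⟨hN0, hlk⟩ := hc
    subst hlk
    rw [if_pos rfl]
    rw [hN0, Nat.cast_zero, sub_zero] at h1 htp
    have h2 : |Y τ - D.C.c l| ≤ D.C.w l / 4 := P.orb.in_gate P.good hτ.1 h1
    have hw := D.C.w_pos l
    have h3 := gpot_in (ℓ₀ := D.ℓ 0) (ℓ := D.ℓ (D.idx l).succ) (b := D.bk l) (θ := D.θ l)
      (c := D.C.c l) (d := D.d l) hw (D.w_lt l) (j : ℤ) (q := ((j : ℝ) + Y τ) • D.b + x)
      ((n : ℝ) + τ) (by
        rw [hℓ0]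
        push_cast
        have e : (j : ℝ) + Y τ - j - D.C.c l = Y τ - D.C.c l := by ring
        rw [e]
        linarith)
    rw [htp] at h3
    refine h3.congr_fderiv ?_
    have e1 : D.ℓ 0 (((j : ℝ) + Y τ) • D.b + x) - ((j : ℤ) : ℝ) - D.C.c l = Y τ - D.C.c l := by
      rw [hℓ0]
      push_cast
      ring
    rw [e1]
    have e2 : 2 * Real.pi * (D.ℓ (D.idx l).succ (((j : ℝ) + Y τ) • D.b + x) -
        (Y τ - D.C.c l) * D.bk l) + D.θ l =
        2 * Real.pi * D.ℓ (D.idx l).succ x + D.ph j l := by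
      rw [map_add, map_smul, θ, ph, bk, smul_eq_mul]
      ring
    rw [e2]
  · have h2 : l = k → rho (τ / D.d k) = 0 := by
      intro hlk
      refine hrho ?_
      have hN0 : N ≠ 0 := fun h => hc ⟨h, hlk⟩
      have hN1' : (1 : ℝ) ≤ N := by exact_mod_cast Nat.one_le_iff_ne_zero.2 hN0
      linarith [D.d1 k]
    have h3 := P.avoid (n := N) (l := l) hNW hc hN1 (by
      show τ ≤ N + D.d l
      linarith)
    have e : (if l = k then rho (τ / D.d k) • ((Y τ - D.C.c k) • D.ℓ 0 -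
        (2 * Real.pi * Real.sin (2 * Real.pi * D.ℓ (D.idx k).succ x + D.ph j k)) •
          (D.ℓ (D.idx k).succ - D.bk k • D.ℓ 0)) else (0 : V →L[ℝ] ℝ)) = 0 := by
      split_ifs with h
      · rw [h2 h, zero_smul]
      · rfl
    rw [e]
    refine gpot_out (D.C.w_pos l) (D.w_lt l) _ fun J hJ => h3 (J - j) ?_
    rw [hℓ0] at hJ
    push_cast
    exact ⟨by linarith [hJ.1], by linarith [hJ.2]⟩

/-- the potential -/
noncomputable def f (p : V × ℝ) : ℝ :=
  D.S.u p.1 + D.h₁ (D.ℓ 0 p.1) + ∑' k, D.ε k * D.φ k p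

/-- the gradient of the potential along the orbit -/
lemma grad_f (hf : ContDiff ℝ ∞ (fun p => ∑' k, D.ε k * D.φ k p))
    (hφ : ∀ k, ContDiff ℝ ∞ (D.φ k))
    (h1 : ∀ p, fderiv ℝ (fun p => ∑' k, D.ε k * D.φ k p) p = ∑' k, D.ε k • fderiv ℝ (D.φ k) p)
    (h2 : ∀ p, Summable fun k => D.ε k • fderiv ℝ (D.φ k) p)
    (hinv : ∀ q (s : ℝ), D.S.u (q + s • D.g 0) = D.S.u q)
    (j n : ℕ) {k k' W : ℕ} {Y U : ℝ → ℝ} (P : Pass (D.Gt D.lip) k k' W Y U) (x : V)
    (hx : inner ℝ (D.g 0) x = 0) {τ : ℝ} (hτ : τ ∈ Icc (0 : ℝ) W)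
    (hh : ∀ y, D.h₁ (y + 1) = D.h₁ y) (v : V) :
    fderiv ℝ D.f (((j : ℝ) + Y τ) • D.b + x, n + τ) (v, 0) =
      inner ℝ ((D.C.H' (Y τ) + rho (τ / (D.Gt D.lip).d k) * (D.Gt D.lip).Ψ k (Y τ)) • D.b +
        (D.S.gu x - ((D.kk k).ε * rho (τ / (D.kk k).d) * (2 * Real.pi) *
          Real.sin (2 * Real.pi * (D.kk k).lin x + D.ph j k)) • (D.kk k).g)) v := by
  obtain ⟨q, hq⟩ : ∃ q, q = ((j : ℝ) + Y τ) • D.b + x := ⟨_, rfl⟩
  have hℓ0 : D.ℓ 0 q = j + Y τ := by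
    rw [hq, map_add, map_smul, D.ℓ0b, ← D.hg 0 x, hx]
    simp
  rw [← hq]
  -- the parts of the potential
  have a1 : HasFDerivAt (fun p : V × ℝ => D.S.u p.1)
      ((innerSL ℝ (D.S.gu q)).comp (ContinuousLinearMap.fst ℝ V ℝ)) (q, n + τ) :=
    (D.S.hu q).comp (q, (n : ℝ) + τ) hasFDerivAt_fst
  have a2 : HasFDerivAt (fun p : V × ℝ => D.h₁ (D.ℓ 0 p.1))
      (deriv D.h₁ (D.ℓ 0 q) • (D.ℓ 0).comp (ContinuousLinearMap.fst ℝ V ℝ)) (q, n + τ) := by
    have e1 : HasDerivAt D.h₁ (deriv D.h₁ (D.ℓ 0 q)) (D.ℓ 0 q) :=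
      (D.hh₁.differentiable (by simp) _).hasDerivAt
    have e2 : HasFDerivAt (fun p : V × ℝ => D.ℓ 0 p.1)
        ((D.ℓ 0).comp (ContinuousLinearMap.fst ℝ V ℝ)) (q, n + τ) :=
      (D.ℓ 0).hasFDerivAt.comp (q, (n : ℝ) + τ) hasFDerivAt_fst
    exact e1.comp_hasFDerivAt (q, (n : ℝ) + τ) e2
  have a3 : HasFDerivAt (fun p => ∑' k, D.ε k * D.φ k p)
      (fderiv ℝ (fun p => ∑' k, D.ε k * D.φ k p) (q, n + τ)) (q, n + τ) :=
    (hf.differentiable (by simp) _).hasFDerivAt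
  have a4 := ((a1.add a2).add a3).fderiv
  have a5 : fderiv ℝ D.f (q, n + τ) = _ := a4
  rw [a5]
  -- the derivative of the gates
  have hin : ∀ l, fderiv ℝ (D.φ l) (q, n + τ) (v, 0) =
      (if l = k then rho (τ / D.d k) • ((Y τ - D.C.c k) • D.ℓ 0 -
        (2 * Real.pi * Real.sin (2 * Real.pi * D.ℓ (D.idx k).succ x + D.ph j k)) •
          (D.ℓ (D.idx k).succ - D.bk k • D.ℓ 0)) else (0 : V →L[ℝ] ℝ)) v := by
    intro l
    have e1 := D.deriv_gate j n P x hx hτ l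
    rw [← hq] at e1
    have e2 : HasFDerivAt (fun q : V => (q, (n : ℝ) + τ)) (ContinuousLinearMap.inl ℝ V ℝ) q := by
      have := (hasFDerivAt_id (𝕜 := ℝ) q).prodMk (hasFDerivAt_const ((n : ℝ) + τ) q)
      exact this
    have e3 := ((hφ l).differentiable (by simp) (q, (n : ℝ) + τ)).hasFDerivAt.comp q e2
    have e4 := e1.unique e3
    rw [e4]
    simp
  have a6 : fderiv ℝ (fun p => ∑' k, D.ε k * D.φ k p) (q, n + τ) (v, 0) =
      D.ε k * ((rho (τ / D.d k) • ((Y τ - D.C.c k) • D.ℓ 0 -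
        (2 * Real.pi * Real.sin (2 * Real.pi * D.ℓ (D.idx k).succ x + D.ph j k)) •
          (D.ℓ (D.idx k).succ - D.bk k • D.ℓ 0))) v) := by
    rw [h1]
    have e1 := (ContinuousLinearMap.apply ℝ ℝ ((v, 0) : V × ℝ)).map_tsum (h2 (q, (n : ℝ) + τ))
    simp only [ContinuousLinearMap.apply_apply, _root_.smul_apply, hin] at e1
    rw [e1, tsum_eq_single k (fun l hl => by rw [if_neg hl]; simp)]
    rw [if_pos rfl]
    simp
  -- the gradient of `u`
  have a7 : inner ℝ (D.S.gu q) v = inner ℝ (D.S.gu x) v := by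
    have e1 : Function.Periodic D.S.u (((j : ℝ) + Y τ) • D.b) := by
      intro z
      rw [D.hb, smul_smul]
      exact hinv z _
    have e2 := periodic_fderiv e1 x
    rw [add_comm, ← hq, (D.S.hu q).fderiv, (D.S.hu x).fderiv] at e2
    have e3 := congrArg (fun T : V →L[ℝ] ℝ => T v) e2
    simpa using e3
  have a8 : deriv D.h₁ (D.ℓ 0 q) = deriv D.h₁ (Y τ) := by
    rw [hℓ0]
    have e1 : ∀ y, deriv D.h₁ (y + 1) = deriv D.h₁ y := per_deriv hh
    have e2 : Function.Periodic (deriv D.h₁) 1 := e1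
    have e3 := e2.nat_mul j (Y τ)
    rw [mul_one, add_comm] at e3
    exact e3
  have a9 : D.C.H' (Y τ) = D.κ * deriv D.h₁ (Y τ) := by
    rw [D.hC']
    exact deriv_const_mul _ (D.hh₁.differentiable (by simp) _)
  have a10 : rho (τ / D.d k) * (D.Gt D.lip).Ψ k (Y τ) =
      rho (τ / D.d k) * (D.κ * D.ε k * (Y τ - D.C.c k)) := by
    rcases lt_or_ge (D.d k) τ with h | h
    · rw [rho_of_one_le ((one_le_div (D.d_pos k)).2 h.le), zero_mul, zero_mul]
    · have e1 : |Y τ - D.C.c k| ≤ D.C.w k / 4 := P.orb.in_gate P.good hτ.1 h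
      have hw := D.C.w_pos k
      rw [(D.Gt D.lip).hΨ k (Y τ) (by linarith)]
      rfl
  have hκ0 := D.κ_pos.ne'
  have hb : inner ℝ D.b v = D.κ⁻¹ * D.ℓ 0 v := by
    rw [D.hb, inner_smul_left, D.hg]
    simp
  have hg : inner ℝ (D.kk k).g v = D.ℓ (D.idx k).succ v - D.bk k * D.ℓ 0 v := by
    show inner ℝ (D.g (D.idx k).succ - (D.bk k) • D.g 0) v = _
    rw [inner_sub_left, inner_smul_left, D.hg, D.hg]
    simp
  rw [inner_add_left, inner_sub_left, inner_smul_left, inner_smul_left, hb, hg]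
  have hd : (D.Gt D.lip).d k = D.d k := rfl
  have hd' : (D.kk k).d = D.d k := rfl
  have hε' : (D.kk k).ε = D.ε k := rfl
  have hlin : (D.kk k).lin = D.ℓ (D.idx k).succ := rfl
  rw [hd, hd', hε', hlin, a10, a9]
  simp only [_root_.add_apply, ContinuousLinearMap.comp_apply, ContinuousLinearMap.coe_fst',
    innerSL_apply_apply, _root_.smul_apply, smul_eq_mul, a6, a7, a8, _root_.sub_apply,
    conj_trivial]
  field_simp
  ring

end Sys

end Pool.Agent.Helper69.EI
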