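import Mathlib

set_option autoImplicit false

/-! Enumeration of the gates; the choice of the phase; small parameters. -/

namespace Pool.Agent.Helper69.EI

open Set Filter Topology

theorem exists_index (m : ℕ) : ∃ (lev : ℕ → ℕ) (idx : ℕ → Fin (m + 1)) (p : ℕ → ℕ),
    (∀ (l : ℕ) (i : Fin (m + 1)) (q : ℕ), q < 4 → ∃ k, lev k = l ∧ idx k = i ∧ p k = q) ∧
      ∀ L, ∃ B, ∀ k, lev k ≤ L → k < B := by
  refine ⟨fun k => k / (4 * (m + 1)), fun k => ⟨k % (4 * (m + 1)) / 4, ?_⟩, fun k => k % 4, ?_, ?_⟩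
  · rw [Nat.div_lt_iff_lt_mul (by norm_num), mul_comm]
    exact Nat.mod_lt _ (by positivity)
  · intro l i q hq
    refine ⟨4 * (m + 1) * l + (4 * i + q), ?_, ?_, ?_⟩
    · have hi := i.2
      simp only
      rw [Nat.mul_add_div (by positivity), Nat.div_eq_of_lt (by omega), add_zero]
    · have hi := i.2
      apply Fin.ext
      simp only
      rw [Nat.mul_add_mod, Nat.mod_eq_of_lt (by omega)]
      omega
    · simp only
      have : 4 * (m + 1) * l + (4 * (i : ℕ) + q) = 4 * ((m + 1) * l + i) + q := by ring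
      rw [this]
      omega
  · intro L
    refine ⟨4 * (m + 1) * (L + 1), fun k hk => ?_⟩
    have h1 := Nat.lt_mul_div_succ k (b := 4 * (m + 1)) (by positivity)
    refine h1.trans_le (Nat.mul_le_mul_left _ ?_)
    simp only at hk
    omega

theorem exists_phase (θ a : ℝ) :
    ∃ p : ℕ, p < 4 ∧ 7 / 10 * |a| ≤ -Real.sin (θ + p * (Real.pi / 2)) * a := by
  have h0 : Real.sin (θ + (0 : ℕ) * (Real.pi / 2)) = Real.sin θ := by simp
  have h1 : Real.sin (θ + (1 : ℕ) * (Real.pi / 2)) = Real.cos θ := by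
    rw [Nat.cast_one, one_mul, Real.sin_add_pi_div_two]
  have h2 : Real.sin (θ + (2 : ℕ) * (Real.pi / 2)) = -Real.sin θ := by
    have : θ + ((2 : ℕ) : ℝ) * (Real.pi / 2) = θ + Real.pi := by push_cast; ring
    rw [this, Real.sin_add_pi]
  have h3 : Real.sin (θ + (3 : ℕ) * (Real.pi / 2)) = -Real.cos θ := by
    have : θ + ((3 : ℕ) : ℝ) * (Real.pi / 2) = θ + Real.pi / 2 + Real.pi := by push_cast; ring
    rw [this, Real.sin_add_pi, Real.sin_add_pi_div_two]
  have hsq := Real.sin_sq_add_cos_sq θ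
  -- the value `x` or `-x` is large
  have key : ∀ x : ℝ, 7 / 10 ≤ |x| → 7 / 10 * |a| ≤ -x * a ∨ 7 / 10 * |a| ≤ -(-x) * a := by
    intro x hx
    have h4 : 7 / 10 * |a| ≤ |x * a| := by
      rw [abs_mul]
      exact mul_le_mul_of_nonneg_right hx (abs_nonneg _)
    rcases le_total 0 (x * a) with h | h
    · rw [abs_of_nonneg h] at h4
      right
      linarith
    · rw [abs_of_nonpos h] at h4
      left
      linarith
  by_cases hs : 7 / 10 ≤ |Real.sin θ|
  · rcases key _ hs with h | h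
    · exact ⟨0, by norm_num, by rw [h0]; exact h⟩
    · exact ⟨2, by norm_num, by rw [h2]; exact h⟩
  · have hc : 7 / 10 ≤ |Real.cos θ| := by
      push Not at hs
      by_contra hc
      push Not at hc
      have h5 := sq_abs (Real.sin θ)
      have h6 := sq_abs (Real.cos θ)
      nlinarith [abs_nonneg (Real.sin θ), abs_nonneg (Real.cos θ)]
    rcases key _ hc with h | h
    · exact ⟨1, by norm_num, by rw [h1]; exact h⟩
    · exact ⟨3, by norm_num, by rw [h3]; exact h⟩

lemma ev_small (A : ℝ) {B : ℝ} (hB : 0 < B) : ∀ᶠ d in 𝓝[>] (0 : ℝ), A * d ≤ B := by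
  have h1 : Tendsto (fun d : ℝ => A * d) (𝓝[>] 0) (𝓝 0) := by
    have : Tendsto (fun d : ℝ => A * d) (𝓝 0) (𝓝 (A * 0)) :=
      (continuous_const.mul continuous_id).tendsto 0
    rw [mul_zero] at this
    exact this.mono_left nhdsWithin_le_nhds
  exact (h1.eventually (gt_mem_nhds hB)).mono fun d hd => hd.le

end Pool.Agent.Helper69.EI
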