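import Pool.Agent.Helper69.EI.Orbit

set_option autoImplicit false

/-! The construction of the system. -/

namespace Pool.Agent.Helper69.EI

open Set Filter Topology
open scoped ContDiff NNReal

variable {V : Type*} [NormedAddCommGroup V] [InnerProductSpace ℝ V]

/-- functions of the space variables -/
lemma per_fst {n : ℕ} {β : Module.Basis (Fin n) ℝ V} {F : Type*} {u : V → F}
    (h : ∀ i q, u (q + β i) = u q) : Per β (fun p : V × ℝ => u p.1) :=
  ⟨fun i p => h i p.1, fun _ => rfl⟩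

lemma bounded_of_per {n : ℕ} (β : Module.Basis (Fin n) ℝ V) {F : Type*} [NormedAddCommGroup F]
    {u : V → F} (hu : Continuous u) (h : ∀ i q, u (q + β i) = u q) : ∃ C, ∀ q, ‖u q‖ ≤ C := by
  obtain ⟨C, hC⟩ := (per_fst (β := β) h).bounded (hu.comp continuous_fst)
  exact ⟨C, fun q => hC (q, 0)⟩

lemma per_fderiv' {n : ℕ} (β : Module.Basis (Fin n) ℝ V) {F : Type*} [NormedAddCommGroup F]
    [NormedSpace ℝ F] {u : V → F} (h : ∀ i q, u (q + β i) = u q) (i : Fin n) (q : V) :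
    fderiv ℝ u (q + β i) = fderiv ℝ u q :=
  periodic_fderiv (c := β i) (h i) q

theorem exists_base [CompleteSpace V] {n : ℕ} (β : Module.Basis (Fin n) ℝ V) (u : V → ℝ)
    (hu : ContDiff ℝ ∞ u) (hup : ∀ i q, u (q + β i) = u q) (g₀ : V)
    (hinv : ∀ q (s : ℝ), u (q + s • g₀) = u q) :
    ∃ S : Base V, S.u = u ∧ S.g₀ = g₀ := by
  have hu1 : ContDiff ℝ ∞ (fderiv ℝ u) := hu.fderiv_right (by simp)
  obtain ⟨B, hB⟩ := bounded_of_per β hu.continuous hup
  obtain ⟨M, hM⟩ := bounded_of_per β hu1.continuous (per_fderiv' β hup)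
  obtain ⟨K, hK⟩ := bounded_of_per β (hu1.continuous_fderiv (by simp))
    (per_fderiv' β (per_fderiv' β hup))
  have hK0 : 0 ≤ K := (norm_nonneg _).trans (hK 0)
  have hKl : LipschitzWith ⟨K, hK0⟩ (fderiv ℝ u) :=
    lipschitzWith_of_nnnorm_fderiv_le (hu1.differentiable (by simp)) fun p => hK p
  have hin : ∀ x v, inner ℝ ((InnerProductSpace.toDual ℝ V).symm (fderiv ℝ u x)) v =
      fderiv ℝ u x v := fun x v => InnerProductSpace.toDual_symm_apply
  refine ⟨{ u := u
            gu := fun x => (InnerProductSpace.toDual ℝ V).symm (fderiv ℝ u x)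
            hu := fun x => by
              refine (hu.differentiable (by simp) x).hasFDerivAt.congr_fderiv ?_
              ext v
              rw [innerSL_apply_apply, hin]
            K := 1 * ⟨K, hK0⟩
            hK := (InnerProductSpace.toDual ℝ V).symm.isometry.lipschitz.comp hKl
            M := M
            hM := fun x => by
              rw [LinearIsometryEquiv.norm_map]
              exact hM x
            B := B
            hB := hB
            g₀ := g₀
            hg := fun x => by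
              rw [real_inner_comm, hin]
              have h1 : HasDerivAt (fun s : ℝ => u (x + s • g₀)) (fderiv ℝ u x g₀) 0 := by
                have h2 : HasDerivAt (fun s : ℝ => x + s • g₀) g₀ 0 := by
                  have := ((hasDerivAt_id (0 : ℝ)).smul_const g₀).const_add x
                  simpa using this
                have h3 : HasFDerivAt u (fderiv ℝ u x) (x + (0 : ℝ) • g₀) := by
                  rw [zero_smul, add_zero]
                  exact (hu.differentiable (by simp) x).hasFDerivAt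
                exact h3.comp_hasDerivAt (0 : ℝ) h2
              have h4 : (fun s : ℝ => u (x + s • g₀)) = fun _ => u x := funext fun s => hinv x s
              rw [h4] at h1
              exact h1.unique (hasDerivAt_const _ _) }, rfl, rfl⟩

/-- a nonconstant potential near `h` -/
theorem exists_h₁ {n : ℕ} (β : Module.Basis (Fin n) ℝ V) (ℓ₀ : V →L[ℝ] ℝ)
    (hℓ : ∀ i, ℓ₀ (β i) = 0 ∨ ℓ₀ (β i) = 1) (h : ℝ → ℝ) (hh : ContDiff ℝ ∞ h)
    (hp : ∀ y, h (y + 1) = h y) (K : ℕ) (η : ℝ) (hη : 0 < η) :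
    ∃ h₁ : ℝ → ℝ, ContDiff ℝ ∞ h₁ ∧ (∀ y, h₁ (y + 1) = h₁ y) ∧ (∃ y z, h₁ y ≠ h₁ z) ∧
      ∀ j ≤ K, ∀ p : V × ℝ,
        ‖iteratedFDeriv ℝ j (fun p : V × ℝ => h₁ (ℓ₀ p.1) - h (ℓ₀ p.1)) p‖ ≤ η := by
  by_cases hc : ∃ y z, h y ≠ h z
  · refine ⟨h, hh, hp, hc, fun j _ p => ?_⟩
    simp only [sub_self]
    rw [iteratedFDeriv_fun_zero]
    simpa using hη.le
  · push Not at hc
    obtain ⟨c, hcd⟩ : ∃ c : V × ℝ → ℝ, c = fun p => Real.cos (2 * Real.pi * ℓ₀ p.1) := ⟨_, rfl⟩
    have hcs : ContDiff ℝ ∞ c := by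
      rw [hcd]
      exact Real.contDiff_cos.comp (contDiff_const.mul (ℓ₀.contDiff.comp contDiff_fst))
    have hcp : Per β c := by
      rw [hcd]
      refine ⟨fun i p => ?_, fun _ => rfl⟩
      simp only [map_add]
      rcases hℓ i with h1 | h1
      · rw [h1, add_zero]
      · rw [h1, mul_add, mul_one, Real.cos_add_two_pi]
    choose C hC using fun j => hcp.bounded_iteratedFDeriv hcs j
    have hev : ∀ᶠ e in 𝓝[>] (0 : ℝ), ∀ j ∈ Finset.range (K + 1), C j * e ≤ η :=
      (Filter.eventually_all_finset _).2 fun j _ => ev_small _ hη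
    obtain ⟨e, he, he0⟩ := (hev.and self_mem_nhdsWithin).exists
    have he0' : 0 < e := he0
    refine ⟨fun y => h y + e * Real.cos (2 * Real.pi * y), ?_, ?_, ⟨0, 1 / 2, ?_⟩, ?_⟩
    · exact hh.add (contDiff_const.mul (Real.contDiff_cos.comp (contDiff_const.mul contDiff_id)))
    · intro y
      simp only
      rw [hp, mul_add, mul_one, Real.cos_add_two_pi]
    · simp only
      rw [hc 0 (1 / 2)]
      have e1 : Real.cos (2 * Real.pi * 0) = 1 := by simp
      have e2 : Real.cos (2 * Real.pi * (1 / 2)) = -1 := by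
        rw [show 2 * Real.pi * (1 / 2) = Real.pi by ring, Real.cos_pi]
      rw [e1, e2]
      intro h1
      linarith
    · intro j hj p
      have e1 : (fun p : V × ℝ => h (ℓ₀ p.1) + e * Real.cos (2 * Real.pi * ℓ₀ p.1) - h (ℓ₀ p.1)) =
          fun p => e • c p := by
        funext p
        rw [hcd]
        simp only [smul_eq_mul]
        ring
      simp only
      rw [e1]
      have e2 : iteratedFDeriv ℝ j (fun p => e • c p) p = e • iteratedFDeriv ℝ j c p :=
        iteratedFDeriv_const_smul_apply (𝕜 := ℝ) (a := e) (i := j) (f := c) (x := p)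
          (hcs.contDiffAt.of_le (by exact_mod_cast le_top))
      rw [e2, norm_smul, Real.norm_of_nonneg he0'.le, mul_comm]
      have e3 := he j (Finset.mem_range.2 (by omega))
      exact (mul_le_mul_of_nonneg_right (hC j p) he0'.le).trans e3

theorem main [CompleteSpace V] {m : ℕ} (β : Module.Basis (Fin (m + 2)) ℝ V) (u : V → ℝ)
    (hu : ContDiff ℝ ∞ u) (hup : ∀ i q, u (q + β i) = u q) (g₀ : V)
    (hg₀ : ∀ v, inner ℝ g₀ v = β.coord 0 v) (hinv : ∀ q (s : ℝ), u (q + s • g₀) = u q)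
    (h : ℝ → ℝ) (hh : ContDiff ℝ ∞ h) (hhp : ∀ y, h (y + 1) = h y) (K : ℕ) (η : ℝ) (hη : 0 < η) :
    ∃ f : V × ℝ → ℝ, ContDiff ℝ ∞ f ∧ Per β f ∧
      (∀ j ≤ K, ∀ p, ‖iteratedFDeriv ℝ j (fun p => f p - (u p.1 + h (β.coord 0 p.1))) p‖ ≤ η) ∧
      ∃ ξ : ℝ → V × V, (∀ t, HasDerivAt ξ ((ξ t).2, Gr (fderiv ℝ f ((ξ t).1, t))) t) ∧
        Tendsto (fun t => ‖(ξ t).2‖) atTop atTop := by
  classical
  have : FiniteDimensional ℝ V := Module.Finite.of_basis β
  have hpi := Real.pi_pos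
  -- coordinates
  obtain ⟨ℓ, hℓ⟩ : ∃ ℓ : Fin (m + 2) → V →L[ℝ] ℝ,
      ℓ = fun i => LinearMap.toContinuousLinearMap (β.coord i) := ⟨_, rfl⟩
  have hℓ' : ∀ i v, ℓ i v = β.coord i v := fun i v => by rw [hℓ]; rfl
  have hℓβ : ∀ i j, ℓ i (β j) = 0 ∨ ℓ i (β j) = 1 := by
    intro i j
    rw [hℓ', Module.Basis.coord_apply, Module.Basis.repr_self, Finsupp.single_apply]
    split_ifs
    · right; rfl
    · left; rfl
  obtain ⟨g, hg⟩ : ∃ g : Fin (m + 2) → V,
      g = fun i => (InnerProductSpace.toDual ℝ V).symm (ℓ i) := ⟨_, rfl⟩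
  have hg' : ∀ i v, inner ℝ (g i) v = ℓ i v := fun i v => by
    rw [hg]; exact InnerProductSpace.toDual_symm_apply
  have hg0 : g 0 = g₀ := by
    refine ext_inner_right ℝ fun v => ?_
    rw [hg', hℓ', hg₀]
  have hg0ne : g 0 ≠ 0 := by
    intro h0
    have h1 := hg' 0 (β 0)
    rw [h0, inner_zero_left, hℓ'] at h1
    simp at h1
  have hκ : 0 < ‖g 0‖ ^ 2 := by positivity
  -- the potentials
  obtain ⟨h₁, hs₁, hp₁, hne₁, hb₁⟩ := exists_h₁ β (ℓ 0) (hℓβ 0) h hh hhp K (η / 2) (by linarith)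
  obtain ⟨C, hC, hC'⟩ := exists_clock (fun y => ‖g 0‖ ^ 2 * h₁ y) (contDiff_const.mul hs₁)
    (fun y => by simp only [hp₁]) (by
      obtain ⟨y, z, hyz⟩ := hne₁
      refine ⟨y, z, fun h0 => hyz ?_⟩
      exact mul_left_cancel₀ hκ.ne' h0)
  obtain ⟨S, hSu, hSg⟩ := exists_base β u hu hup g₀ hinv
  -- the gates
  obtain ⟨lev, idx, pp, hatt, hfin⟩ := exists_index m
  have hB0 : 0 ≤ S.B := (abs_nonneg _).trans (S.hB 0)
  obtain ⟨c₁, hc₁0, hc₁⟩ : ∃ c₁ : ℝ, 0 < c₁ ∧ ∀ v, inner ℝ (g 0) v = 0 → 1 ≤ ‖v‖ →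
      ∃ i : Fin (m + 1), c₁ ≤ |ℓ i.succ v| := by
    have hsum : 0 < ∑ i : Fin (m + 1), ‖β i.succ‖ :=
      Finset.sum_pos (fun i _ => norm_pos_iff.2 (β.ne_zero _)) Finset.univ_nonempty
    refine ⟨1 / ∑ i : Fin (m + 1), ‖β i.succ‖, by positivity, fun v hv hv1 => ?_⟩
    by_contra hc
    push Not at hc
    have h1 : v = ∑ i : Fin (m + 1), ℓ i.succ v • β i.succ := by
      conv_lhs => rw [← β.sum_repr v]
      rw [Fin.sum_univ_succ]
      have h2 : β.repr v 0 = 0 := by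
        rw [← Module.Basis.coord_apply, ← hℓ', ← hg', hv]
      rw [h2, zero_smul, zero_add]
      refine Finset.sum_congr rfl fun i _ => ?_
      rw [hℓ', Module.Basis.coord_apply]
    have h2 : ‖v‖ < 1 := by
      calc ‖v‖ = ‖∑ i : Fin (m + 1), ℓ i.succ v • β i.succ‖ := by rw [← h1]
        _ ≤ ∑ i : Fin (m + 1), ‖ℓ i.succ v • β i.succ‖ := norm_sum_le _ _
        _ = ∑ i : Fin (m + 1), |ℓ i.succ v| * ‖β i.succ‖ := by
            simp only [norm_smul, Real.norm_eq_abs]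
        _ < ∑ i : Fin (m + 1), 1 / (∑ i : Fin (m + 1), ‖β i.succ‖) * ‖β i.succ‖ := by
            refine Finset.sum_lt_sum_of_nonempty Finset.univ_nonempty fun i _ => ?_
            exact mul_lt_mul_of_pos_right (hc i) (norm_pos_iff.2 (β.ne_zero _))
        _ = 1 := by
            rw [← Finset.mul_sum, one_div, inv_mul_cancel₀ hsum.ne']
    linarith
  obtain ⟨Vm, hVm⟩ : ∃ Vm : ℕ → ℝ, Vm = fun l : ℕ => Real.sqrt (2 * (l + 1 + S.B)) := ⟨_, rfl⟩
  -- the lengths of the windows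
  have hd : ∀ k, ∃ d : ℝ, 0 < d ∧ d ≤ 1 / 8 ∧ (C.M + 1) * d ≤ C.v₁ ∧
      (C.v₂ + C.v₁) * d ≤ C.w k / 64 ∧
      2 * Real.pi * ‖ℓ (idx k).succ‖ * (Vm (lev k) + S.M + 1) * d ≤ 1 / 10 ∧
      ‖ℓ (idx k).succ‖ * (S.M + 1) * d ≤ c₁ / 10 := by
    intro k
    have hw := C.w_pos k
    have e1 := ev_small 1 (B := 1 / 8) (by norm_num)
    have e2 := ev_small (C.M + 1) C.v₁_pos
    have e3 := ev_small (C.v₂ + C.v₁) (B := C.w k / 64) (by linarith)
    have e4 := ev_small (2 * Real.pi * ‖ℓ (idx k).succ‖ * (Vm (lev k) + S.M + 1))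
      (B := 1 / 10) (by norm_num)
    have e5 := ev_small (‖ℓ (idx k).succ‖ * (S.M + 1)) (B := c₁ / 10) (by linarith)
    obtain ⟨d, hd⟩ := (e1.and (e2.and (e3.and (e4.and (e5.and self_mem_nhdsWithin))))).exists
    refine ⟨d, hd.2.2.2.2.2, ?_, hd.2.1, hd.2.2.1, hd.2.2.2.1, hd.2.2.2.2.1⟩
    linarith [hd.1]
  choose d d0 d1 d2 d3 d4 d5 using hd
  -- the potentials of the gates
  have hwlt : ∀ k, C.w k < 1 / 2 := by
    intro k
    have h1 := Pass.cen C k
    have h2 := C.hL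
    have h3 := C.hR
    have h4 := C.r_le k
    have h5 := C.r_pos k
    rw [Clock.w]
    linarith
  obtain ⟨b, hb⟩ : ∃ b : V, b = (‖g 0‖ ^ 2)⁻¹ • g 0 := ⟨_, rfl⟩
  obtain ⟨φ, hφ⟩ : ∃ φ : ℕ → V × ℝ → ℝ, φ = fun k => gpot (ℓ 0) (ℓ (idx k).succ)
      (ℓ (idx k).succ b) (pp k * (Real.pi / 2) - 2 * Real.pi * (C.c k * ℓ (idx k).succ b))
      (C.c k) (C.w k) (d k) := ⟨_, rfl⟩
  have hφs : ∀ k, ContDiff ℝ ∞ (φ k) := fun k => by
    rw [hφ]; exact contDiff_gpot (C.w_pos k) (hwlt k) (d0 k) (d1 k)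
  have hφp : ∀ k, Per β (φ k) := by
    intro k
    rw [hφ]
    exact ⟨fun i p => gpot_shift (hℓβ 0 i) (hℓβ _ i) p, fun p => gpot_time p⟩
  choose Cb hCb using fun (j k : ℕ) => (hφp k).bounded_iteratedFDeriv (hφs k) j
  -- the amplitudes
  have hgf : ∀ k, ContDiff ℝ ∞ (gf (C.c k) (C.w k) fun s => s ^ 2 / 2) := fun k =>
    contDiff_gf (C.w_pos k) (hwlt k) ((contDiff_id.pow 2).div_const 2)
  choose Bg hBg0 hBg using fun k => per_bounded
    (G := deriv (gf (C.c k) (C.w k) fun s => s ^ 2 / 2)) ((hgf k).continuous_deriv (by simp))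
    (per_deriv (gf_per _ _ _))
  have hε : ∀ k, ∃ ε : ℝ, 0 < ε ∧ ε ≤ 1 ∧
      (∀ y, R0 * (‖g 0‖ ^ 2 * ε * |deriv (gf (C.c k) (C.w k) fun s => s ^ 2 / 2) y|) ≤ 1) ∧
      R0 * (2 * Real.pi) * ‖g (idx k).succ - (ℓ (idx k).succ b) • g 0‖ * ε ≤ 1 ∧
      ∀ j ≤ K + k, ε * Cb j k ≤ η / 2 / 2 / 2 ^ k := by
    intro k
    have e1 := ev_small 1 (B := 1) one_pos
    have e2 := ev_small (R0 * (‖g 0‖ ^ 2 * Bg k)) (B := 1) one_pos
    have e3 := ev_small (R0 * (2 * Real.pi) * ‖g (idx k).succ - (ℓ (idx k).succ b) • g 0‖)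
      (B := 1) one_pos
    have e4 : ∀ᶠ e in 𝓝[>] (0 : ℝ), ∀ j ∈ Finset.range (K + k + 1),
        Cb j k * e ≤ η / 2 / 2 / 2 ^ k :=
      (Filter.eventually_all_finset _).2 fun j _ => ev_small _ (by positivity)
    obtain ⟨ε, h1, h2, h3, h4, h5⟩ :=
      (e1.and (e2.and (e3.and (e4.and self_mem_nhdsWithin)))).exists
    have h5' : 0 < ε := h5
    refine ⟨ε, h5', by linarith, fun y => ?_, h3, fun j hj => ?_⟩
    · have h6 := R0_pos
      calc R0 * (‖g 0‖ ^ 2 * ε * |deriv (gf (C.c k) (C.w k) fun s => s ^ 2 / 2) y|)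
          ≤ R0 * (‖g 0‖ ^ 2 * ε * Bg k) := by
            have := hBg k y
            gcongr
        _ = R0 * (‖g 0‖ ^ 2 * Bg k) * ε := by ring
        _ ≤ 1 := h2
    · rw [mul_comm]
      exact h4 j (Finset.mem_range.2 (by omega))
  choose ε ε0 ε1 ε2 ε3 ε4 using hε
  obtain ⟨hsm, hsb, hsf, hss⟩ := smooth_sum φ hφs Cb hCb K (η / 2) ε (fun k => (ε0 k).le)
    (fun j k hj => ε4 k j hj)
  -- the system
  obtain ⟨D, hDβ, hDℓ, hDg, hDh, hDS, hDφ, hDε⟩ : ∃ D : Sys V m, D.β = β ∧ D.ℓ = ℓ ∧ D.g = g ∧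
      D.h₁ = h₁ ∧ D.S = S ∧ D.φ = φ ∧ D.ε = ε := by
    refine ⟨{ β := β
              ℓ := ℓ
              hℓ := hℓ'
              g := g
              hg := hg'
              κ := ‖g 0‖ ^ 2
              κ_pos := hκ
              hκ := rfl
              b := b
              hb := hb
              h₁ := h₁
              hh₁ := hs₁
              C := C
              hC := hC
              hC' := hC'
              S := S
              hS := hSg.trans hg0.symm
              hu := by rw [hSu]; exact hu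
              lev := lev
              idx := idx
              p := pp
              hatt := hatt
              hfin := hfin
              Vm := Vm
              hVm := fun l => by rw [hVm]
              c₁ := c₁
              c₁_pos := hc₁0
              hc₁ := hc₁
              d := d
              d_pos := d0
              d1 := d1
              d2 := d2
              d3 := d3
              d4 := d4
              d5 := d5
              ε := ε
              ε_pos := ε0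
              ε1 := ε1
              ε2 := ε2
              ε3 := ε3 }, rfl, rfl, rfl, rfl, rfl, ?_, rfl⟩
    rw [hφ]
    rfl
  have hDf : D.f = fun p => (u p.1 + h₁ (ℓ 0 p.1)) + ∑' k, ε k * φ k p := by
    funext p
    rw [Sys.f, hDS, hSu, hDh, hDℓ, hDφ, hDε]
  have hfs : ContDiff ℝ ∞ D.f := by
    rw [hDf]
    exact ((hu.comp contDiff_fst).add (hs₁.comp ((ℓ 0).contDiff.comp contDiff_fst))).add hsm
  have hfp : Per β D.f := by
    rw [hDf]
    refine ⟨fun i p => ?_, fun p => ?_⟩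
    · have e1 : ∀ k, φ k (p.1 + β i, p.2) = φ k p := fun k => (hφp k).1 i p
      simp only [e1, hup, map_add]
      rcases hℓβ 0 i with h1 | h1
      · rw [h1, add_zero]
      · rw [h1, hp₁]
    · have e1 : ∀ k, φ k (p.1, p.2 + 1) = φ k p := fun k => (hφp k).2 p
      simp only [e1]
  obtain ⟨KL, hKL⟩ := hfp.lipschitz_fderiv hfs
  refine ⟨D.f, hfs, hfp, ?_, ?_⟩
  · intro j hj p
    have e1 : (fun p => D.f p - (u p.1 + h (β.coord 0 p.1))) =
        (fun p : V × ℝ => h₁ (ℓ 0 p.1) - h (ℓ 0 p.1)) + fun p => ∑' k, ε k * φ k p := by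
      funext p
      rw [hDf]
      simp only [Pi.add_apply, hℓ']
      ring
    rw [e1]
    have s1 : ContDiff ℝ ∞ (fun p : V × ℝ => h₁ (ℓ 0 p.1) - h (ℓ 0 p.1)) :=
      (hs₁.comp ((ℓ 0).contDiff.comp contDiff_fst)).sub
        (hh.comp ((ℓ 0).contDiff.comp contDiff_fst))
    rw [iteratedFDeriv_add_apply (s1.contDiffAt.of_le (by exact_mod_cast le_top))
      (hsm.contDiffAt.of_le (by exact_mod_cast le_top))]
    refine (norm_add_le _ _).trans ?_
    have h1 := hb₁ j hj p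
    have h2 := hsb j hj p
    linarith
  · refine D.escape ?_ ?_ ?_ ?_ ?_ ?_ hKL
    · rw [hDφ, hDε]; exact hsm
    · rw [hDφ]; exact hφs
    · rw [hDφ, hDε]; exact hsf
    · rw [hDφ, hDε]; exact hss
    · rw [hDS, hSu, hDg, hg0]; exact hinv
    · rw [hDh]; exact hp₁

end Pool.Agent.Helper69.EI
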