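import Pool.Agent.Helper69.EI.ClockB

set_option autoImplicit false

/-! Existence of the clock data. -/

namespace Pool.Agent.Helper69.EI

open Set Filter Topology
open scoped ContDiff NNReal

lemma per_bounded {G : ℝ → ℝ} (hG : Continuous G) (hp : ∀ y, G (y + 1) = G y) :
    ∃ C, 0 ≤ C ∧ ∀ y, |G y| ≤ C := by
  obtain ⟨C, hC⟩ := (isCompact_Icc (a := (0:ℝ)) (b := 1)).exists_bound_of_continuousOn
    hG.continuousOn
  have hp' : Function.Periodic G 1 := hp
  refine ⟨C, (norm_nonneg _).trans (hC 0 ⟨le_rfl, zero_le_one⟩), fun y => ?_⟩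
  have h1 : G (Int.fract y) = G y := by
    have := hp'.sub_int_mul_eq (x := y) ⌊y⌋
    rw [mul_one] at this
    rw [← this, Int.self_sub_floor]
  rw [← h1]
  exact hC _ ⟨Int.fract_nonneg _, (Int.fract_lt_one _).le⟩

lemma per_deriv {G : ℝ → ℝ} (hp : ∀ y, G (y + 1) = G y) (y : ℝ) : deriv G (y + 1) = deriv G y := by
  have h1 : (fun y => G (y + 1)) = G := funext hp
  have h2 := deriv_comp_add_const G 1 y
  rw [h1] at h2
  exact h2.symm

lemma per_lipschitz {G : ℝ → ℝ} (hG : ContDiff ℝ ∞ G) (hp : ∀ y, G (y + 1) = G y) :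
    ∃ K : ℝ≥0, LipschitzWith K G := by
  obtain ⟨C, hC0, hC⟩ := per_bounded (G := deriv G) (hG.continuous_deriv (by simp)) (per_deriv hp)
  exact ⟨⟨C, hC0⟩, lipschitzWith_of_nnnorm_deriv_le (hG.differentiable (by simp)) fun y => hC y⟩

theorem exists_clock (H : ℝ → ℝ) (hH : ContDiff ℝ ∞ H) (per : ∀ y, H (y + 1) = H y)
    (hne : ∃ y z, H y ≠ H z) : ∃ C : Clock, C.H = H ∧ C.H' = deriv H := by
  have hH1 : ContDiff ℝ ∞ (deriv H) := (contDiff_infty_iff_deriv.1 hH).2
  obtain ⟨K, hK⟩ := per_lipschitz hH1 (per_deriv per)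
  obtain ⟨M, hM0, hM⟩ := per_bounded hH1.continuous (per_deriv per)
  obtain ⟨B, hB0, hB⟩ := per_bounded hH.continuous per
  have hp' : Function.Periodic H 1 := per
  have hfr : ∀ a y : ℝ, H (a + Int.fract (y - a)) = H y := by
    intro a y
    have := hp'.sub_int_mul_eq (x := y) ⌊y - a⌋
    rw [mul_one] at this
    rw [← this, ← Int.self_sub_floor]
    congr 1
    ring
  obtain ⟨ys, -, hys⟩ := (isCompact_Icc (a := (0:ℝ)) (b := 1)).exists_isMinOn ⟨0, le_rfl, zero_le_one⟩
    hH.continuous.continuousOn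
  have hmin : ∀ y, H ys ≤ H y := by
    intro y
    have h1 := hfr 0 y
    rw [sub_zero, zero_add] at h1
    rw [← h1]
    exact hys ⟨Int.fract_nonneg _, (Int.fract_lt_one _).le⟩
  obtain ⟨yg, hyg1, hyg2, hyg3⟩ : ∃ yg, ys < yg ∧ yg < ys + 1 ∧ H ys < H yg := by
    obtain ⟨y, z, hyz⟩ := hne
    have h1 : ∃ y, H y ≠ H ys := by
      by_contra hc
      push Not at hc
      exact hyz ((hc y).trans (hc z).symm)
    obtain ⟨y, hy⟩ := h1
    refine ⟨ys + Int.fract (y - ys), ?_, ?_, ?_⟩
    · have h2 : Int.fract (y - ys) ≠ 0 := by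
        intro h0
        have h3 := hfr ys y
        rw [h0, add_zero] at h3
        exact hy h3.symm
      have h4 := lt_of_le_of_ne (Int.fract_nonneg (y - ys)) (Ne.symm h2)
      linarith
    · linarith [Int.fract_lt_one (y - ys)]
    · rw [hfr]
      exact lt_of_le_of_ne (hmin y) (Ne.symm hy)
  obtain ⟨v₁, hv₁, hv₁'⟩ : ∃ v₁ : ℝ, 0 < v₁ ∧ H ys + 2 * v₁ ^ 2 < H yg := by
    refine ⟨Real.sqrt ((H yg - H ys) / 4), Real.sqrt_pos.2 (by linarith), ?_⟩
    rw [Real.sq_sqrt (by linarith)]
    linarith
  have hev : ∀ᶠ y in 𝓝 yg, H ys + 2 * v₁ ^ 2 < H y :=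
    (hH.continuous.tendsto yg).eventually (lt_mem_nhds hv₁')
  obtain ⟨δ', hδ', hδ''⟩ := Metric.eventually_nhds_iff.1 hev
  obtain ⟨δ, hδ0, hδ⟩ : ∃ δ > 0, δ = min (δ' / 2) (min (v₁ / 4) (min ((yg - ys) / 2)
      ((ys + 1 - yg) / 2))) :=
    ⟨_, lt_min (by linarith) (lt_min (by linarith) (lt_min (by linarith) (by linarith))), rfl⟩
  have d1 : δ ≤ δ' / 2 := by rw [hδ]; exact min_le_left _ _
  have d2 : δ ≤ v₁ / 4 := by rw [hδ]; exact (min_le_right _ _).trans (min_le_left _ _)
  have d3 : δ ≤ (yg - ys) / 2 := by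
    rw [hδ]; exact (min_le_right _ _).trans ((min_le_right _ _).trans (min_le_left _ _))
  have d4 : δ ≤ (ys + 1 - yg) / 2 := by
    rw [hδ]; exact (min_le_right _ _).trans ((min_le_right _ _).trans (min_le_right _ _))
  refine ⟨{ H := H
            H' := deriv H
            hH := fun y => (hH.differentiable (by simp) y).hasDerivAt
            K := K
            hK := hK
            per := per
            m := H ys
            hm := hmin
            ys := ys
            hys := rfl
            O := 2 * B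
            hO0 := by linarith
            hO := fun y => by
              have h1 := abs_le.1 (hB y)
              have h2 := abs_le.1 (hB ys)
              linarith [h1.1, h1.2, h2.1, h2.2]
            M := M
            hM := hM
            yg := yg
            δ := δ
            v₁ := v₁
            δ_pos := hδ0
            v₁_pos := hv₁
            hI := fun y h1 h2 => by
              refine (hδ'' (y := y) ?_).le
              rw [Real.dist_eq, abs_lt]
              constructor <;> linarith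
            hδ := by linarith
            hL := by linarith
            hR := by linarith
            v₂ := Real.sqrt (2 * (1 + 2 * B))
            v₂_pos := Real.sqrt_pos.2 (by linarith)
            hv₂ := Real.sq_sqrt (by linarith) }, rfl, rfl⟩

end Pool.Agent.Helper69.EI
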