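import Pool.Agent.Helper69.EI.Grad

set_option autoImplicit false

/-! The escaping orbit of a system. -/

namespace Pool.Agent.Helper69.EI

open Set Filter Topology
open scoped ContDiff NNReal

variable {V : Type*} [NormedAddCommGroup V] [InnerProductSpace ℝ V]

/-- the gradient in the space variables, as a function of the derivative -/
noncomputable def Gr [CompleteSpace V] (T : V × ℝ →L[ℝ] ℝ) : V :=
  (InnerProductSpace.toDual ℝ V).symm (T.comp (ContinuousLinearMap.inl ℝ V ℝ))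

lemma inner_Gr [CompleteSpace V] (T : V × ℝ →L[ℝ] ℝ) (v : V) : inner ℝ (Gr T) v = T (v, 0) := by
  rw [Gr, InnerProductSpace.toDual_symm_apply]
  simp

lemma lipschitz_Gr [CompleteSpace V] : ∃ K : ℝ≥0, LipschitzWith K (Gr : (V × ℝ →L[ℝ] ℝ) → V) := by
  have h1 := (InnerProductSpace.toDual ℝ V).symm.isometry.lipschitz
  have h2 := ((ContinuousLinearMap.compL ℝ V (V × ℝ) ℝ).flip
    (ContinuousLinearMap.inl ℝ V ℝ)).lipschitz
  exact ⟨_, h1.comp h2⟩

/-- global solutions of Newton's equation with a Lipschitz force -/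
theorem newton [CompleteSpace V] {f : V × ℝ → ℝ} {K : ℝ≥0} (hK : LipschitzWith K (fderiv ℝ f)) :
    ∃ (L : ℝ≥0), (∀ t, LipschitzWith L (fun z : V × V => (z.2, Gr (fderiv ℝ f (z.1, t))))) ∧
      ∀ z₀ : V × V, ∃ ξ : ℝ → V × V, ξ 0 = z₀ ∧
        ∀ t, HasDerivAt ξ ((ξ t).2, Gr (fderiv ℝ f ((ξ t).1, t))) t := by
  obtain ⟨K', hK'⟩ := lipschitz_Gr (V := V)
  have hG : LipschitzWith (K' * K) fun p => Gr (fderiv ℝ f p) := hK'.comp hK
  have h1 : ∀ t : ℝ, LipschitzWith (max 1 (K' * K))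
      (fun z : V × V => (z.2, Gr (fderiv ℝ f (z.1, t)))) := by
    intro t
    refine LipschitzWith.prodMk LipschitzWith.prod_snd ?_
    have h2 : LipschitzWith 1 (fun z : V × V => (z.1, t)) := by
      refine LipschitzWith.mk_one fun a b => ?_
      rw [Prod.dist_eq]
      simp only [dist_self]
      exact max_le (le_max_left _ _) dist_nonneg
    have h3 := hG.comp h2
    rw [mul_one] at h3
    exact h3
  refine ⟨_, h1, fun z₀ => ?_⟩
  exact global_ode (fun (t : ℝ) (z : V × V) => (z.2, Gr (fderiv ℝ f (z.1, t)))) _ h1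
    ((continuous_snd.comp continuous_snd).prodMk (hG.continuous.comp
      ((continuous_fst.comp continuous_snd).prodMk continuous_fst))) z₀

namespace Sys

variable {m : ℕ} (D : Sys V m)

theorem escape [CompleteSpace V] (hf : ContDiff ℝ ∞ (fun p => ∑' k, D.ε k * D.φ k p))
    (hφ : ∀ k, ContDiff ℝ ∞ (D.φ k))
    (h1 : ∀ p, fderiv ℝ (fun p => ∑' k, D.ε k * D.φ k p) p = ∑' k, D.ε k • fderiv ℝ (D.φ k) p)
    (h2 : ∀ p, Summable fun k => D.ε k • fderiv ℝ (D.φ k) p)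
    (hinv : ∀ q (s : ℝ), D.S.u (q + s • D.g 0) = D.S.u q)
    (hh : ∀ y, D.h₁ (y + 1) = D.h₁ y) {K : ℝ≥0} (hK : LipschitzWith K (fderiv ℝ D.f)) :
    ∃ ξ : ℝ → V × V, (∀ t, HasDerivAt ξ ((ξ t).2, Gr (fderiv ℝ D.f ((ξ t).1, t))) t) ∧
      Tendsto (fun t => ‖(ξ t).2‖) atTop atTop := by
  obtain ⟨L, hL, hex⟩ := newton hK
  -- the waiting times
  choose N hN using (D.Gt D.lip).exists_wait
  choose B hB using D.hfin
  obtain ⟨Wl, hWl⟩ : ∃ Wl : ℕ → ℕ, Wl = fun l => 1 + ∑ k ∈ Finset.range (B (l + 1)), N k :=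
    ⟨_, rfl⟩
  have hWl1 : ∀ l, 1 ≤ Wl l := fun l => by rw [hWl]; exact Nat.le_add_right _ _
  have hWl2 : ∀ l k, D.lev k ≤ l + 1 → (D.Gt D.lip).Wait k (Wl l) := by
    intro l k hk
    refine hN k _ ?_
    rw [hWl]
    have h3 : N k ≤ ∑ k ∈ Finset.range (B (l + 1)), N k :=
      Finset.single_le_sum (f := N) (fun _ _ => Nat.zero_le _) (Finset.mem_range.2 (hB _ _ hk))
    simp only
    omega
  -- the start
  obtain ⟨x₀, v₀, hx₀, hv₀, hE₀⟩ : ∃ x₀ v₀ : V, inner ℝ D.S.g₀ x₀ = 0 ∧ inner ℝ D.S.g₀ v₀ = 0 ∧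
      D.S.B + 1 ≤ D.S.en x₀ v₀ := by
    -- a nonzero vector orthogonal to `g 0`
    obtain ⟨w, hw⟩ : ∃ w, w = D.β 1 - (D.ℓ 0 D.b * (D.ℓ 0 (D.β 1))) • D.b := ⟨_, rfl⟩
    have hw0 : inner ℝ (D.g 0) w = 0 := by
      rw [D.hg, hw, map_sub, map_smul, D.ℓ0b]
      simp
    have e0 : D.ℓ 0 (D.β 1) = 0 := by
      rw [D.hℓ]
      simp
    have hw1 : w ≠ 0 := by
      rw [hw, e0]
      simp only [mul_zero, zero_smul, sub_zero]
      exact D.β.ne_zero 1
    have hwn : 0 < ‖w‖ := norm_pos_iff.2 hw1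
    obtain ⟨a, ha⟩ : ∃ a : ℝ, a = Real.sqrt (2 * (2 * D.S.B + 1)) / ‖w‖ := ⟨_, rfl⟩
    have hB0 : 0 ≤ D.S.B := (abs_nonneg _).trans (D.S.hB 0)
    refine ⟨0, a • w, by simp, ?_, ?_⟩
    · rw [D.hS, inner_smul_right, hw0, mul_zero]
    · have h3 : ‖a • w‖ ^ 2 = 2 * (2 * D.S.B + 1) := by
        rw [norm_smul, ha, Real.norm_of_nonneg (div_nonneg (Real.sqrt_nonneg _) hwn.le),
          div_mul_cancel₀ _ hwn.ne', Real.sq_sqrt (by linarith)]
      have h4 := abs_le.1 (D.S.hB 0)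
      simp only [Base.en, h3]
      linarith [h4.2]
  obtain ⟨k, X, U, hs⟩ := exists_sched D.S D.kk D.ph D.lev D.Vm D.c₁ D.c₁_pos Wl hWl1
    (D.S.B + 1) D.short (fun j x v hx hv hE => D.gate j x v hx hv hE) x₀ v₀ hx₀ hv₀ hE₀
  obtain ⟨W, hW⟩ : ∃ W : ℕ → ℕ, W = fun j => Wl (D.lev (k j)) := ⟨_, rfl⟩
  have hlev : ∀ j, D.lev (k (j + 1)) ≤ D.lev (k j) + 1 := by
    intro j
    rw [hs.lv, hs.lv]
    have h3 := hs.e3 j
    have h4 : ⌊D.S.en (X (j + 1) 0) (U (j + 1) 0)⌋₊ ≤ ⌊D.S.en (X j 0) (U j 0) + 1⌋₊ :=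
      Nat.floor_mono h3
    refine h4.trans ?_
    have h5 : ∀ a : ℝ, ⌊a + 1⌋₊ ≤ ⌊a⌋₊ + 1 := by
      intro a
      rcases le_total 0 a with ha | ha
      · rw [Nat.floor_add_one ha]
      · rw [Nat.floor_of_nonpos ha]
        have : ⌊a + 1⌋₊ ≤ ⌊(1:ℝ)⌋₊ := Nat.floor_mono (by linarith)
        simpa using this
    exact h5 _
  obtain ⟨Y, Z, hYZ, hnext⟩ := clock (D.Gt D.lip) k W
    (fun j => by rw [hW]; exact hWl2 _ _ (Nat.le_succ _))
    (fun j => by rw [hW]; exact hWl2 _ _ (hlev j))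
  -- the times of the events
  obtain ⟨n, hn⟩ : ∃ n : ℕ → ℕ, n = fun j => ∑ i ∈ Finset.range j, W i := ⟨_, rfl⟩
  have hn0 : n 0 = 0 := by rw [hn]; simp
  have hn1 : ∀ j, n (j + 1) = n j + W j := by
    intro j
    rw [hn]
    simp only
    rw [Finset.sum_range_succ]
  have hperpX : ∀ j t, inner ℝ (D.g 0) (X j t) = 0 := by
    intro j t
    have := (hs.orb j).perp_X (hs.u0 j) (hs.x0 j) t
    rwa [D.hS] at this
  have hperpU : ∀ j t, inner ℝ (D.g 0) (U j t) = 0 := by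
    intro j t
    have := (hs.orb j).perp_U (hs.u0 j) t
    rwa [D.hS] at this
  obtain ⟨ζ, hζ⟩ : ∃ ζ : ℕ → ℝ → V × V, ζ = fun (j : ℕ) (t : ℝ) =>
      (((j : ℝ) + Y j (t - n j)) • D.b + X j (t - n j), Z j (t - n j) • D.b + U j (t - n j)) :=
    ⟨_, rfl⟩
  obtain ⟨ξ, hξ0, hξ⟩ := hex (ζ 0 0)
  refine ⟨ξ, hξ, ?_⟩
  have hglue := glue (v := fun t (z : V × V) => (z.2, Gr (fderiv ℝ D.f (z.1, t)))) (K := L) hL ξ hξ
    ζ (fun j => (n j : ℝ)) (by simp [hn0]) (fun j => by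
      have h3 : n j ≤ n (j + 1) := by rw [hn1]; exact Nat.le_add_right _ _
      exact_mod_cast h3) hξ0 (by
    intro j t ht
    have hτ : t - n j ∈ Icc (0 : ℝ) (W j) := by
      have h3 := ht.2
      simp only [hn1] at h3
      push_cast at h3
      exact ⟨by linarith [ht.1], by linarith⟩
    have hsub : HasDerivAt (fun t : ℝ => t - n j) 1 t := (hasDerivAt_id t).sub_const _
    have hY := ((hYZ j).orb.hY (t - n j)).comp t hsub
    have hZ := ((hYZ j).orb.hV (t - n j)).comp t hsub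
    have hX := ((hs.orb j).hX (t - n j)).scomp t hsub
    have hU := ((hs.orb j).hU (t - n j)).scomp t hsub
    have hA := ((hY.const_add (j : ℝ)).smul_const D.b).add hX
    have hB := (hZ.smul_const D.b).add hU
    rw [hζ]
    refine (hA.prodMk hB).congr_deriv ?_
    refine Prod.ext ?_ ?_
    · simp
    · simp only [mul_one, one_smul]
      refine ext_inner_right ℝ fun v => ?_
      rw [inner_Gr]
      have h3 := D.grad_f hf hφ h1 h2 hinv j (n j) (hYZ j) (X j (t - n j)) (hperpX j _) hτ hh v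
      have h4 : ((n j : ℝ) + (t - n j)) = t := by ring
      rw [h4] at h3
      exact h3.symm) (by
    intro j
    rw [hζ]
    simp only [hn1]
    push_cast
    have e1 : (n j : ℝ) + W j - n j = W j := by ring
    have e2 : (n j : ℝ) + W j - (n j + W j) = 0 := by ring
    rw [e1, e2, (hnext j).1, (hnext j).2, hs.nx j, hs.nu j]
    have e3 : (Wl (D.lev (k j)) : ℝ) = W j := by rw [hW]
    rw [e3]
    congr 2
    ring_nf)
  -- the velocities
  have hgrow := hs.tendsto D.c₁_pos D.hfin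
  have hvel : ∀ j, ∀ t ∈ Icc (n j : ℝ) (n (j + 1)),
      2 * (D.S.en (X j 0) (U j 0) - D.S.B) ≤ ‖(ξ t).2‖ ^ 2 := by
    intro j t ht
    rw [hglue j ht, hζ]
    simp only
    have h3 := hs.e1 j (t - n j) (by linarith [ht.1])
    have h4 := abs_le.1 (D.S.hB (X j (t - n j)))
    have h5 : inner ℝ (Z j (t - n j) • D.b) (U j (t - n j)) = 0 := by
      rw [inner_smul_left, D.hb, inner_smul_left, hperpU]
      simp
    have h6 := norm_add_sq_real (Z j (t - n j) • D.b) (U j (t - n j))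
    rw [h5] at h6
    rw [h6]
    simp only [Base.en] at h3 ⊢
    nlinarith [sq_nonneg ‖Z j (t - n j) • D.b‖, h4.1]
  have hn2 : ∀ j, j ≤ n j := by
    intro j
    induction j with
    | zero => exact Nat.zero_le _
    | succ j ih =>
      rw [hn1]
      have : 1 ≤ W j := by rw [hW]; exact hWl1 _
      omega
  rw [tendsto_atTop_atTop]
  intro R
  obtain ⟨j₀, hj₀⟩ := (tendsto_atTop_atTop.1 hgrow) (R ^ 2 + D.S.B)
  refine ⟨n j₀, fun t ht => ?_⟩
  -- the interval of `t`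
  obtain ⟨j, hj, hjt⟩ : ∃ j, j₀ ≤ j ∧ t ∈ Icc (n j : ℝ) (n (j + 1)) := by
    have hex : ∃ i, t < n (i + 1) := by
      obtain ⟨i, hi⟩ := exists_nat_gt t
      exact ⟨i, hi.trans_le (by exact_mod_cast (Nat.le_succ i).trans (hn2 _))⟩
    classical
    obtain ⟨i, hi, hmin⟩ : ∃ i, t < n (i + 1) ∧ ∀ i' < i, ¬ t < n (i' + 1) :=
      ⟨Nat.find hex, Nat.find_spec hex, fun i' h => Nat.find_min hex h⟩
    have hmono : Monotone n := monotone_nat_of_le_succ fun j => by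
      rw [hn1]; exact Nat.le_add_right _ _
    refine ⟨i, ?_, ?_, hi.le⟩
    · by_contra hc
      push Not at hc
      have h3 : n (i + 1) ≤ n j₀ := hmono hc
      have h4 : (n (i + 1) : ℝ) ≤ n j₀ := by exact_mod_cast h3
      linarith
    · rcases Nat.eq_zero_or_pos i with h | h
      · rw [h, hn0, Nat.cast_zero]
        exact (Nat.cast_nonneg _).trans ht
      · have h3 := hmin (i - 1) (by omega)
        rw [Nat.sub_add_cancel h] at h3
        exact not_lt.1 h3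
  have h3 := hvel j t hjt
  have h4 := hj₀ j hj
  have h5 : R ^ 2 ≤ ‖(ξ t).2‖ ^ 2 := by nlinarith [sq_nonneg R]
  exact le_of_sq_le_sq h5 (norm_nonneg _)

end Sys

end Pool.Agent.Helper69.EI
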