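import Pool.Agent.Helper69.EI.Rho

set_option autoImplicit false

/-! Periodic extensions of functions of one variable; the profiles of the gates. -/

namespace Pool.Agent.Helper69.EI

open Set Filter Topology
open scoped ContDiff

/-- the `1`-periodic extension of a function on `[a, a + 1)` -/
noncomputable def perz (a : ℝ) (φ : ℝ → ℝ) (y : ℝ) : ℝ := φ (a + Int.fract (y - a))

lemma perz_per (a : ℝ) (φ : ℝ → ℝ) (y : ℝ) : perz a φ (y + 1) = perz a φ y := by
  rw [perz, perz]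
  have : y + 1 - a = (y - a) + 1 := by ring
  rw [this, Int.fract_add_one]

section
variable {a b₁ b₂ : ℝ} {φ : ℝ → ℝ}

lemma perz_eq (h1 : a < b₁) (hb : b₁ ≤ b₂) (h2 : b₂ < a + 1)
    (hφ : ∀ y, (y < b₁ ∨ b₂ < y) → φ y = 0) (J : ℤ) {y : ℝ} (hy : b₂ - 1 < y - J)
    (hy' : y - J < b₁ + 1) : perz a φ y = φ (y - J) := by
  rw [perz]
  have e1 : Int.fract (y - a) = Int.fract (y - J - a) := by
    have : y - a = (y - J - a) + J := by ring
    rw [this, Int.fract_add_intCast]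
  rw [e1]
  rcases lt_or_ge (y - J) a with h | h
  · have e2 : Int.fract (y - J - a) = y - J - a + 1 := by
      rw [Int.fract_eq_iff]
      refine ⟨by linarith, by linarith, -1, by push_cast; ring⟩
    rw [e2, hφ _ (Or.inr (by linarith)), hφ _ (Or.inl (by linarith))]
  rcases lt_or_ge (y - J) (a + 1) with h' | h'
  · have e2 : Int.fract (y - J - a) = y - J - a := by
      rw [Int.fract_eq_self]
      exact ⟨by linarith, by linarith⟩
    rw [e2]
    congr 1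
    ring
  · have e2 : Int.fract (y - J - a) = y - J - a - 1 := by
      rw [Int.fract_eq_iff]
      refine ⟨by linarith, by linarith, 1, by push_cast; ring⟩
    rw [e2, hφ _ (Or.inl (by linarith)), hφ _ (Or.inr (by linarith))]

lemma perz_eventuallyEq (h1 : a < b₁) (hb : b₁ ≤ b₂) (h2 : b₂ < a + 1)
    (hφ : ∀ y, (y < b₁ ∨ b₂ < y) → φ y = 0) (J : ℤ) {y : ℝ} (hy : b₂ - 1 < y - J)
    (hy' : y - J < b₁ + 1) : perz a φ =ᶠ[𝓝 y] fun y => φ (y - J) := by
  have h3 : Ioo (b₂ - 1 + J) (b₁ + 1 + J) ∈ 𝓝 y := Ioo_mem_nhds (by linarith) (by linarith)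
  filter_upwards [h3] with x hx
  exact perz_eq h1 hb h2 hφ J (by linarith [hx.1]) (by linarith [hx.2])

lemma floor_bounds (y a : ℝ) : a ≤ y - ⌊y - a⌋ ∧ y - ⌊y - a⌋ < a + 1 := by
  have h1 := Int.floor_le (y - a)
  have h2 := Int.lt_floor_add_one (y - a)
  constructor <;> linarith

lemma contDiff_perz (h1 : a < b₁) (hb : b₁ ≤ b₂) (h2 : b₂ < a + 1)
    (hφ : ∀ y, (y < b₁ ∨ b₂ < y) → φ y = 0) (hs : ContDiff ℝ ∞ φ) : ContDiff ℝ ∞ (perz a φ) := by
  rw [contDiff_iff_contDiffAt]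
  intro y
  have hf := floor_bounds y a
  refine ContDiffAt.congr_of_eventuallyEq ?_
    (perz_eventuallyEq h1 hb h2 hφ ⌊y - a⌋ (by linarith [hf.1]) (by linarith [hf.2]))
  exact (hs.comp (contDiff_id.sub contDiff_const)).contDiffAt

lemma perz_zero (h1 : a < b₁) (hb : b₁ ≤ b₂) (h2 : b₂ < a + 1)
    (hφ : ∀ y, (y < b₁ ∨ b₂ < y) → φ y = 0) {y : ℝ} (h : ∀ J : ℤ, y ∉ Icc (b₁ + J) (b₂ + J)) :
    perz a φ =ᶠ[𝓝 y] fun _ => 0 := by
  have hf := floor_bounds y a
  have h3 := perz_eventuallyEq h1 hb h2 hφ ⌊y - a⌋ (y := y) (by linarith [hf.1]) (by linarith [hf.2])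
  have h4 : (Icc (b₁ + (⌊y - a⌋ : ℝ)) (b₂ + ⌊y - a⌋))ᶜ ∈ 𝓝 y :=
    isClosed_Icc.isOpen_compl.mem_nhds (h _)
  filter_upwards [h3, h4] with x hx hx'
  rw [hx]
  refine hφ _ ?_
  by_contra hc
  push Not at hc
  exact hx' ⟨by linarith [hc.1], by linarith [hc.2]⟩

end

/-- the periodic time profile -/
noncomputable def tp (d : ℝ) : ℝ → ℝ := perz (-1 / 2) fun t => rho (t / d)

lemma rho_supp {d : ℝ} (hd : 0 < d) (t : ℝ) (h : t < 0 ∨ d < t) : rho (t / d) = 0 := by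
  rcases h with h | h
  · exact rho_of_nonpos (div_nonpos_of_nonpos_of_nonneg h.le hd.le)
  · exact rho_of_one_le ((one_le_div hd).2 h.le)

lemma tp_per (d t : ℝ) : tp d (t + 1) = tp d t := perz_per _ _ _

lemma contDiff_tp {d : ℝ} (hd : 0 < d) (hd' : d ≤ 1 / 8) : ContDiff ℝ ∞ (tp d) :=
  contDiff_perz (b₁ := 0) (b₂ := d) (by norm_num) hd.le (by linarith) (rho_supp hd)
    (contDiff_rho.comp (contDiff_id.div_const d))

lemma tp_eq {d : ℝ} (hd : 0 < d) (hd' : d ≤ 1 / 8) (J : ℤ) {t : ℝ} (h : 0 ≤ t - J)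
    (h' : t - J < 1) : tp d t = rho ((t - J) / d) :=
  perz_eq (b₁ := 0) (b₂ := d) (by norm_num) hd.le (by linarith) (rho_supp hd) J (by linarith)
    (by linarith)

/-- the cut-off function of a gate -/
noncomputable def bump (c w : ℝ) : ℝ → ℝ :=
  if hw : 0 < w then (⟨w / 2, w, half_pos hw, half_lt_self hw⟩ : ContDiffBump c) else 0

lemma contDiff_bump (c w : ℝ) : ContDiff ℝ ∞ (bump c w) := by
  rw [bump]
  split_ifs with hw
  · exact ContDiffBump.contDiff _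
  · exact contDiff_const

lemma bump_one {c w : ℝ} (hw : 0 < w) {y : ℝ} (h : |y - c| ≤ w / 2) : bump c w y = 1 := by
  rw [bump, dif_pos hw]
  refine ContDiffBump.one_of_mem_closedBall _ ?_
  rw [Metric.mem_closedBall, Real.dist_eq]
  exact h

lemma bump_zero {c w : ℝ} (hw : 0 < w) (y : ℝ) (h : y < c - w ∨ c + w < y) : bump c w y = 0 := by
  rw [bump, dif_pos hw]
  refine ContDiffBump.zero_of_le_dist _ ?_
  rw [Real.dist_eq]
  show w ≤ |y - c|
  rcases h with h | h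
  · rw [abs_of_neg (by linarith)]; linarith
  · rw [abs_of_pos (by linarith)]; linarith

/-- the periodic function which is `χ (y - c)` in the gate -/
noncomputable def gf (c w : ℝ) (χ : ℝ → ℝ) : ℝ → ℝ :=
  perz (c - 1 / 2) fun y => bump c w y * χ (y - c)

lemma gf_per (c w : ℝ) (χ : ℝ → ℝ) (y : ℝ) : gf c w χ (y + 1) = gf c w χ y := perz_per _ _ _

section
variable {c w : ℝ} {χ : ℝ → ℝ}

lemma gf_supp (hw : 0 < w) (χ : ℝ → ℝ) (y : ℝ) (h : y < c - w ∨ c + w < y) :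
    bump c w y * χ (y - c) = 0 := by
  rw [bump_zero hw y h, zero_mul]

lemma contDiff_gf (hw : 0 < w) (hw' : w < 1 / 2) (hχ : ContDiff ℝ ∞ χ) :
    ContDiff ℝ ∞ (gf c w χ) :=
  contDiff_perz (b₁ := c - w) (b₂ := c + w) (by linarith) (by linarith) (by linarith) (gf_supp hw χ)
    ((contDiff_bump c w).mul (hχ.comp (contDiff_id.sub contDiff_const)))

lemma gf_in (hw : 0 < w) (hw' : w < 1 / 2) (J : ℤ) {y : ℝ} (h : |y - J - c| < w / 2) :
    gf c w χ =ᶠ[𝓝 y] fun y => χ (y - J - c) := by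
  have h1 := abs_lt.1 h
  have h2 : gf c w χ =ᶠ[𝓝 y] fun y => bump c w (y - J) * χ (y - J - c) :=
    perz_eventuallyEq (b₁ := c - w) (b₂ := c + w) (by linarith) (by linarith) (by linarith) (gf_supp hw χ) J
      (by linarith [h1.1]) (by linarith [h1.2])
  have h3 : Ioo (c - w / 2 + J) (c + w / 2 + J) ∈ 𝓝 y :=
    Ioo_mem_nhds (by linarith [h1.1]) (by linarith [h1.2])
  filter_upwards [h2, h3] with x hx hx'
  rw [hx, bump_one hw, one_mul]
  rw [abs_le]
  constructor <;> linarith [hx'.1, hx'.2]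

lemma gf_out (hw : 0 < w) (hw' : w < 1 / 2) {y : ℝ}
    (h : ∀ J : ℤ, y ∉ Icc (c + J - w) (c + J + w)) : gf c w χ =ᶠ[𝓝 y] fun _ => 0 := by
  refine perz_zero (b₁ := c - w) (b₂ := c + w) (by linarith) (by linarith) (by linarith) (gf_supp hw χ)
    fun J hJ => h J ?_
  exact ⟨by linarith [hJ.1], by linarith [hJ.2]⟩

lemma gf_in_deriv (hw : 0 < w) (hw' : w < 1 / 2) (J : ℤ) {y χ' : ℝ} (h : |y - J - c| < w / 2)
    (hχ : HasDerivAt χ χ' (y - J - c)) : HasDerivAt (gf c w χ) χ' y := by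
  refine HasDerivAt.congr_of_eventuallyEq ?_ (gf_in hw hw' J h)
  have h1 : HasDerivAt (fun y : ℝ => y - J - c) 1 y := ((hasDerivAt_id y).sub_const _).sub_const _
  have h2 := HasDerivAt.comp y hχ h1
  rwa [mul_one] at h2

lemma gf_out_deriv (hw : 0 < w) (hw' : w < 1 / 2) {y : ℝ}
    (h : ∀ J : ℤ, y ∉ Icc (c + J - w) (c + J + w)) : HasDerivAt (gf c w χ) 0 y :=
  (hasDerivAt_const y 0).congr_of_eventuallyEq (gf_out hw hw' h)

end

end Pool.Agent.Helper69.EI
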