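import Pool.Agent.Helper69.EI.XPart

set_option autoImplicit false

/-! The adaptive choice of the kicks. -/

namespace Pool.Agent.Helper69.EI

open Set Filter Topology
open scoped NNReal

variable {V : Type*} [NormedAddCommGroup V] [InnerProductSpace ℝ V]

/-- the energy of the base system -/
noncomputable def Base.en (S : Base V) (x v : V) : ℝ := ‖v‖ ^ 2 / 2 - S.u x

/-- the result of the adaptive choice of the kicks -/
structure Sched (S : Base V) (kk : ℕ → Kick S) (ph : ℕ → ℕ → ℝ) (lev : ℕ → ℕ) (Wl : ℕ → ℕ)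
    (c₁ : ℝ) (k : ℕ → ℕ) (X U : ℕ → ℝ → V) : Prop where
  orb : ∀ j, XOrb (kk (k j)) (ph j (k j)) (X j) (U j)
  lv : ∀ j, lev (k j) = ⌊S.en (X j 0) (U j 0)⌋₊
  x0 : ∀ j, inner ℝ S.g₀ (X j 0) = 0
  u0 : ∀ j, inner ℝ S.g₀ (U j 0) = 0
  nx : ∀ j, X (j + 1) 0 = X j (Wl (lev (k j)))
  nu : ∀ j, U (j + 1) 0 = U j (Wl (lev (k j)))
  e1 : ∀ j t, 0 ≤ t → S.en (X j 0) (U j 0) ≤ S.en (X j t) (U j t)
  e2 : ∀ j, S.en (X j 0) (U j 0) + (kk (k j)).ε * c₁ * (kk (k j)).d ≤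
    S.en (X (j + 1) 0) (U (j + 1) 0)
  e3 : ∀ j, S.en (X (j + 1) 0) (U (j + 1) 0) ≤ S.en (X j 0) (U j 0) + 1

theorem exists_sched [CompleteSpace V] (S : Base V) (kk : ℕ → Kick S) (ph : ℕ → ℕ → ℝ)
    (lev : ℕ → ℕ) (Vm : ℕ → ℝ) (c₁ : ℝ) (hc₁ : 0 < c₁) (Wl : ℕ → ℕ) (hW : ∀ l, 1 ≤ Wl l) (E₀ : ℝ)
    (hshort : ∀ k, (kk k).Short (Vm (lev k)) c₁)
    (hgate : ∀ (j : ℕ) (x v : V), inner ℝ S.g₀ x = 0 → inner ℝ S.g₀ v = 0 → E₀ ≤ S.en x v →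
      ∃ k, lev k = ⌊S.en x v⌋₊ ∧ ‖v‖ ≤ Vm (lev k) ∧ c₁ ≤ |(kk k).lin v| ∧
        7 / 10 * |(kk k).lin v| ≤ -Real.sin (2 * Real.pi * (kk k).lin x + ph j k) * (kk k).lin v)
    (x₀ v₀ : V) (hx₀ : inner ℝ S.g₀ x₀ = 0) (hv₀ : inner ℝ S.g₀ v₀ = 0) (hE₀ : E₀ ≤ S.en x₀ v₀) :
    ∃ k X U, Sched S kk ph lev Wl c₁ k X U := by
  have step : ∀ (j : ℕ) (z : {z : V × V // inner ℝ S.g₀ z.1 = 0 ∧ inner ℝ S.g₀ z.2 = 0 ∧
      E₀ ≤ S.en z.1 z.2}), ∃ (k : ℕ) (X U : ℝ → V), XOrb (kk k) (ph j k) X U ∧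
        X 0 = z.1.1 ∧ U 0 = z.1.2 ∧ lev k = ⌊S.en z.1.1 z.1.2⌋₊ ∧
        (inner ℝ S.g₀ (X (Wl (lev k))) = 0 ∧ inner ℝ S.g₀ (U (Wl (lev k))) = 0 ∧
          E₀ ≤ S.en (X (Wl (lev k))) (U (Wl (lev k)))) ∧
        (∀ t, 0 ≤ t → S.en z.1.1 z.1.2 ≤ S.en (X t) (U t)) ∧
        S.en z.1.1 z.1.2 + (kk k).ε * c₁ * (kk k).d ≤ S.en (X (Wl (lev k))) (U (Wl (lev k))) ∧
        S.en (X (Wl (lev k))) (U (Wl (lev k))) ≤ S.en z.1.1 z.1.2 + 1 := by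
    rintro j ⟨⟨x, v⟩, hx, hv, hE⟩
    obtain ⟨k, h1, h2, h3, h4⟩ := hgate j x v hx hv hE
    obtain ⟨X, U, h5, h6, h7⟩ := exists_xorb (kk k) (ph j k) x v
    have h8 := h5.kick (by rw [h7]; exact hv) (hshort k) (by rw [h7]; exact h2)
      (by rw [h7]; exact h3) (by rw [h6, h7]; exact h4)
    have hWd : (kk k).d ≤ (Wl (lev k) : ℝ) :=
      (kk k).d_le.trans (by exact_mod_cast hW _)
    have h9 := h8.2 _ hWd
    have h10 := (kk k).ε_pos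
    have h11 := (kk k).d_pos
    have h12 : 0 < (kk k).ε * c₁ * (kk k).d := by positivity
    refine ⟨k, X, U, h5, h6, h7, h1, ⟨?_, ?_, ?_⟩, ?_, ?_, ?_⟩
    · exact h5.perp_X (by rw [h7]; exact hv) (by rw [h6]; exact hx) _
    · exact h5.perp_U (by rw [h7]; exact hv) _
    · have := h9.1
      rw [h6, h7] at this
      simp only [Base.en] at hE ⊢
      linarith
    · intro t ht
      have := h8.1 t ht
      rw [h6, h7] at this
      exact this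
    · have := h9.1
      rw [h6, h7] at this
      exact this
    · have := h9.2
      rw [h6, h7] at this
      exact this
  choose kf Xf Uf a1 a2 a3 a4 a5 a6 a7 a8 using step
  let z : ℕ → {z : V × V // inner ℝ S.g₀ z.1 = 0 ∧ inner ℝ S.g₀ z.2 = 0 ∧ E₀ ≤ S.en z.1 z.2} :=
    fun j => Nat.rec ⟨(x₀, v₀), hx₀, hv₀, hE₀⟩ (fun j z => ⟨(Xf j z (Wl (lev (kf j z))),
      Uf j z (Wl (lev (kf j z)))), a5 j z⟩) j
  have hz : ∀ j, (z (j + 1)).1 = (Xf j (z j) (Wl (lev (kf j (z j)))),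
      Uf j (z j) (Wl (lev (kf j (z j))))) := fun j => rfl
  refine ⟨fun j => kf j (z j), fun j => Xf j (z j), fun j => Uf j (z j), ?_⟩
  refine ⟨fun j => a1 j (z j), fun j => ?_, fun j => ?_, fun j => ?_, fun j => ?_, fun j => ?_,
    fun j t ht => ?_, fun j => ?_, fun j => ?_⟩
  · simp only [a2, a3]
    exact a4 j (z j)
  · simp only [a2]
    exact (z j).2.1
  · simp only [a3]
    exact (z j).2.2.1
  · simp only [a2, hz]
  · simp only [a3, hz]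
  · simp only [a2, a3]
    exact a6 j (z j) t ht
  · simp only [a2, a3, hz]
    exact a7 j (z j)
  · simp only [a2, a3, hz]
    exact a8 j (z j)

/-- the energies tend to infinity -/
theorem Sched.tendsto {S : Base V} {kk : ℕ → Kick S} {ph : ℕ → ℕ → ℝ} {lev : ℕ → ℕ} {Wl : ℕ → ℕ}
    {c₁ : ℝ} {k : ℕ → ℕ} {X U : ℕ → ℝ → V} (h : Sched S kk ph lev Wl c₁ k X U) (hc₁ : 0 < c₁)
    (hfin : ∀ L, ∃ B, ∀ k, lev k ≤ L → k < B) :
    Tendsto (fun j => S.en (X j 0) (U j 0)) atTop atTop := by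
  have hpos : ∀ k, 0 < (kk k).ε * c₁ * (kk k).d :=
    fun k => mul_pos (mul_pos (kk k).ε_pos hc₁) (kk k).d_pos
  have hmono : Monotone fun j => S.en (X j 0) (U j 0) :=
    monotone_nat_of_le_succ fun j => by linarith [h.e2 j, hpos (k j)]
  refine tendsto_atTop_atTop_of_monotone hmono fun b => ?_
  by_contra hc
  push Not at hc
  obtain ⟨B, hB⟩ := hfin ⌊b⌋₊
  have hk : ∀ j, k j < B := fun j => hB _ (by rw [h.lv]; exact Nat.floor_mono (hc j).le)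
  have hne : (Finset.range B).Nonempty := ⟨k 0, Finset.mem_range.2 (hk 0)⟩
  obtain ⟨i, -, hi⟩ := Finset.exists_min_image (Finset.range B)
    (fun k => (kk k).ε * c₁ * (kk k).d) hne
  have h1 : ∀ j : ℕ, S.en (X 0 0) (U 0 0) + j * ((kk i).ε * c₁ * (kk i).d) ≤
      S.en (X j 0) (U j 0) := by
    intro j
    induction j with
    | zero => simp
    | succ j ih =>
      have h2 := h.e2 j
      have h3 := hi (k j) (Finset.mem_range.2 (hk j))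
      push_cast
      linarith
  obtain ⟨N, hN⟩ := exists_nat_ge ((b - S.en (X 0 0) (U 0 0)) / ((kk i).ε * c₁ * (kk i).d))
  rw [div_le_iff₀ (hpos i)] at hN
  linarith [h1 N, hc N]

end Pool.Agent.Helper69.EI
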