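import Pool.Agent.Helper69.EI.MkClock
import Pool.Agent.Helper69.EI.Sched
import Pool.Agent.Helper69.EI.Gpot
import Pool.Agent.Helper69.EI.Index

set_option autoImplicit false

/-! The system: all parameters. -/

namespace Pool.Agent.Helper69.EI

open Set Filter Topology
open scoped ContDiff NNReal

/-- the parameters of the system -/
structure Sys (V : Type*) [NormedAddCommGroup V] [InnerProductSpace ℝ V] (m : ℕ) where
  β : Module.Basis (Fin (m + 2)) ℝ V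
  ℓ : Fin (m + 2) → V →L[ℝ] ℝ
  hℓ : ∀ i v, ℓ i v = β.coord i v
  g : Fin (m + 2) → V
  hg : ∀ i v, inner ℝ (g i) v = ℓ i v
  κ : ℝ
  κ_pos : 0 < κ
  hκ : κ = ‖g 0‖ ^ 2
  b : V
  hb : b = κ⁻¹ • g 0
  -- the potential of the clock
  h₁ : ℝ → ℝ
  hh₁ : ContDiff ℝ ∞ h₁
  C : Clock
  hC : C.H = fun y => κ * h₁ y
  hC' : C.H' = deriv fun y => κ * h₁ y
  -- the base system
  S : Base V
  hS : S.g₀ = g 0
  hu : ContDiff ℝ ∞ S.u
  -- attributes of the gates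
  lev : ℕ → ℕ
  idx : ℕ → Fin (m + 1)
  p : ℕ → ℕ
  hatt : ∀ (l : ℕ) (i : Fin (m + 1)) (q : ℕ), q < 4 → ∃ k, lev k = l ∧ idx k = i ∧ p k = q
  hfin : ∀ L, ∃ B, ∀ k, lev k ≤ L → k < B
  Vm : ℕ → ℝ
  hVm : ∀ l, Vm l = Real.sqrt (2 * (l + 1 + S.B))
  c₁ : ℝ
  c₁_pos : 0 < c₁
  hc₁ : ∀ v, inner ℝ (g 0) v = 0 → 1 ≤ ‖v‖ → ∃ i : Fin (m + 1), c₁ ≤ |ℓ i.succ v|
  d : ℕ → ℝ
  d_pos : ∀ k, 0 < d k
  d1 : ∀ k, d k ≤ 1 / 8
  d2 : ∀ k, (C.M + 1) * d k ≤ C.v₁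
  d3 : ∀ k, (C.v₂ + C.v₁) * d k ≤ C.w k / 64
  d4 : ∀ k, 2 * Real.pi * ‖ℓ (idx k).succ‖ * (Vm (lev k) + S.M + 1) * d k ≤ 1 / 10
  d5 : ∀ k, ‖ℓ (idx k).succ‖ * (S.M + 1) * d k ≤ c₁ / 10
  ε : ℕ → ℝ
  ε_pos : ∀ k, 0 < ε k
  ε1 : ∀ k, ε k ≤ 1
  ε2 : ∀ k y, R0 * (κ * ε k * |deriv (gf (C.c k) (C.w k) fun s => s ^ 2 / 2) y|) ≤ 1
  ε3 : ∀ k, R0 * (2 * Real.pi) * ‖g (idx k).succ - (ℓ (idx k).succ b) • g 0‖ * ε k ≤ 1

namespace Sys

variable {V : Type*} [NormedAddCommGroup V] [InnerProductSpace ℝ V] {m : ℕ} (D : Sys V m)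

/-- the component of `b` -/
noncomputable def bk (k : ℕ) : ℝ := D.ℓ (D.idx k).succ D.b

/-- the phase of the gate potential -/
noncomputable def θ (k : ℕ) : ℝ := D.p k * (Real.pi / 2) - 2 * Real.pi * (D.C.c k * D.bk k)

/-- the phase of the kick at the event `j` -/
noncomputable def ph (j k : ℕ) : ℝ := 2 * Real.pi * (j * D.bk k) + D.p k * (Real.pi / 2)

/-- the gate potential -/
noncomputable def φ (k : ℕ) : V × ℝ → ℝ :=
  gpot (D.ℓ 0) (D.ℓ (D.idx k).succ) (D.bk k) (D.θ k) (D.C.c k) (D.C.w k) (D.d k)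

lemma w_lt (k : ℕ) : D.C.w k < 1 / 2 := by
  have h1 := Pass.cen D.C k
  have h2 := D.C.hL
  have h3 := D.C.hR
  have h4 := D.C.r_le k
  have h5 := D.C.r_pos k
  rw [Clock.w]
  linarith

lemma ℓ0b : D.ℓ 0 D.b = 1 := by
  rw [← D.hg, D.hb, inner_smul_right, real_inner_self_eq_norm_sq, ← D.hκ,
    inv_mul_cancel₀ D.κ_pos.ne']

/-- the gates of the clock -/
noncomputable def Gt (hdn : ∀ k : ℕ, ∃ K : ℝ≥0, LipschitzWith K
    (fun y => D.κ * D.ε k * deriv (gf (D.C.c k) (D.C.w k) fun s => s ^ 2 / 2) y)) :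
    Gates D.C where
  d := D.d
  a := fun k => D.κ * D.ε k
  Ψ := fun k y => D.κ * D.ε k * deriv (gf (D.C.c k) (D.C.w k) fun s => s ^ 2 / 2) y
  K' := fun k => (hdn k).choose
  hK' := fun k => (hdn k).choose_spec
  d_pos := D.d_pos
  d_le := D.d1
  d_v := fun k => by rw [mul_comm]; exact D.d2 k
  d_w := fun k => by rw [mul_comm]; exact D.d3 k
  a_pos := fun k => mul_pos D.κ_pos (D.ε_pos k)
  hΨ1 := fun k y => by
    rw [abs_mul, abs_of_pos (mul_pos D.κ_pos (D.ε_pos k))]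
    exact D.ε2 k y
  hΨ := fun k y hy => by
    have h1 : ContDiff ℝ ∞ (gf (D.C.c k) (D.C.w k) fun s => s ^ 2 / 2) :=
      contDiff_gf (D.C.w_pos k) (D.w_lt k) ((contDiff_id.pow 2).div_const 2)
    have h2 : ∀ y, |y - D.C.c k| < D.C.w k / 2 →
        deriv (gf (D.C.c k) (D.C.w k) fun s => s ^ 2 / 2) y = y - D.C.c k := by
      intro y hy
      have h3 : HasDerivAt (gf (D.C.c k) (D.C.w k) fun s => s ^ 2 / 2) (y - (0 : ℤ) - D.C.c k) y := by
        refine gf_in_deriv (D.C.w_pos k) (D.w_lt k) 0 (by simpa using hy) ?_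
        have := ((hasDerivAt_id (y - ((0 : ℤ) : ℝ) - D.C.c k)).pow 2).div_const 2
        refine this.congr_deriv ?_
        simp
      rw [h3.deriv]
      simp
    rcases hy.lt_or_eq with h | h
    · rw [h2 y h]
    · -- the end points, by continuity
      have hc : Continuous (deriv (gf (D.C.c k) (D.C.w k) fun s => s ^ 2 / 2)) :=
        h1.continuous_deriv (by simp)
      have hcl : IsClosed {y | deriv (gf (D.C.c k) (D.C.w k) fun s => s ^ 2 / 2) y =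
          y - D.C.c k} := isClosed_eq hc (continuous_id.sub continuous_const)
      have hsub : Metric.ball (D.C.c k) (D.C.w k / 2) ⊆
          {y | deriv (gf (D.C.c k) (D.C.w k) fun s => s ^ 2 / 2) y = y - D.C.c k} := by
        intro x hx
        rw [Metric.mem_ball, Real.dist_eq] at hx
        exact h2 x hx
      have h4 := hcl.closure_subset_iff.2 hsub
      rw [closure_ball _ (by have := D.C.w_pos k; linarith)] at h4
      have h5 : y ∈ Metric.closedBall (D.C.c k) (D.C.w k / 2) := by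
        rw [Metric.mem_closedBall, Real.dist_eq]
        exact hy
      rw [show deriv (gf (D.C.c k) (D.C.w k) fun s => s ^ 2 / 2) y = y - D.C.c k from h4 h5]

/-- the kicks -/
noncomputable def kk (k : ℕ) : Kick D.S where
  ε := D.ε k
  d := D.d k
  lin := D.ℓ (D.idx k).succ
  g := D.g (D.idx k).succ - (D.bk k) • D.g 0
  ε_pos := D.ε_pos k
  ε_le := D.ε1 k
  d_pos := D.d_pos k
  d_le := (D.d1 k).trans (by norm_num)
  hg₀ := by
    rw [D.hS, inner_sub_right, inner_smul_right, real_inner_self_eq_norm_sq, ← D.hκ, bk, D.hb,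
      map_smul, smul_eq_mul]
    rw [← D.hg, real_inner_comm]
    field_simp [D.κ_pos.ne']
    ring
  hω := fun v hv => by
    rw [D.hS] at hv
    rw [inner_sub_left, inner_smul_left, hv, D.hg]
    simp
  hε := by
    have h1 := D.ε3 k
    calc D.ε k * R0 * (2 * Real.pi) * ‖D.g (D.idx k).succ - D.bk k • D.g 0‖
        = R0 * (2 * Real.pi) * ‖D.g (D.idx k).succ - D.bk k • D.g 0‖ * D.ε k := by ring
      _ ≤ 1 := h1

lemma short (k : ℕ) : (D.kk k).Short (D.Vm (D.lev k)) D.c₁ := ⟨D.d4 k, D.d5 k⟩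

/-- there is always a favourable gate -/
lemma gate (j : ℕ) (x v : V) (_hx : inner ℝ D.S.g₀ x = 0) (hv : inner ℝ D.S.g₀ v = 0)
    (hE : D.S.B + 1 ≤ D.S.en x v) :
    ∃ k, D.lev k = ⌊D.S.en x v⌋₊ ∧ ‖v‖ ≤ D.Vm (D.lev k) ∧ D.c₁ ≤ |(D.kk k).lin v| ∧
      7 / 10 * |(D.kk k).lin v| ≤
        -Real.sin (2 * Real.pi * (D.kk k).lin x + D.ph j k) * (D.kk k).lin v := by
  have hB : 0 ≤ D.S.B := (abs_nonneg _).trans (D.S.hB 0)
  have hBx := abs_le.1 (D.S.hB x)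
  have h1 : 1 ≤ ‖v‖ := by
    simp only [Base.en] at hE
    have : 1 ≤ ‖v‖ ^ 2 := by linarith [hBx.1]
    nlinarith [norm_nonneg v]
  rw [D.hS] at hv
  obtain ⟨i, hi⟩ := D.hc₁ v hv h1
  obtain ⟨q, hq, hq'⟩ := exists_phase (2 * Real.pi * D.ℓ i.succ x + 2 * Real.pi *
    (j * D.ℓ i.succ D.b)) (D.ℓ i.succ v)
  obtain ⟨k, hk1, hk2, hk3⟩ := D.hatt ⌊D.S.en x v⌋₊ i q hq
  refine ⟨k, hk1, ?_, ?_, ?_⟩
  · rw [hk1, D.hVm]
    refine Real.le_sqrt_of_sq_le ?_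
    have h2 := Nat.lt_floor_add_one (D.S.en x v)
    simp only [Base.en] at h2 ⊢
    linarith [hBx.2]
  · show D.c₁ ≤ |D.ℓ (D.idx k).succ v|
    rw [hk2]
    exact hi
  · show 7 / 10 * |D.ℓ (D.idx k).succ v| ≤ -Real.sin (2 * Real.pi * D.ℓ (D.idx k).succ x +
      D.ph j k) * D.ℓ (D.idx k).succ v
    rw [ph, bk, hk2, hk3]
    rw [← add_assoc]
    exact hq'

end Sys

end Pool.Agent.Helper69.EI
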