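import Pool.Agent.Helper69.EI.ClockA

set_option autoImplicit false

/-! The other degrees of freedom: motion in an autonomous potential, with kicks. -/

namespace Pool.Agent.Helper69.EI

open Set Filter Topology
open scoped NNReal

variable {V : Type*} [NormedAddCommGroup V] [InnerProductSpace ℝ V]

/-- the base system `x'' = ∇u(x)`, where `∇u ⟂ g₀` -/
structure Base (V : Type*) [NormedAddCommGroup V] [InnerProductSpace ℝ V] where
  u : V → ℝ
  gu : V → V
  hu : ∀ x, HasFDerivAt u (innerSL ℝ (gu x)) x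
  K : ℝ≥0
  hK : LipschitzWith K gu
  M : ℝ
  hM : ∀ x, ‖gu x‖ ≤ M
  B : ℝ
  hB : ∀ x, |u x| ≤ B
  g₀ : V
  hg : ∀ x, inner ℝ g₀ (gu x) = 0

/-- a kick by the potential `ε ρ(t/d) cos(2π ω(x) + ϕ)` -/
structure Kick (S : Base V) where
  ε : ℝ
  d : ℝ
  lin : V →L[ℝ] ℝ
  g : V
  ε_pos : 0 < ε
  ε_le : ε ≤ 1
  d_pos : 0 < d
  d_le : d ≤ 1
  hg₀ : inner ℝ S.g₀ g = 0
  hω : ∀ v, inner ℝ S.g₀ v = 0 → inner ℝ g v = lin v
  hε : ε * R0 * (2 * Real.pi) * ‖g‖ ≤ 1

/-- an orbit with a kick -/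
structure XOrb {S : Base V} (k : Kick S) (ϕ : ℝ) (X U : ℝ → V) : Prop where
  hX : ∀ t, HasDerivAt X (U t) t
  hU : ∀ t, HasDerivAt U
    (S.gu (X t) - (k.ε * rho (t / k.d) * (2 * Real.pi) * Real.sin (2 * Real.pi * k.lin (X t) + ϕ)) •
      k.g) t

lemma Base.M_nonneg (S : Base V) : 0 ≤ S.M := (norm_nonneg _).trans (S.hM 0)

theorem exists_xorb [CompleteSpace V] {S : Base V} (k : Kick S) (ϕ : ℝ) (x v : V) :
    ∃ X U, XOrb k ϕ X U ∧ X 0 = x ∧ U 0 = v := by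
  have hR : ∀ t, |rho t| ≤ R0 := fun t => by rw [abs_of_nonneg (rho_nonneg t)]; exact rho_le t
  have hpi := Real.pi_pos
  obtain ⟨L, hL⟩ : ∃ L : ℝ, L = S.K + k.ε * R0 * (2 * Real.pi) * (2 * Real.pi * ‖k.lin‖) * ‖k.g‖ :=
    ⟨_, rfl⟩
  have hL0 : 0 ≤ L := by
    rw [hL]
    have h1 := k.ε_pos
    have h2 := R0_pos
    have h3 : (0:ℝ) ≤ S.K := S.K.2
    positivity
  obtain ⟨ξ, h0, h1⟩ := global_ode
    (fun (t : ℝ) (z : V × V) => (z.2, S.gu z.1 - (k.ε * rho (t / k.d) * (2 * Real.pi) *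
      Real.sin (2 * Real.pi * k.lin z.1 + ϕ)) • k.g)) (max 1 ⟨L, hL0⟩) (by
    intro t
    have h1 : LipschitzWith 1 (fun z : V × V => z.2) := LipschitzWith.prod_snd
    have h2 : LipschitzWith ⟨L, hL0⟩ (fun z : V × V => S.gu z.1 - (k.ε * rho (t / k.d) *
        (2 * Real.pi) * Real.sin (2 * Real.pi * k.lin z.1 + ϕ)) • k.g) := by
      refine LipschitzWith.of_dist_le_mul fun z z' => ?_
      have e1 := S.hK.dist_le_mul z.1 z'.1
      have e3 : dist z.1 z'.1 ≤ dist z z' := le_max_left _ _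
      have e4 : (0:ℝ) ≤ S.K := S.K.2
      rw [dist_eq_norm] at e1 ⊢
      have e6 : S.gu z.1 - (k.ε * rho (t / k.d) *
          (2 * Real.pi) * Real.sin (2 * Real.pi * k.lin z.1 + ϕ)) • k.g -
          (S.gu z'.1 - (k.ε * rho (t / k.d) *
          (2 * Real.pi) * Real.sin (2 * Real.pi * k.lin z'.1 + ϕ)) • k.g) =
          (S.gu z.1 - S.gu z'.1) - (k.ε * rho (t / k.d) * (2 * Real.pi) *
          (Real.sin (2 * Real.pi * k.lin z.1 + ϕ) - Real.sin (2 * Real.pi * k.lin z'.1 + ϕ))) •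
            k.g := by
        rw [mul_sub, sub_smul]
        abel
      rw [e6]
      refine (norm_sub_le _ _).trans ?_
      rw [norm_smul, Real.norm_eq_abs, abs_mul, abs_mul, abs_mul, abs_of_pos k.ε_pos,
        abs_of_pos (by positivity : (0:ℝ) < 2 * Real.pi)]
      have e7 : |Real.sin (2 * Real.pi * k.lin z.1 + ϕ) - Real.sin (2 * Real.pi * k.lin z'.1 + ϕ)| ≤
          2 * Real.pi * ‖k.lin‖ * dist z z' := by
        refine (Real.abs_sin_sub_sin_le _ _).trans ?_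
        have e8 : 2 * Real.pi * k.lin z.1 + ϕ - (2 * Real.pi * k.lin z'.1 + ϕ) =
            2 * Real.pi * k.lin (z.1 - z'.1) := by rw [map_sub]; ring
        rw [e8, abs_mul, abs_of_pos (by positivity : (0:ℝ) < 2 * Real.pi)]
        have e9 := k.lin.le_opNorm (z.1 - z'.1)
        rw [Real.norm_eq_abs, ← dist_eq_norm] at e9
        calc 2 * Real.pi * |k.lin (z.1 - z'.1)| ≤ 2 * Real.pi * (‖k.lin‖ * dist z z') := by
              refine mul_le_mul_of_nonneg_left ?_ (by positivity)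
              exact e9.trans (mul_le_mul_of_nonneg_left e3 (norm_nonneg k.lin))
          _ = 2 * Real.pi * ‖k.lin‖ * dist z z' := by ring
      have e10 : k.ε * |rho (t / k.d)| * (2 * Real.pi) *
          |Real.sin (2 * Real.pi * k.lin z.1 + ϕ) - Real.sin (2 * Real.pi * k.lin z'.1 + ϕ)| * ‖k.g‖ ≤
          k.ε * R0 * (2 * Real.pi) * (2 * Real.pi * ‖k.lin‖ * dist z z') * ‖k.g‖ := by
        have := k.ε_pos
        have := hR (t / k.d)
        have := R0_pos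
        gcongr
      have e11 : ‖S.gu z.1 - S.gu z'.1‖ ≤ S.K * dist z z' :=
        e1.trans (mul_le_mul_of_nonneg_left e3 e4)
      show _ ≤ L * dist z z'
      rw [hL]
      linarith
    exact h1.prodMk h2) (by
    have h1 : Continuous S.gu := S.hK.continuous
    refine (continuous_snd.comp continuous_snd).prodMk
      ((h1.comp (continuous_fst.comp continuous_snd)).sub (Continuous.smul ?_ continuous_const))
    refine ((continuous_const.mul (continuous_rho.comp (continuous_fst.div_const _))).mul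
      continuous_const).mul (Real.continuous_sin.comp ?_)
    exact (continuous_const.mul (k.lin.continuous.comp (continuous_fst.comp continuous_snd))).add
      continuous_const) (x, v)
  refine ⟨fun t => (ξ t).1, fun t => (ξ t).2, ⟨fun t => (h1 t).fst, fun t => (h1 t).snd⟩, ?_, ?_⟩
  · simp only [h0]
  · simp only [h0]

section
variable {S : Base V} {k : Kick S} {ϕ : ℝ} {X U : ℝ → V}

lemma const_of_zero {f : ℝ → ℝ} (h : ∀ t, HasDerivAt f 0 t) (t : ℝ) : f t = f 0 :=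
  is_const_of_deriv_eq_zero (fun t => (h t).differentiableAt) (fun t => (h t).deriv) t 0

lemma XOrb.perp_U (h : XOrb k ϕ X U) (h0 : inner ℝ S.g₀ (U 0) = 0) (t : ℝ) :
    inner ℝ S.g₀ (U t) = 0 := by
  have h1 : ∀ t, HasDerivAt (fun t => inner ℝ S.g₀ (U t)) 0 t := by
    intro t
    have h2 := (innerSL ℝ S.g₀).hasFDerivAt.comp_hasDerivAt t (h.hU t)
    refine h2.congr_deriv ?_
    simp only [innerSL_apply_apply, inner_sub_right, inner_smul_right, S.hg, k.hg₀, mul_zero,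
      sub_zero]
  rw [const_of_zero h1 t, h0]

lemma XOrb.perp_X (h : XOrb k ϕ X U) (h0 : inner ℝ S.g₀ (U 0) = 0) (h0' : inner ℝ S.g₀ (X 0) = 0)
    (t : ℝ) : inner ℝ S.g₀ (X t) = 0 := by
  have h1 : ∀ t, HasDerivAt (fun t => inner ℝ S.g₀ (X t)) 0 t := by
    intro t
    have h2 := (innerSL ℝ S.g₀).hasFDerivAt.comp_hasDerivAt t (h.hX t)
    refine h2.congr_deriv ?_
    simp only [innerSL_apply_apply, h.perp_U h0 t]
  rw [const_of_zero h1 t, h0']

lemma XOrb.force_le (_h : XOrb k ϕ X U) (t : ℝ) :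
    ‖S.gu (X t) - (k.ε * rho (t / k.d) * (2 * Real.pi) *
      Real.sin (2 * Real.pi * k.lin (X t) + ϕ)) • k.g‖ ≤ S.M + 1 := by
  refine (norm_sub_le _ _).trans (add_le_add (S.hM _) ?_)
  rw [norm_smul, Real.norm_eq_abs]
  have hpi := Real.pi_pos
  have h1 : |k.ε * rho (t / k.d) * (2 * Real.pi) * Real.sin (2 * Real.pi * k.lin (X t) + ϕ)| ≤
      k.ε * R0 * (2 * Real.pi) := by
    rw [abs_mul, abs_mul, abs_mul, abs_of_pos k.ε_pos, abs_of_nonneg (rho_nonneg _),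
      abs_of_pos (by positivity : (0:ℝ) < 2 * Real.pi)]
    have h2 := Real.abs_sin_le_one (2 * Real.pi * k.lin (X t) + ϕ)
    have h3 := rho_le (t / k.d)
    have h4 := k.ε_pos
    have h5 := R0_pos
    have h6 := rho_nonneg (t / k.d)
    calc k.ε * rho (t / k.d) * (2 * Real.pi) * |Real.sin (2 * Real.pi * k.lin (X t) + ϕ)|
        ≤ k.ε * R0 * (2 * Real.pi) * 1 := by gcongr
      _ = _ := mul_one _
  exact (mul_le_mul_of_nonneg_right h1 (norm_nonneg _)).trans k.hε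

lemma XOrb.v_sub (h : XOrb k ϕ X U) {t : ℝ} (ht : 0 ≤ t) : ‖U t - U 0‖ ≤ (S.M + 1) * t := by
  have h1 := (convex_univ).norm_image_sub_le_of_norm_hasDerivWithin_le (f := U)
    (C := S.M + 1) (s := univ) (x := 0) (y := t)
    (fun x _ => (h.hU x).hasDerivWithinAt) (fun x _ => h.force_le x) (mem_univ _) (mem_univ _)
  rw [sub_zero, Real.norm_eq_abs, abs_of_nonneg ht] at h1
  exact h1

lemma XOrb.x_sub (h : XOrb k ϕ X U) {d : ℝ} (hd : 0 ≤ d) {t : ℝ} (ht : t ∈ Icc 0 d) :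
    ‖X t - X 0‖ ≤ (‖U 0‖ + (S.M + 1) * d) * t := by
  have h1 := (convex_Icc 0 d).norm_image_sub_le_of_norm_hasDerivWithin_le (f := X) (f' := U)
    (C := ‖U 0‖ + (S.M + 1) * d) (x := 0) (y := t)
    (fun x _ => (h.hX x).hasDerivWithinAt) (fun x hx => by
      have h2 := h.v_sub hx.1
      have h3 : ‖U x‖ ≤ ‖U 0‖ + ‖U x - U 0‖ := by
        have := norm_add_le (U 0) (U x - U 0)
        rwa [add_sub_cancel] at this
      have h4 : (S.M + 1) * x ≤ (S.M + 1) * d :=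
        mul_le_mul_of_nonneg_left hx.2 (by linarith [S.M_nonneg])
      linarith) ⟨le_rfl, hd⟩ ht
  rw [sub_zero, Real.norm_eq_abs, abs_of_nonneg ht.1] at h1
  exact h1

/-- the derivative of the energy -/
lemma XOrb.hE (h : XOrb k ϕ X U) (h0 : inner ℝ S.g₀ (U 0) = 0) (t : ℝ) :
    HasDerivAt (fun t => ‖U t‖ ^ 2 / 2 - S.u (X t))
      (k.ε * (2 * Real.pi) * (rho (t / k.d) *
        (-Real.sin (2 * Real.pi * k.lin (X t) + ϕ) * k.lin (U t)))) t := by
  have h1 := ((h.hU t).norm_sq).div_const 2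
  have h2 := (S.hu (X t)).comp_hasDerivAt t (h.hX t)
  have h3 := h1.sub h2
  refine h3.congr_deriv ?_
  have h4 := k.hω (U t) (h.perp_U h0 t)
  rw [real_inner_comm] at h4
  simp only [innerSL_apply_apply, inner_sub_right, inner_smul_right, h4]
  rw [real_inner_comm (U t) (S.gu (X t))]
  ring

end

/-- the product estimate -/
lemma prod_bounds {s s' a a' : ℝ} (hs : |s| ≤ 1) (h : 7 / 10 * |a| ≤ s * a)
    (hs' : |s' - s| ≤ 1 / 10) (ha' : |a' - a| ≤ |a| / 10) :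
    |a| / 4 ≤ s' * a' ∧ s' * a' ≤ 2 * |a| := by
  have e : s' * a' = s * a + (s' - s) * a + s * (a' - a) + (s' - s) * (a' - a) := by ring
  have h1 : |(s' - s) * a| ≤ 1 / 10 * |a| := by
    rw [abs_mul]; exact mul_le_mul_of_nonneg_right hs' (abs_nonneg _)
  have h2 : |s * (a' - a)| ≤ 1 * (|a| / 10) := by
    rw [abs_mul]; exact mul_le_mul hs ha' (abs_nonneg _) zero_le_one
  have h3 : |(s' - s) * (a' - a)| ≤ 1 / 10 * (|a| / 10) := by
    rw [abs_mul]; exact mul_le_mul hs' ha' (abs_nonneg _) (by norm_num)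
  have h4 : |s * a| ≤ 1 * |a| := by
    rw [abs_mul]; exact mul_le_mul_of_nonneg_right hs (abs_nonneg _)
  have h5 := abs_nonneg a
  rw [abs_le] at h1 h2 h3 h4
  rw [e]
  constructor <;> linarith [h1.1, h1.2, h2.1, h2.2, h3.1, h3.2, h4.1, h4.2]

/-- the conditions on the length of the time window -/
structure Kick.Short {S : Base V} (k : Kick S) (Vm c₁ : ℝ) : Prop where
  h1 : 2 * Real.pi * ‖k.lin‖ * (Vm + S.M + 1) * k.d ≤ 1 / 10
  h2 : ‖k.lin‖ * (S.M + 1) * k.d ≤ c₁ / 10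

/-- **The kick.** It increases the energy. -/
theorem XOrb.kick {S : Base V} {k : Kick S} {ϕ : ℝ} {X U : ℝ → V} (h : XOrb k ϕ X U)
    (h0 : inner ℝ S.g₀ (U 0) = 0) {Vm c₁ : ℝ} (hk : k.Short Vm c₁) (hV : ‖U 0‖ ≤ Vm)
    (hc : c₁ ≤ |k.lin (U 0)|)
    (hs : 7 / 10 * |k.lin (U 0)| ≤ -Real.sin (2 * Real.pi * k.lin (X 0) + ϕ) * k.lin (U 0)) :
    (∀ t, 0 ≤ t → ‖U 0‖ ^ 2 / 2 - S.u (X 0) ≤ ‖U t‖ ^ 2 / 2 - S.u (X t)) ∧
    (∀ t, k.d ≤ t → ‖U 0‖ ^ 2 / 2 - S.u (X 0) + k.ε * c₁ * k.d ≤ ‖U t‖ ^ 2 / 2 - S.u (X t) ∧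
      ‖U t‖ ^ 2 / 2 - S.u (X t) ≤ ‖U 0‖ ^ 2 / 2 - S.u (X 0) + 1) := by
  have hpi := Real.pi_pos
  have hpi3 := Real.pi_gt_three
  have hd := k.d_pos
  have hM := S.M_nonneg
  have hω := norm_nonneg k.lin
  have hU0 := norm_nonneg (U 0)
  have key : ∀ t ∈ Icc 0 k.d, |k.lin (U 0)| / 4 ≤
      -Real.sin (2 * Real.pi * k.lin (X t) + ϕ) * k.lin (U t) ∧
      -Real.sin (2 * Real.pi * k.lin (X t) + ϕ) * k.lin (U t) ≤ 2 * |k.lin (U 0)| := by
    intro t ht
    refine prod_bounds (s := -Real.sin (2 * Real.pi * k.lin (X 0) + ϕ)) ?_ hs ?_ ?_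
    · rw [abs_neg]; exact Real.abs_sin_le_one _
    · rw [neg_sub_neg, abs_sub_comm]
      refine (Real.abs_sin_sub_sin_le _ _).trans ?_
      have e8 : 2 * Real.pi * k.lin (X t) + ϕ - (2 * Real.pi * k.lin (X 0) + ϕ) =
          2 * Real.pi * k.lin (X t - X 0) := by rw [map_sub]; ring
      rw [e8, abs_mul, abs_of_pos (by positivity : (0:ℝ) < 2 * Real.pi)]
      have e9 := k.lin.le_opNorm (X t - X 0)
      rw [Real.norm_eq_abs] at e9
      have e10 := h.x_sub hd.le ht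
      have e11 : (‖U 0‖ + (S.M + 1) * k.d) * t ≤ (Vm + S.M + 1) * k.d := by
        have h1 : (S.M + 1) * k.d ≤ (S.M + 1) * 1 :=
          mul_le_mul_of_nonneg_left k.d_le (by linarith)
        have h2 : ‖U 0‖ + (S.M + 1) * k.d ≤ Vm + S.M + 1 := by linarith
        exact mul_le_mul h2 ht.2 ht.1 (by linarith)
      calc 2 * Real.pi * |k.lin (X t - X 0)| ≤ 2 * Real.pi * (‖k.lin‖ * ((Vm + S.M + 1) * k.d)) := by
            refine mul_le_mul_of_nonneg_left ?_ (by positivity)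
            exact e9.trans (mul_le_mul_of_nonneg_left (e10.trans e11) hω)
        _ = 2 * Real.pi * ‖k.lin‖ * (Vm + S.M + 1) * k.d := by ring
        _ ≤ _ := hk.h1
    · rw [← map_sub]
      have e9 := k.lin.le_opNorm (U t - U 0)
      rw [Real.norm_eq_abs] at e9
      have e10 := h.v_sub ht.1
      have e11 : (S.M + 1) * t ≤ (S.M + 1) * k.d := mul_le_mul_of_nonneg_left ht.2 (by linarith)
      calc |k.lin (U t - U 0)| ≤ ‖k.lin‖ * ((S.M + 1) * k.d) :=
            e9.trans (mul_le_mul_of_nonneg_left (e10.trans e11) hω)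
        _ = ‖k.lin‖ * (S.M + 1) * k.d := by ring
        _ ≤ c₁ / 10 := hk.h2
        _ ≤ _ := by linarith
  have hE := fun t => h.hE h0 t
  have hεp := k.ε_pos
  -- on the window
  have hω0 := abs_nonneg (k.lin (U 0))
  have hup : 4 * Real.pi * |k.lin (U 0)| * k.d ≤ 1 := by
    have e9 := k.lin.le_opNorm (U 0)
    rw [Real.norm_eq_abs] at e9
    have e10 : |k.lin (U 0)| ≤ ‖k.lin‖ * (Vm + S.M + 1) :=
      e9.trans (mul_le_mul_of_nonneg_left (by linarith) hω)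
    calc 4 * Real.pi * |k.lin (U 0)| * k.d ≤ 4 * Real.pi * (‖k.lin‖ * (Vm + S.M + 1)) * k.d := by
          gcongr
      _ = 2 * (2 * Real.pi * ‖k.lin‖ * (Vm + S.M + 1) * k.d) := by ring
      _ ≤ 1 := by linarith [hk.h1]
  have hge : ‖U 0‖ ^ 2 / 2 - S.u (X 0) + k.ε * |k.lin (U 0)| * k.d ≤
      ‖U k.d‖ ^ 2 / 2 - S.u (X k.d) := by
    refine energy_ge hd hE fun t ht => ?_
    have h1 := (key t ht).1
    have h2 := rho_nonneg (t / k.d)
    have h3 : rho (t / k.d) * (|k.lin (U 0)| / 4) ≤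
        rho (t / k.d) * (-Real.sin (2 * Real.pi * k.lin (X t) + ϕ) * k.lin (U t)) :=
      mul_le_mul_of_nonneg_left h1 h2
    have h4 : 0 ≤ rho (t / k.d) * |k.lin (U 0)| := mul_nonneg h2 hω0
    calc k.ε * |k.lin (U 0)| * rho (t / k.d) = k.ε * (rho (t / k.d) * |k.lin (U 0)|) := by ring
      _ ≤ k.ε * (2 * Real.pi * (rho (t / k.d) * (|k.lin (U 0)| / 4))) := by
          refine mul_le_mul_of_nonneg_left ?_ hεp.le
          nlinarith
      _ ≤ k.ε * (2 * Real.pi *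
          (rho (t / k.d) * (-Real.sin (2 * Real.pi * k.lin (X t) + ϕ) * k.lin (U t)))) := by
          gcongr
      _ = _ := by ring
  have hle : ‖U k.d‖ ^ 2 / 2 - S.u (X k.d) ≤
      ‖U 0‖ ^ 2 / 2 - S.u (X 0) + (4 * Real.pi * |k.lin (U 0)|) * k.d := by
    refine energy_le hd hE fun t ht => ?_
    have h1 := (key t ht).2
    have h2 := rho_nonneg (t / k.d)
    have h3 : rho (t / k.d) * (-Real.sin (2 * Real.pi * k.lin (X t) + ϕ) * k.lin (U t)) ≤
        rho (t / k.d) * (2 * |k.lin (U 0)|) := mul_le_mul_of_nonneg_left h1 h2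
    have h5 : 0 ≤ rho (t / k.d) * (2 * |k.lin (U 0)|) := mul_nonneg h2 (by linarith)
    calc k.ε * (2 * Real.pi) * (rho (t / k.d) *
          (-Real.sin (2 * Real.pi * k.lin (X t) + ϕ) * k.lin (U t)))
        ≤ k.ε * (2 * Real.pi) * (rho (t / k.d) * (2 * |k.lin (U 0)|)) := by gcongr
      _ ≤ 1 * (2 * Real.pi) * (rho (t / k.d) * (2 * |k.lin (U 0)|)) := by
          gcongr
          exact k.ε_le
      _ = _ := by ring
  have hmono : ∀ t ∈ Icc 0 k.d, ‖U 0‖ ^ 2 / 2 - S.u (X 0) ≤ ‖U t‖ ^ 2 / 2 - S.u (X t) := by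
    intro t ht
    have h1 := pos_ge hE ht.1 (a := 0) (fun s hs => by
      have h2 := (key s ⟨hs.1, hs.2.trans ht.2⟩).1
      have h3 := rho_nonneg (s / k.d)
      have h4 : 0 ≤ -Real.sin (2 * Real.pi * k.lin (X s) + ϕ) * k.lin (U s) := by linarith
      positivity)
    simp only [zero_mul] at h1
    linarith
  have hcons : ∀ t, k.d ≤ t → ‖U t‖ ^ 2 / 2 - S.u (X t) = ‖U k.d‖ ^ 2 / 2 - S.u (X k.d) := by
    intro t ht
    have h0 : ∀ x ∈ Icc k.d t, k.ε * (2 * Real.pi) * (rho (x / k.d) *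
        (-Real.sin (2 * Real.pi * k.lin (X x) + ϕ) * k.lin (U x))) = 0 := by
      intro x hx
      rw [rho_of_one_le ((one_le_div hd).2 hx.1), zero_mul, mul_zero]
    have h1 := pos_le hE ht (a := 0) (fun x hx => (h0 x hx).le)
    have h2 := pos_ge hE ht (a := 0) (fun x hx => (h0 x hx).ge)
    linarith
  refine ⟨fun t ht => ?_, fun t ht => ?_⟩
  · rcases le_total t k.d with h1 | h1
    · exact hmono t ⟨ht, h1⟩
    · rw [hcons t h1]
      exact hmono k.d ⟨hd.le, le_rfl⟩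
  · rw [hcons t ht]
    have h1 : k.ε * c₁ * k.d ≤ k.ε * |k.lin (U 0)| * k.d := by gcongr
    constructor <;> linarith

end Pool.Agent.Helper69.EI
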